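import Mathlib
import Pool.Agent.Lib_helper94.XO.Defs
import Pool.Agent.Lib_helper94.XO.Defs2
import Pool.Agent.Lib_helper94.XO.Pr
set_option autoImplicit false

/-! PART II, block A1: convolution powers. -/

namespace Pool.Agent.XO

open Finset

variable {V : Type} [AddCommGroup V] [Fintype V] [DecidableEq V]

theorem pw_nonneg {p : V → ℝ} (hp : IsLaw p) {k : ℕ} (c : Fin k → V) : 0 ≤ pw p c :=
  Finset.prod_nonneg fun _ _ => hp.nonneg _

theorem pw_law {p : V → ℝ} (hp : IsLaw p) (k : ℕ) : IsLaw (fun c : Fin k → V => pw p c) := by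
  refine ⟨fun c => pw_nonneg hp c, ?_⟩
  have h := Finset.prod_univ_sum (fun _ : Fin k => (univ : Finset V)) (fun _ x => p x)
  rw [Fintype.piFinset_univ] at h
  simp only [pw]
  rw [← h, hp.sum_one]
  simp

theorem cp_law {p : V → ℝ} (hp : IsLaw p) (k : ℕ) : IsLaw (cp p k) := by
  refine ⟨fun Z => ?_, ?_⟩
  · rw [cp]
    refine Finset.sum_nonneg fun c _ => ?_
    split_ifs
    · exact pw_nonneg hp c
    · exact le_rfl
  · simp only [cp]
    rw [Finset.sum_comm]
    simp only [Finset.sum_ite_eq, Finset.mem_univ, if_true]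
    exact (pw_law hp k).sum_one

theorem cp_zero (p : V → ℝ) (Z : V) : cp p 0 Z = if Z = 0 then 1 else 0 := by
  rw [cp]
  simp only [Finset.univ_eq_empty, Finset.sum_empty, pw, Finset.prod_empty, Finset.sum_const,
    Finset.card_univ, Fintype.card_pi]
  simp [eq_comm]

theorem cp_one (p : V → ℝ) (Z : V) : cp p 1 Z = p Z := by
  rw [cp, Fintype.sum_equiv (Equiv.funUnique (Fin 1) V)
    (fun c : Fin 1 → V => if ∑ i, c i = Z then pw p c else 0) (fun x => if x = Z then p x else 0)]
  · simp
  · intro c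
    simp [pw]

theorem cp_succ (p : V → ℝ) (k : ℕ) (Z : V) : cp p (k + 1) Z = ∑ x, p x * cp p k (Z - x) := by
  rw [cp, ← Fintype.sum_equiv (Fin.consEquiv (fun _ : Fin (k + 1) => V))
    (fun y : V × (Fin k → V) => if ∑ i, y.2 i = Z - y.1 then p y.1 * pw p y.2 else 0)
    (fun c : Fin (k + 1) → V => if ∑ i, c i = Z then pw p c else 0), Fintype.sum_prod_type]
  · refine Finset.sum_congr rfl fun x _ => ?_
    rw [cp, Finset.mul_sum]
    refine Finset.sum_congr rfl fun c _ => ?_
    split_ifs <;> simp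
  · rintro ⟨x, c⟩
    simp only [Fin.consEquiv, Equiv.coe_fn_mk, pw, Fin.sum_univ_succ, Fin.prod_univ_succ,
      Fin.cons_zero, Fin.cons_succ]
    congr 1
    rw [eq_sub_iff_add_eq, add_comm]

theorem cp_add (p : V → ℝ) (k l : ℕ) (Z : V) :
    cp p (k + l) Z = ∑ y, cp p k y * cp p l (Z - y) := by
  induction k generalizing Z with
  | zero =>
    rw [zero_add, Finset.sum_eq_single 0]
    · rw [cp_zero, if_pos rfl, one_mul, sub_zero]
    · intro b _ hb
      rw [cp_zero, if_neg hb, zero_mul]
    · intro h; exact absurd (Finset.mem_univ _) h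
  | succ k ih =>
    rw [show k + 1 + l = k + l + 1 by ring, cp_succ]
    simp only [cp_succ p k, Finset.sum_mul]
    rw [Finset.sum_comm]
    refine Finset.sum_congr rfl fun x _ => ?_
    rw [ih, Finset.mul_sum]
    refine Fintype.sum_equiv (Equiv.addLeft x) _ _ fun y => ?_
    simp only [Equiv.coe_addLeft, add_sub_cancel_left, mul_assoc]
    rw [sub_sub]

/-- a possible tuple has a possible sum -/
theorem pw_le_cp {p : V → ℝ} (hp : IsLaw p) {k : ℕ} (c : Fin k → V) :
    pw p c ≤ cp p k (∑ i, c i) := by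
  rw [cp]
  have h := Finset.single_le_sum (f := fun c' : Fin k → V =>
    if ∑ i, c' i = ∑ i, c i then pw p c' else 0) (fun c' _ => by
      show 0 ≤ if ∑ i, c' i = ∑ i, c i then pw p c' else 0
      split_ifs
      · exact pw_nonneg hp c'
      · exact le_rfl) (Finset.mem_univ c)
  simpa using h

end Pool.Agent.XO
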