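import Mathlib
import Pool.Agent.Lib_helper94.XO.Defs
import Pool.Agent.Lib_helper94.XO.Defs2
import Pool.Agent.Lib_helper94.XO.Pr
import Pool.Agent.Lib_helper94.XO.F.P2_A1
set_option autoImplicit false

namespace Pool.Agent.XO

open Finset Filter

variable {V : Type} [AddCommGroup V] [Fintype V] [DecidableEq V]

omit [DecidableEq V] in
theorem c2_sum (F : V → V → ℝ) : ∑ c : Fin 2 → V, F (c 0) (c 1) = ∑ g, ∑ x, F x (g - x) := by
  classical
  have h1 : ∑ c : Fin 2 → V, F (c 0) (c 1) = ∑ q : V × V, F q.1 q.2 :=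
    Fintype.sum_equiv (finTwoArrowEquiv V) _ _ fun c => rfl
  rw [h1, Fintype.sum_prod_type, Finset.sum_comm]
  have h2 : ∀ x : V, ∑ y, F x y = ∑ g, F x (g - x) := fun x =>
    (Fintype.sum_equiv (Equiv.subRight x) _ _ fun g => rfl).symm
  rw [Finset.sum_comm, Finset.sum_congr rfl fun x _ => h2 x, Finset.sum_comm]

theorem c2_cp (p : V → ℝ) (g : V) : cp p 2 g = ∑ x, p x * p (g - x) := by
  have h := cp_succ p 1 g
  have h1 : (1 : ℕ) + 1 = 2 := rfl
  rw [h1] at h
  rw [h]
  exact Finset.sum_congr rfl fun x _ => by rw [cp_one]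

theorem c2_half [Module (ZMod 2) V] {p e : V → ℝ} {s κ κ' κ2 : ℝ}
    (h : World p e s κ κ' κ2) (g : V) (hg : g ≠ 0) (ε : ℝ) (hε : ε = 1 ∨ ε = -1) :
    ∑ x, (if e x * e (g - x) = ε then p x * p (g - x) else 0) = cp p 2 g / 2 := by
  have hb := h.bal g hg
  have h1 : ∀ x, (if e x * e (g - x) = ε then p x * p (g - x) else 0) =
      (p x * p (g - x) + ε * (p x * p (g - x) * (e x * e (g - x)))) / 2 := by
    intro x
    rcases h.sgn x with hx | hx <;> rcases h.sgn (g - x) with hy | hy <;>
      rcases hε with rfl | rfl <;> rw [hx, hy] <;> norm_num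
  rw [Finset.sum_congr rfl fun x _ => h1 x, ← Finset.sum_div, Finset.sum_add_distrib,
    ← Finset.mul_sum, hb, c2_cp]
  ring

theorem light_pair [Module (ZMod 2) V] {p e : V → ℝ} {s κ κ' κ2 : ℝ}
    (h : World p e s κ κ' κ2) {v δ : ℝ} (hv : 0 < v)
    (ht : pr (fun c : Fin 2 → V => pw p c) (fun c => pw p c < v * cp p 2 (∑ i, c i)) ≤ δ) :
    pr (fun c : Fin 2 → V => pw p c) (fun c => LightPair p e v (c 0) (c 1)) ≤ 2 * δ := by
  classical
  have hp := h.law
  have hm0 : ∀ g x : V, 0 ≤ p x * p (g - x) := fun g x => mul_nonneg (hp.nonneg _) (hp.nonneg _)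
  have e1 : pr (fun c : Fin 2 → V => pw p c) (fun c => LightPair p e v (c 0) (c 1)) =
      ∑ g, ∑ x, if LightPair p e v x (g - x) then p x * p (g - x) else 0 := by
    rw [← c2_sum (fun a b => if LightPair p e v a b then p a * p b else 0)]
    unfold pr
    refine Finset.sum_congr rfl fun c _ => ?_
    have h2 : pw p c = p (c 0) * p (c 1) := Fin.prod_univ_two _
    simp only [h2]
  have e2 : pr (fun c : Fin 2 → V => pw p c) (fun c => pw p c < v * cp p 2 (∑ i, c i)) =
      ∑ g, ∑ x, if p x * p (g - x) < v * cp p 2 g then p x * p (g - x) else 0 := by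
    have h3 : ∀ g x : V, (if p x * p (g - x) < v * cp p 2 g then p x * p (g - x) else 0) =
        (fun a b : V => if p a * p b < v * cp p 2 (a + b) then p a * p b else 0) x (g - x) := by
      intro g x
      simp only [add_sub_cancel]
    rw [Finset.sum_congr rfl fun g _ => Finset.sum_congr rfl fun x _ => h3 g x,
      ← c2_sum (fun a b => if p a * p b < v * cp p 2 (a + b) then p a * p b else 0)]
    unfold pr
    refine Finset.sum_congr rfl fun c _ => ?_
    have h2 : pw p c = p (c 0) * p (c 1) := Fin.prod_univ_two _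
    simp only [h2, Fin.sum_univ_two]
  rw [e1]
  have key : ∀ g : V, ∑ x, (if LightPair p e v x (g - x) then p x * p (g - x) else 0) ≤
      2 * ∑ x, if p x * p (g - x) < v * cp p 2 g then p x * p (g - x) else 0 := by
    intro g
    by_cases hex : ∃ x, LightPair p e v x (g - x)
    · obtain ⟨x₀, hne, ε, hε, hl⟩ := hex
      rw [add_sub_cancel] at hl
      have hg : g ≠ 0 := by
        intro h0
        apply hne
        rw [h0, zero_sub, ZModModule.neg_eq_self]
      have h4 := c2_half h g hg ε hε
      have h5 : ∑ x, (if e x * e (g - x) = ε then p x * p (g - x) else 0) ≤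
          ∑ x, if p x * p (g - x) < v * cp p 2 g then p x * p (g - x) else 0 := by
        refine Finset.sum_le_sum fun x _ => ?_
        by_cases hx : e x * e (g - x) = ε
        · rw [if_pos hx, if_pos (hl x (g - x) (add_sub_cancel _ _) hx)]
        · rw [if_neg hx]
          split_ifs
          · exact hm0 g x
          · exact le_rfl
      have h6 : ∑ x, (if LightPair p e v x (g - x) then p x * p (g - x) else 0) ≤ cp p 2 g := by
        rw [c2_cp]
        refine Finset.sum_le_sum fun x _ => ?_
        split_ifs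
        · exact le_rfl
        · exact hm0 g x
      linarith
    · push Not at hex
      have h7 : ∑ x, (if LightPair p e v x (g - x) then p x * p (g - x) else 0) = 0 :=
        Finset.sum_eq_zero fun x _ => if_neg (hex x)
      rw [h7]
      refine mul_nonneg (by norm_num) (Finset.sum_nonneg fun x _ => ?_)
      split_ifs
      · exact hm0 g x
      · exact le_rfl
  refine (Finset.sum_le_sum fun g _ => key g).trans ?_
  rw [← Finset.mul_sum, ← e2]
  linarith

end Pool.Agent.XO
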