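import Mathlib
import Pool.Agent.Lib_helper94.XO.Defs
import Pool.Agent.Lib_helper94.XO.Defs2
import Pool.Agent.Lib_helper94.XO.Pr
import Pool.Agent.Lib_helper94.XO.F.P2_A1
set_option autoImplicit false

/-! PART II, block P2.C5: light pairs in a tuple. -/

namespace Pool.Agent.XO

open Finset Filter

variable {V : Type} [AddCommGroup V] [Fintype V] [DecidableEq V]

theorem c5_two {p : V → ℝ} (hp : IsLaw p) {M : ℕ} {a b : Fin M} (hab : a ≠ b) (x y : V) :
    ∑ c : Fin M → V, pw p c * (if c a = x then 1 else 0) * (if c b = y then 1 else 0) =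
      p x * p y := by
  classical
  have h := Finset.prod_univ_sum (fun _ : Fin M => (univ : Finset V))
    (fun i t => p t * (if i = a then (if t = x then (1:ℝ) else 0) else 1) *
      (if i = b then (if t = y then (1:ℝ) else 0) else 1))
  rw [Fintype.piFinset_univ] at h
  have h1 : ∀ c : Fin M → V,
      ∏ i, (p (c i) * (if i = a then (if c i = x then (1:ℝ) else 0) else 1) *
        (if i = b then (if c i = y then (1:ℝ) else 0) else 1)) =
      pw p c * (if c a = x then 1 else 0) * (if c b = y then 1 else 0) := by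
    intro c
    rw [Finset.prod_mul_distrib, Finset.prod_mul_distrib, Finset.prod_ite_eq',
      Finset.prod_ite_eq', if_pos (Finset.mem_univ _), if_pos (Finset.mem_univ _)]
    rfl
  rw [Finset.sum_congr rfl (fun c _ => h1 c)] at h
  rw [← h]
  have h2 : ∀ i : Fin M, (∑ t : V, p t * (if i = a then (if t = x then (1:ℝ) else 0) else 1) *
      (if i = b then (if t = y then (1:ℝ) else 0) else 1)) =
      (if i = a then p x else 1) * (if i = b then p y else 1) := by
    intro i
    by_cases ha : i = a
    · subst ha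
      simp [hab]
    · by_cases hb : i = b
      · subst hb
        simp [ha]
      · simp [ha, hb, hp.sum_one]
  rw [Finset.prod_congr rfl (fun i _ => h2 i), Finset.prod_mul_distrib, Finset.prod_ite_eq',
    Finset.prod_ite_eq', if_pos (Finset.mem_univ _), if_pos (Finset.mem_univ _)]

open Classical in
theorem c5_marg {p : V → ℝ} (hp : IsLaw p) {M : ℕ} {a b : Fin M} (hab : a ≠ b)
    (B : V → V → Prop) :
    pr (fun c : Fin M → V => pw p c) (fun c => B (c a) (c b)) =
      ∑ x, ∑ y, if B x y then p x * p y else 0 := by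
  unfold pr
  have h1 : ∀ x y : V, (if B x y then p x * p y else 0) =
      ∑ c : Fin M → V, (if B x y then
        pw p c * (if c a = x then 1 else 0) * (if c b = y then 1 else 0) else 0) := by
    intro x y
    by_cases h : B x y
    · simp only [if_pos h]; exact (c5_two hp hab x y).symm
    · simp [if_neg h]
  have h2 : ∑ x, ∑ y, (if B x y then p x * p y else 0) =
      ∑ x, ∑ y, ∑ c : Fin M → V, (if B x y then
        pw p c * (if c a = x then 1 else 0) * (if c b = y then 1 else 0) else 0) :=
    Finset.sum_congr rfl fun x _ => Finset.sum_congr rfl fun y _ => h1 x y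
  rw [h2]
  have h3 : ∑ x, ∑ y, ∑ c : Fin M → V, (if B x y then
        pw p c * (if c a = x then 1 else 0) * (if c b = y then 1 else 0) else 0) =
      ∑ c : Fin M → V, ∑ x, ∑ y, (if B x y then
        pw p c * (if c a = x then 1 else 0) * (if c b = y then 1 else 0) else 0) := by
    have : ∀ x : V, ∑ y, ∑ c : Fin M → V, (if B x y then
        pw p c * (if c a = x then 1 else 0) * (if c b = y then 1 else 0) else 0) =
        ∑ c : Fin M → V, ∑ y, (if B x y then
        pw p c * (if c a = x then 1 else 0) * (if c b = y then 1 else 0) else 0) :=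
      fun x => Finset.sum_comm
    rw [Finset.sum_congr rfl (fun x _ => this x), Finset.sum_comm]
  rw [h3]
  refine Finset.sum_congr rfl fun c _ => ?_
  rw [Finset.sum_eq_single (c a), Finset.sum_eq_single (c b)]
  · simp
  · intro y _ hy
    simp [Ne.symm hy]
  · simp
  · intro x _ hx
    refine Finset.sum_eq_zero fun y _ => ?_
    simp [Ne.symm hx]
  · simp

/-- light pairs in a tuple -/
theorem pair_pr {p : V → ℝ} (hp : IsLaw p) {M : ℕ} (B : V → V → Prop) :
    pr (fun c : Fin M → V => pw p c) (fun c => ∃ a b, a ≠ b ∧ B (c a) (c b)) ≤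
      (M : ℝ) ^ 2 * pr (fun c : Fin 2 → V => pw p c) (fun c => B (c 0) (c 1)) := by
  classical
  set Q : ℝ := pr (fun c : Fin 2 → V => pw p c) (fun c => B (c 0) (c 1)) with hQ
  have hQe : Q = ∑ x, ∑ y, if B x y then p x * p y else 0 :=
    c5_marg hp (a := (0 : Fin 2)) (b := 1) (by decide) B
  have hQ0 : 0 ≤ Q := pr_nonneg (fun c => pw_nonneg hp c) _
  have h1 : pr (fun c : Fin M → V => pw p c) (fun c => ∃ a b, a ≠ b ∧ B (c a) (c b)) ≤
      pr (fun c : Fin M → V => pw p c)
        (fun c => ∃ i : Fin M × Fin M, i.1 ≠ i.2 ∧ B (c i.1) (c i.2)) := by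
    refine pr_mono (fun c => pw_nonneg hp c) ?_
    rintro c _ ⟨a, b, hab, h⟩
    exact ⟨(a, b), hab, h⟩
  refine h1.trans ((pr_exists_le (fun c => pw_nonneg hp c) _).trans ?_)
  have h2 : ∀ i : Fin M × Fin M, pr (fun c : Fin M → V => pw p c)
      (fun c => i.1 ≠ i.2 ∧ B (c i.1) (c i.2)) ≤ Q := by
    intro i
    by_cases hi : i.1 = i.2
    · have : pr (fun c : Fin M → V => pw p c) (fun c => i.1 ≠ i.2 ∧ B (c i.1) (c i.2)) = 0 := by
        unfold pr
        exact Finset.sum_eq_zero fun c _ => by simp [hi]
      rw [this]; exact hQ0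
    · rw [hQe, ← c5_marg hp hi B]
      exact pr_mono (fun c => pw_nonneg hp c) (fun c _ h => h.2)
  calc ∑ i : Fin M × Fin M, pr (fun c : Fin M → V => pw p c)
        (fun c => i.1 ≠ i.2 ∧ B (c i.1) (c i.2)) ≤ ∑ _i : Fin M × Fin M, Q :=
        Finset.sum_le_sum fun i _ => h2 i
    _ = (M : ℝ) ^ 2 * Q := by
        rw [Finset.sum_const, Finset.card_univ, Fintype.card_prod, Fintype.card_fin, nsmul_eq_mul]
        push_cast
        ring

end Pool.Agent.XO
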