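import Mathlib
import Pool.Agent.Lib_helper94.XO.Defs
import Pool.Agent.Lib_helper94.XO.Defs2
import Pool.Agent.Lib_helper94.XO.Pr
import Pool.Agent.Lib_helper94.XO.F.P2_A1
set_option autoImplicit false

/-! PART II, block P2.A4a. -/

namespace Pool.Agent.XO

open Finset

variable {V : Type} [AddCommGroup V] [Fintype V] [DecidableEq V]

/-- the law of the sum -/
theorem a4a_pr_sum (p : V → ℝ) (M : ℕ) (E : V → Prop) :
    pr (fun c : Fin M → V => pw p c) (fun y => E (∑ i, y i)) = pr (cp p M) E := by
  classical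
  unfold pr
  have h2 : ∀ Y, (if E Y then cp p M Y else 0) =
      ∑ y : Fin M → V, if ∑ i, y i = Y then (if E Y then pw p y else 0) else 0 := by
    intro Y
    unfold cp
    by_cases h : E Y
    · simp [h]
    · simp [h]
  simp_rw [h2]
  rw [Finset.sum_comm]
  refine Finset.sum_congr rfl fun y _ => ?_
  simp

/-- II.5 without `z` -/
theorem eff_own {p : V → ℝ} (hp : IsLaw p) {M : ℕ} {v : ℝ} (hv : 0 < v)
    (Bad : (Fin M → V) → Prop) :
    pr (fun c : Fin M → V => pw p c) (fun y => ∃ c, Eff p v (∑ i, y i) c ∧ Bad c) ≤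
      (1 / v) * pr (fun c : Fin M → V => pw p c) Bad := by
  classical
  rw [a4a_pr_sum p M (fun Y => ∃ c : Fin M → V, Eff p v Y c ∧ Bad c)]
  unfold pr
  rw [Finset.mul_sum]
  have h4 : ∀ Y, (if (∃ c : Fin M → V, Eff p v Y c ∧ Bad c) then cp p M Y else 0) ≤
      ∑ c : Fin M → V, if ∑ i, c i = Y then 1 / v * (if Bad c then pw p c else 0) else 0 := by
    intro Y
    have hnn : ∀ c : Fin M → V, 0 ≤
        (if ∑ i, c i = Y then 1 / v * (if Bad c then pw p c else 0) else 0) := by
      intro c
      have := pw_nonneg hp c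
      split_ifs <;> positivity
    by_cases h : ∃ c : Fin M → V, Eff p v Y c ∧ Bad c
    · rw [if_pos h]
      obtain ⟨c, ⟨hc1, hc2, _⟩, hc3⟩ := h
      refine le_trans ?_ (Finset.single_le_sum (fun c _ => hnn c) (Finset.mem_univ c))
      rw [if_pos hc1, if_pos hc3, one_div, ← div_eq_inv_mul, le_div_iff₀ hv]
      linarith
    · rw [if_neg h]
      exact Finset.sum_nonneg fun c _ => hnn c
  calc _ ≤ ∑ Y, ∑ c : Fin M → V,
        (if ∑ i, c i = Y then 1 / v * (if Bad c then pw p c else 0) else 0) := by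
        refine Finset.sum_le_sum fun Y _ => le_trans (le_of_eq ?_) (h4 Y)
        congr
    _ ≤ _ := by
        rw [Finset.sum_comm]
        refine Finset.sum_le_sum fun c _ => ?_
        simp only [Finset.sum_ite_eq, Finset.mem_univ, if_true]
        apply le_of_eq
        congr

end Pool.Agent.XO
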