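import Mathlib
import Pool.Agent.Lib_helper94.XO.Defs
import Pool.Agent.Lib_helper94.XO.Defs2
import Pool.Agent.Lib_helper94.XO.Pr
import Pool.Agent.Lib_helper94.XO.F.P2_A1
set_option autoImplicit false

namespace Pool.Agent.XO

open Finset

variable {V : Type} [AddCommGroup V] [Fintype V] [DecidableEq V]

theorem c3_prod {M : ℕ} (f : Fin M → ℝ) {a b : Fin M} (hab : a ≠ b) :
    ∏ i, f i = f a * f b * ∏ i ∈ (univ.erase a).erase b, f i := by
  rw [← Finset.mul_prod_erase univ f (mem_univ a),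
    ← Finset.mul_prod_erase (univ.erase a) f (mem_erase.2 ⟨hab.symm, mem_univ b⟩), mul_assoc]

theorem c3_sum {M : ℕ} (f : Fin M → V) {a b : Fin M} (hab : a ≠ b) :
    ∑ i, f i = f a + f b + ∑ i ∈ (univ.erase a).erase b, f i := by
  rw [← Finset.add_sum_erase univ f (mem_univ a),
    ← Finset.add_sum_erase (univ.erase a) f (mem_erase.2 ⟨hab.symm, mem_univ b⟩), add_assoc]

theorem gate_step {p e : V → ℝ} (hp : IsLaw p) (he : ∀ c, e c = 1 ∨ e c = -1)
    {σ : V → V → V × V} (hσ : IsGate p e σ) {M : ℕ}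
    {v v' : ℝ} (hv : 0 < v) (hv' : 0 < v') {Y : V} {c : Fin M → V} (hc : Eff p v Y c)
    {a b : Fin M} (hab : a ≠ b) (hne : c a ≠ c b) (hl : ¬ LightPair p e v' (c a) (c b)) :
    Eff p (v * v') Y
      (Function.update (Function.update c a (σ (c a) (c b)).1) b (σ (c a) (c b)).2) := by
  obtain ⟨h1, h2, h3⟩ := hc
  have hpa : ∀ i, p (c i) ≠ 0 := by
    intro i hi
    unfold pw at h3
    rw [Finset.prod_eq_zero (mem_univ i) hi] at h3
    exact lt_irrefl _ h3
  obtain ⟨g1, g2, g3, g4⟩ := hσ (c a) (c b) (hpa a) (hpa b) hne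
  set c' := Function.update (Function.update c a (σ (c a) (c b)).1) b (σ (c a) (c b)).2 with hc'
  have ca : c' a = (σ (c a) (c b)).1 := by
    rw [hc', Function.update_of_ne hab, Function.update_self]
  have cb : c' b = (σ (c a) (c b)).2 := by
    rw [hc', Function.update_self]
  have co : ∀ i ∈ (univ.erase a).erase b, c' i = c i := by
    intro i hi
    rw [mem_erase, mem_erase] at hi
    rw [hc', Function.update_of_ne hi.1, Function.update_of_ne hi.2.1]
  -- the weight of the gate
  have hε : -(e (c a) * e (c b)) = 1 ∨ -(e (c a) * e (c b)) = -1 := by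
    rcases he (c a) with h | h <;> rcases he (c b) with h' | h' <;> rw [h, h'] <;> norm_num
  have key : v' * (p (c a) * p (c b)) ≤ p (σ (c a) (c b)).1 * p (σ (c a) (c b)).2 := by
    unfold LightPair at hl
    push Not at hl
    obtain ⟨x, y, k1, k2, k3⟩ := hl hne _ hε
    have k4 := g4 x y k1 k2
    have k5 : p (c a) * p (c b) ≤ cp p 2 (c a + c b) := by
      have := pw_le_cp hp (![c a, c b] : Fin 2 → V)
      unfold pw at this
      simpa [Fin.prod_univ_two, Fin.sum_univ_two] using this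
    calc v' * (p (c a) * p (c b)) ≤ v' * cp p 2 (c a + c b) :=
          mul_le_mul_of_nonneg_left k5 hv'.le
      _ ≤ p x * p y := k3
      _ ≤ _ := k4
  have R0 : 0 ≤ ∏ i ∈ (univ.erase a).erase b, p (c i) := Finset.prod_nonneg fun i _ => hp.nonneg _
  have R1 : 0 < ∏ i ∈ (univ.erase a).erase b, p (c i) :=
    lt_of_le_of_ne R0 (Finset.prod_ne_zero_iff.2 fun i _ => hpa i).symm
  have e1 : pw p c = p (c a) * p (c b) * ∏ i ∈ (univ.erase a).erase b, p (c i) := by
    unfold pw
    exact c3_prod (fun i => p (c i)) hab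
  have e2 : pw p c' = p (σ (c a) (c b)).1 * p (σ (c a) (c b)).2 *
      ∏ i ∈ (univ.erase a).erase b, p (c i) := by
    unfold pw
    rw [c3_prod (fun i => p (c' i)) hab, ca, cb]
    congr 1
    exact Finset.prod_congr rfl fun i hi => by rw [co i hi]
  refine ⟨?_, ?_, ?_⟩
  · rw [c3_sum c' hab, ca, cb, g1, ← h1, c3_sum c hab]
    congr 1
    exact Finset.sum_congr rfl fun i hi => co i hi
  · rw [e2]
    calc v * v' * cp p M Y = v' * (v * cp p M Y) := by ring
      _ ≤ v' * pw p c := mul_le_mul_of_nonneg_left h2 hv'.le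
      _ = v' * (p (c a) * p (c b)) * ∏ i ∈ (univ.erase a).erase b, p (c i) := by
          rw [e1]; ring
      _ ≤ _ := mul_le_mul_of_nonneg_right key R0
  · rw [e2]
    exact mul_pos g2 R1

end Pool.Agent.XO
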