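import Mathlib
import Pool.Agent.Lib_helper94.XO.Defs
import Pool.Agent.Lib_helper94.XO.Defs2
import Pool.Agent.Lib_helper94.XO.Pr
import Pool.Agent.Lib_helper94.XO.F.P2_A1
import Pool.Agent.Lib_helper94.XO.F.P2_C5
set_option autoImplicit false

namespace Pool.Agent.XO

open Finset

variable {V : Type} [AddCommGroup V] [Fintype V] [DecidableEq V]

theorem c4_two {p : V → ℝ} (hp : IsLaw p) {τ : ℝ} (hτ : ∀ c, p c ≤ τ) :
    pr (fun c : Fin 2 → V => pw p c) (fun c => c 0 = c 1) ≤ τ := by
  classical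
  have h1 : pr (fun c : Fin 2 → V => pw p c) (fun c => c 0 = c 1) = ∑ x, p x * p x := by
    unfold pr
    rw [← (finTwoArrowEquiv V).symm.sum_comp, Fintype.sum_prod_type]
    refine Finset.sum_congr rfl fun x _ => ?_
    have : ∀ y : V, (if ((finTwoArrowEquiv V).symm (x, y)) 0 = ((finTwoArrowEquiv V).symm (x, y)) 1
        then pw p ((finTwoArrowEquiv V).symm (x, y)) else 0) = if x = y then p x * p y else 0 := by
      intro y
      simp [pw, Fin.prod_univ_two]
    simp_rw [this]
    simp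
  rw [h1]
  calc ∑ x, p x * p x ≤ ∑ x, p x * τ :=
        Finset.sum_le_sum fun x _ => mul_le_mul_of_nonneg_left (hτ x) (hp.nonneg x)
    _ = τ := by rw [← Finset.sum_mul, hp.sum_one, one_mul]

/-- two equal entries are unlikely -/
theorem not_inj_pr {p : V → ℝ} (hp : IsLaw p) {M : ℕ} {τ : ℝ} (hτ : ∀ c, p c ≤ τ) :
    pr (fun c : Fin M → V => pw p c) (fun c => ¬ Function.Injective c) ≤ (M : ℝ) ^ 2 * τ := by
  classical
  have h1 := pair_pr hp (M := M) (fun x y : V => x = y)
  have h2 : pr (fun c : Fin M → V => pw p c) (fun c => ¬ Function.Injective c) ≤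
      pr (fun c : Fin M → V => pw p c) (fun c => ∃ a b, a ≠ b ∧ c a = c b) := by
    refine pr_mono (fun c => pw_nonneg hp c) fun c _ hc => ?_
    unfold Function.Injective at hc
    push Not at hc
    obtain ⟨a, b, h, hne⟩ := hc
    exact ⟨a, b, hne, h⟩
  refine h2.trans (h1.trans ?_)
  exact mul_le_mul_of_nonneg_left (c4_two hp hτ) (by positivity)

end Pool.Agent.XO
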