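import Mathlib
import Pool.Agent.Lib_helper94.XO.Defs
import Pool.Agent.Lib_helper94.XO.Defs2
import Pool.Agent.Lib_helper94.XO.Pr
import Pool.Agent.Lib_helper94.XO.F.P2_A1
import Pool.Agent.Lib_helper94.XO.F.P2_A4a
import Pool.Agent.Lib_helper94.XO.F.P2_C2
import Pool.Agent.Lib_helper94.XO.F.P2_C3
import Pool.Agent.Lib_helper94.XO.F.P2_C4
import Pool.Agent.Lib_helper94.XO.F.P2_C5
import Pool.Agent.Lib_helper94.XO.P1Top
set_option autoImplicit false

namespace Pool.Agent.XO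

open Finset Filter

theorem c6_eff_mono {V : Type} [AddCommGroup V] [Fintype V] [DecidableEq V] {p : V → ℝ}
    (hp : IsLaw p) {M : ℕ} {v v' : ℝ} (h : v' ≤ v) {Y : V} {c : Fin M → V} (hc : Eff p v Y c) :
    Eff p v' Y c :=
  ⟨hc.1, (mul_le_mul_of_nonneg_right h ((cp_law hp M).nonneg Y)).trans hc.2.1, hc.2.2⟩

/-- tightness with a constant at most one -/
theorem c6_tight (κ κ' δ : ℝ) (hκ : 0 < κ) (hκ' : 0 < κ') (hδ : 0 < δ) (m : ℕ) :
    ∃ v : ℝ, 0 < v ∧ v ≤ 1 ∧ ∀ᶠ s : ℝ in atTop, ∀ (V : Type) [AddCommGroup V]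
      [Module (ZMod 2) V] [Fintype V] [DecidableEq V] (p : V → ℝ), PWorld p s κ κ' →
      pr (fun c : Fin m → V => pw p c) (fun c => pw p c < v * cp p m (∑ i, c i)) ≤ δ := by
  obtain ⟨v, hv, h⟩ := tight_own κ κ' δ hκ hκ' hδ m
  refine ⟨min v 1, lt_min hv one_pos, min_le_right _ _, ?_⟩
  filter_upwards [h] with s hs V _ _ _ _ p hp
  refine le_trans (pr_mono (fun z => pw_nonneg hp.law z) fun c _ hc => ?_) (hs V p hp)
  exact lt_of_lt_of_le hc (mul_le_mul_of_nonneg_right (min_le_left _ _)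
    ((cp_law hp.law m).nonneg _))

theorem c6_small (κ2 : ℝ) (hκ2 : 0 < κ2) (M : ℕ) {ε : ℝ} (hε : 0 < ε) :
    ∀ᶠ s : ℝ in atTop, (M : ℝ) ^ 2 * s ^ (-κ2) ≤ ε := by
  have h : Tendsto (fun s : ℝ => (M : ℝ) ^ 2 * s ^ (-κ2)) atTop (nhds ((M : ℝ) ^ 2 * 0)) :=
    (tendsto_rpow_neg_atTop hκ2).const_mul _
  rw [mul_zero] at h
  exact (h.eventually (gt_mem_nhds hε)).mono fun s hs => hs.le

/-- the chain of thresholds (II.6) -/
theorem chain (κ κ' κ2 η : ℝ) (hκ : 0 < κ) (hκ' : 0 < κ') (hκ2 : 0 < κ2) (hη : 0 < η)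
    (M G : ℕ) : ∃ v : ℝ, 0 < v ∧ v ≤ 1 ∧ ∀ᶠ s : ℝ in atTop, ∀ (V : Type) [AddCommGroup V]
      [Module (ZMod 2) V] [Fintype V] [DecidableEq V] (p e : V → ℝ), World p e s κ κ' κ2 →
      ∀ σ, IsGate p e σ →
      pr (fun c : Fin M → V => pw p c) (fun y => ∃ g ≤ G, ∃ c, Reach σ y g c ∧
        ¬ (Eff p v (∑ i, y i) c ∧ Function.Injective c)) ≤ η := by
  induction G generalizing η with
  | zero =>
    obtain ⟨v, hv, hv1, h⟩ := c6_tight κ κ' (η / 2) hκ hκ' (by linarith) M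
    refine ⟨v, hv, hv1, ?_⟩
    filter_upwards [h, c6_small κ2 hκ2 M (half_pos hη)] with s hs hs2 V _ _ _ _ p e hW σ hσ
    have h1 := hs V p hW.toPWorld
    have h2 := (not_inj_pr hW.law (M := M) hW.small).trans hs2
    refine le_trans (pr_mono (B := fun c : Fin M → V => (pw p c < v * cp p M (∑ i, c i)) ∨
      ¬ Function.Injective c) (fun z => pw_nonneg hW.law z) fun y hy hb => ?_)
      ((pr_or_le (fun z => pw_nonneg hW.law z) _ _).trans (by linarith))
    obtain ⟨g, hg, c, hr, hn⟩ := hb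
    have hg0 : g = 0 := by omega
    subst hg0
    cases hr
    by_contra hcon
    rw [not_or, not_not, not_lt] at hcon
    exact hn ⟨⟨rfl, hcon.1, hy⟩, hcon.2⟩
  | succ G ih =>
    obtain ⟨v, hv, hv1, h⟩ := ih (η / 2) (by linarith)
    set δ : ℝ := v * η / (8 * ((M : ℝ) ^ 2 + 1)) with hδ
    have hM1 : 0 < (M : ℝ) ^ 2 + 1 := by positivity
    have hδ0 : 0 < δ := by positivity
    obtain ⟨v', hv', hv1', h'⟩ := c6_tight κ κ' δ hκ hκ' hδ0 2
    have hvv : 0 < v * v' := mul_pos hv hv'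
    have hvv1 : v * v' ≤ v := mul_le_of_le_one_right hv.le hv1'
    refine ⟨v * v', hvv, hvv1.trans hv1, ?_⟩
    filter_upwards [h, h', c6_small κ2 hκ2 M (mul_pos hvv (show 0 < η / 4 by linarith))] with
      s hs hs' hs2 V _ _ _ _ p e hW σ hσ
    have e1 := hs V p e hW σ hσ
    have e2 := light_pair hW hv' (hs' V p hW.toPWorld)
    have e3 := (eff_own hW.law hv (M := M) (fun c => ∃ a b, a ≠ b ∧ LightPair p e v' (c a) (c b)))
    have e4 := pair_pr hW.law (M := M) (LightPair p e v')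
    have e5 := eff_own hW.law hvv (M := M) (fun c => ¬ Function.Injective c)
    have e6 := (not_inj_pr hW.law (M := M) hW.small).trans hs2
    have e7 : (1 / v) * pr (fun c : Fin M → V => pw p c)
        (fun c => ∃ a b, a ≠ b ∧ LightPair p e v' (c a) (c b)) ≤ η / 4 := by
      have : (M : ℝ) ^ 2 * (2 * δ) ≤ v * (η / 4) := by
        have : (M : ℝ) ^ 2 * (2 * δ) = v * (η / 4) * ((M : ℝ) ^ 2 / ((M : ℝ) ^ 2 + 1)) := by
          rw [hδ]; field_simp; ring
        rw [this]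
        refine mul_le_of_le_one_right (by positivity) ?_
        rw [div_le_one hM1]; linarith
      rw [one_div, inv_mul_le_iff₀ hv]
      refine e4.trans (le_trans ?_ this)
      exact mul_le_mul_of_nonneg_left e2 (by positivity)
    have e8 : (1 / (v * v')) * pr (fun c : Fin M → V => pw p c)
        (fun c => ¬ Function.Injective c) ≤ η / 4 := by
      rw [one_div, inv_mul_le_iff₀ hvv]
      exact e6
    have key : pr (fun c : Fin M → V => pw p c) (fun y => ∃ g ≤ G + 1, ∃ c, Reach σ y g c ∧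
        ¬ (Eff p (v * v') (∑ i, y i) c ∧ Function.Injective c)) ≤
        pr (fun c : Fin M → V => pw p c) (fun y => (∃ g ≤ G, ∃ c : Fin M → V, Reach σ y g c ∧
        ¬ (Eff p v (∑ i, y i) c ∧ Function.Injective c)) ∨
        ((∃ c : Fin M → V, Eff p v (∑ i, y i) c ∧
          ∃ a b, a ≠ b ∧ LightPair p e v' (c a) (c b)) ∨
        ∃ c : Fin M → V, Eff p (v * v') (∑ i, y i) c ∧ ¬ Function.Injective c)) := by
      refine pr_mono (fun z => pw_nonneg hW.law z) fun y hy hb => ?_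
      by_contra hcon
      rw [not_or, not_or] at hcon
      obtain ⟨n1, n2, n3⟩ := hcon
      have n1' : ∀ g ≤ G, ∀ c, Reach σ y g c → Eff p v (∑ i, y i) c ∧ Function.Injective c := by
        intro g hg c hr
        by_contra hh
        exact n1 ⟨g, hg, c, hr, hh⟩
      obtain ⟨g, hg, c, hr, hn⟩ := hb
      rcases Nat.lt_or_ge G g with hgG | hgG
      · have hg1 : g = G + 1 := by omega
        subst hg1
        cases hr with
        | @step _ c0 a b hab hr0 =>
          obtain ⟨f1, f2⟩ := n1' G le_rfl c0 hr0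
          have f3 : ¬ LightPair p e v' (c0 a) (c0 b) := fun hl => n2 ⟨c0, f1, a, b, hab, hl⟩
          have f4 := gate_step hW.law hW.sgn hσ hv hv' f1 hab (fun hh => hab (f2 hh)) f3
          refine hn ⟨f4, ?_⟩
          by_contra hh
          exact n3 ⟨_, f4, hh⟩
      · obtain ⟨f1, f2⟩ := n1' g hgG c hr
        exact hn ⟨c6_eff_mono hW.law hvv1 f1, f2⟩
    · refine key.trans ((pr_or_le (fun z => pw_nonneg hW.law z) _ _).trans ?_)
      have e9 := pr_or_le (P := fun c : Fin M → V => pw p c) (fun z => pw_nonneg hW.law z)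
        (fun y => ∃ c : Fin M → V, Eff p v (∑ i, y i) c ∧
          ∃ a b, a ≠ b ∧ LightPair p e v' (c a) (c b))
        (fun y => ∃ c : Fin M → V, Eff p (v * v') (∑ i, y i) c ∧ ¬ Function.Injective c)
      linarith

end Pool.Agent.XO
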