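import Mathlib
import Pool.Agent.Lib_helper94.XO.Defs
import Pool.Agent.Lib_helper94.XO.Defs2
import Pool.Agent.Lib_helper94.XO.Pr
import Pool.Agent.Lib_helper94.XO.F.P2_A1
set_option autoImplicit false

namespace Pool.Agent.XO

open Finset

variable {V : Type} [AddCommGroup V] [Fintype V] [DecidableEq V]

theorem mu_nonneg {p : V → ℝ} (hp : IsLaw p) (k : ℕ) (Z c : V) : 0 ≤ mu p k Z c :=
  div_nonneg (mul_nonneg (hp.nonneg _) ((cp_law hp _).nonneg _)) ((cp_law hp _).nonneg _)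

theorem mu_sum {p : V → ℝ} (hp : IsLaw p) {k : ℕ} (hk : 1 ≤ k) (Z : V) (hZ : cp p k Z ≠ 0) :
    ∑ c, mu p k Z c = 1 := by
  unfold mu
  rw [← Finset.sum_div]
  obtain ⟨k, rfl⟩ : ∃ j, k = j + 1 := ⟨k - 1, by omega⟩
  rw [Nat.add_sub_cancel, ← cp_succ, div_self hZ]

theorem mu_sum_le {p : V → ℝ} (hp : IsLaw p) {k : ℕ} (hk : 1 ≤ k) (Z : V) :
    ∑ c, mu p k Z c ≤ 1 := by
  by_cases hZ : cp p k Z = 0
  · unfold mu
    simp [hZ]
  · exact (mu_sum hp hk Z hZ).le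

theorem mu_le_one {p : V → ℝ} (hp : IsLaw p) {k : ℕ} (hk : 1 ≤ k) (Z c : V) :
    mu p k Z c ≤ 1 :=
  (Finset.single_le_sum (f := fun c => mu p k Z c) (fun c _ => mu_nonneg hp k Z c)
    (Finset.mem_univ c)).trans (mu_sum_le hp hk Z)

theorem mum_nonneg {p : V → ℝ} (hp : IsLaw p) (k : ℕ) {m : ℕ} (Z : V) (c : Fin m → V) :
    0 ≤ mum p k Z c :=
  div_nonneg (mul_nonneg (pw_nonneg hp _) ((cp_law hp _).nonneg _)) ((cp_law hp _).nonneg _)

theorem mum_one (p : V → ℝ) (k : ℕ) (Z : V) (c : Fin 1 → V) :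
    mum p k Z c = mu p k Z (c 0) := by
  simp [mum, mu, pw]

end Pool.Agent.XO
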