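import Mathlib
import Pool.Agent.Lib_helper94.XO.Defs
import Pool.Agent.Lib_helper94.XO.Defs2
import Pool.Agent.Lib_helper94.XO.Pr
import Pool.Agent.Lib_helper94.XO.F.P2_A1
import Pool.Agent.Lib_helper94.XO.F.P2_A2a
set_option autoImplicit false

namespace Pool.Agent.XO

open Finset

variable {V : Type} [AddCommGroup V] [Fintype V] [DecidableEq V]

/-- chain rule -/
theorem mum_succ {p : V → ℝ} (hp : IsLaw p) {k m : ℕ} (hmk : m + 1 ≤ k) (Z : V)
    (c : Fin (m + 1) → V) :
    mum p k Z c = mu p k Z (c 0) * mum p (k - 1) (Z - c 0) (Fin.tail c) := by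
  have hpw : pw p c = p (c 0) * pw p (Fin.tail c) := by
    unfold pw
    rw [Fin.prod_univ_succ]
    rfl
  have hsum : Z - ∑ i, c i = Z - c 0 - ∑ i, Fin.tail c i := by
    rw [Fin.sum_univ_succ, sub_sub]
    rfl
  have hk : k - (m + 1) = k - 1 - m := by omega
  unfold mum mu
  rw [hpw, hsum, hk]
  by_cases h0 : cp p (k - 1) (Z - c 0) = 0
  · have hz : pw p (Fin.tail c) * cp p (k - 1 - m) (Z - c 0 - ∑ i, Fin.tail c i) = 0 := by
      have h1 : m + (k - 1 - m) = k - 1 := by omega
      have h2 := cp_add p m (k - 1 - m) (Z - c 0)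
      rw [h1, h0] at h2
      have h3 : cp p m (∑ i, Fin.tail c i) * cp p (k - 1 - m) (Z - c 0 - ∑ i, Fin.tail c i)
          ≤ ∑ y, cp p m y * cp p (k - 1 - m) (Z - c 0 - y) :=
        Finset.single_le_sum
          (f := fun y => cp p m y * cp p (k - 1 - m) (Z - c 0 - y))
          (fun y _ => mul_nonneg ((cp_law hp m).nonneg y) ((cp_law hp (k - 1 - m)).nonneg _))
          (Finset.mem_univ _)
      have h4 := pw_le_cp hp (Fin.tail c)
      have h5 := pw_nonneg hp (Fin.tail c)
      have h6 := (cp_law hp (k - 1 - m)).nonneg (Z - c 0 - ∑ i, Fin.tail c i)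
      have h7 := mul_le_mul_of_nonneg_right h4 h6
      have h8 := mul_nonneg h5 h6
      linarith
    rw [h0, mul_zero, zero_div, zero_mul, mul_assoc, hz, mul_zero, zero_div]
  · by_cases h1 : cp p k Z = 0
    · rw [h1]
      simp
    · field_simp

theorem mum_two {p : V → ℝ} (hp : IsLaw p) {k : ℕ} (hk : 2 ≤ k) (Z : V) (c : Fin 2 → V) :
    mum p k Z c = mu p k Z (c 0) * mu p (k - 1) (Z - c 0) (c 1) := by
  rw [mum_succ hp (m := 1) hk Z c, mum_one]
  rfl

end Pool.Agent.XO
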