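import Mathlib
import Pool.Agent.Lib_helper94.XO.Defs
import Pool.Agent.Lib_helper94.XO.Defs2
import Pool.Agent.Lib_helper94.XO.Pr
import Pool.Agent.Lib_helper94.XO.F.P2_A1
set_option autoImplicit false

namespace Pool.Agent.XO

open Finset

variable {V : Type} [AddCommGroup V] [Fintype V] [DecidableEq V]

theorem a2c_cp_sum (p : V → ℝ) (l : ℕ) (f : V → ℝ) :
    ∑ y, cp p l y * f y = ∑ c : Fin l → V, pw p c * f (∑ i, c i) := by
  unfold cp
  simp only [Finset.sum_mul]
  rw [Finset.sum_comm]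
  apply Finset.sum_congr rfl
  intro c _
  simp only [ite_mul, zero_mul]
  rw [Finset.sum_ite_eq]
  simp

/-- an injection is the first half of an equivalence -/
theorem a2c_equiv {m m' : ℕ} (ι : Fin m → Fin m') (hι : Function.Injective ι) :
    ∃ e : Fin m ⊕ Fin (m' - m) ≃ Fin m', ∀ i, e (Sum.inl i) = ι i := by
  classical
  have hcard : Fintype.card ((Set.range ι)ᶜ : Set (Fin m')) = m' - m := by
    rw [Fintype.card_compl_set, Set.card_range_of_injective hι, Fintype.card_fin,
      Fintype.card_fin]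
  refine ⟨(Equiv.sumCongr (Equiv.ofInjective ι hι)
    (Fintype.equivFinOfCardEq hcard).symm).trans (Equiv.Set.sumCompl (Set.range ι)), ?_⟩
  intro i
  simp

theorem a2c_sum {p : V → ℝ} {m m' : ℕ} (ι : Fin m → Fin m') (hι : Function.Injective ι)
    (F : V → ℝ) (c : Fin m → V) :
    (∑ c' : Fin m' → V, if (fun i => c' (ι i)) = c then pw p c' * F (∑ j, c' j) else 0) =
      pw p c * ∑ y, cp p (m' - m) y * F (∑ i, c i + y) := by
  obtain ⟨e, he⟩ := a2c_equiv ι hι
  obtain ⟨E, hE⟩ : ∃ E : ((Fin m → V) × (Fin (m' - m) → V)) ≃ (Fin m' → V),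
      ∀ x j, E x j = Sum.elim x.1 x.2 (e.symm j) :=
    ⟨(Equiv.sumArrowEquivProdArrow (Fin m) (Fin (m' - m)) V).symm.trans
      (Equiv.arrowCongr e (Equiv.refl V)), fun x j => rfl⟩
  rw [← Equiv.sum_comp E, Fintype.sum_prod_type]
  have h1 : ∀ x, (fun i => E x (ι i)) = x.1 := by
    intro x
    funext i
    rw [hE, ← he i, Equiv.symm_apply_apply, Sum.elim_inl]
  have h2 : ∀ x, pw p (E x) = pw p x.1 * pw p x.2 := by
    intro x
    unfold pw
    simp only [hE]
    rw [Equiv.prod_comp e.symm (fun s => p (Sum.elim x.1 x.2 s)), Fintype.prod_sum_type]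
    simp
  have h3 : ∀ x, ∑ j, E x j = ∑ i, x.1 i + ∑ i, x.2 i := by
    intro x
    simp only [hE]
    rw [Equiv.sum_comp e.symm (fun s => Sum.elim x.1 x.2 s), Fintype.sum_sum_type]
    simp
  simp only [h1, h2, h3]
  rw [a2c_cp_sum p (m' - m) (fun y => F (∑ i, c i + y))]
  have h4 : ∀ c1 : Fin m → V, (∑ c2 : Fin (m' - m) → V,
      if c1 = c then pw p c1 * pw p c2 * F (∑ i, c1 i + ∑ i, c2 i) else 0) =
      if c1 = c then pw p c1 * ∑ c2 : Fin (m' - m) → V, pw p c2 * F (∑ i, c1 i + ∑ i, c2 i)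
        else 0 := by
    intro c1
    by_cases h5 : c1 = c
    · simp only [h5, if_true]
      rw [Finset.mul_sum]
      apply Finset.sum_congr rfl
      intro c2 _
      ring
    · simp [h5]
  simp only [h4]
  rw [Finset.sum_ite_eq']
  simp

/-- marginals of `mum`, along any injection -/
theorem mum_marg {p : V → ℝ} (hp : IsLaw p) {k m m' : ℕ} (hm : m' ≤ k) (ι : Fin m → Fin m')
    (hι : Function.Injective ι) (Z : V) (c : Fin m → V) :
    (∑ c' : Fin m' → V, if (fun i => c' (ι i)) = c then mum p k Z c' else 0) = mum p k Z c := by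
  have _ := hp
  have hmm : m ≤ m' := by
    have := Fintype.card_le_of_injective ι hι
    simpa using this
  have h1 := a2c_sum (p := p) ι hι (fun s => cp p (k - m') (Z - s) / cp p k Z) c
  have h2 : ∀ c' : Fin m' → V, (if (fun i => c' (ι i)) = c then mum p k Z c' else 0) =
      if (fun i => c' (ι i)) = c then
        pw p c' * (fun s => cp p (k - m') (Z - s) / cp p k Z) (∑ j, c' j) else 0 := by
    intro c'
    unfold mum
    split_ifs
    · ring
    · rfl
  simp only [h2]
  rw [h1]
  unfold mum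
  have h3 : k - m = (m' - m) + (k - m') := by omega
  rw [h3, cp_add, Finset.mul_sum, Finset.mul_sum, Finset.sum_div]
  apply Finset.sum_congr rfl
  intro y _
  rw [sub_sub]
  ring

end Pool.Agent.XO
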