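import Mathlib
import Pool.Agent.Lib_helper94.XO.Defs
import Pool.Agent.Lib_helper94.XO.Defs2
import Pool.Agent.Lib_helper94.XO.Pr
import Pool.Agent.Lib_helper94.XO.F.P2_A1
set_option autoImplicit false

namespace Pool.Agent.XO

open Finset

variable {V : Type} [AddCommGroup V] [Fintype V] [DecidableEq V]

theorem a2d_term {p : V → ℝ} (hp : IsLaw p) (k : ℕ) (Z c : V) :
    p c * cp p k (Z - c) ≤ cp p (k + 1) Z := by
  rw [cp_succ]
  exact Finset.single_le_sum (f := fun x => p x * cp p k (Z - x))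
    (fun x _ => mul_nonneg (hp.nonneg x) ((cp_law hp k).nonneg _)) (Finset.mem_univ c)

/-- the product `cp * mu` -/
theorem a2d_mul {p : V → ℝ} (hp : IsLaw p) {k : ℕ} (hk : 1 ≤ k) (Z c : V) :
    cp p k Z * mu p k Z c = p c * cp p (k - 1) (Z - c) := by
  unfold mu
  by_cases h : cp p k Z = 0
  · have h1 := a2d_term hp (k - 1) Z c
    have h2 : k - 1 + 1 = k := by omega
    rw [h2, h] at h1
    have h3 : 0 ≤ p c * cp p (k - 1) (Z - c) :=
      mul_nonneg (hp.nonneg c) ((cp_law hp (k - 1)).nonneg _)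
    rw [h, zero_mul]
    linarith
  · field_simp

/-- the martingale property -/
theorem mu_mart {p : V → ℝ} (hp : IsLaw p) {n : ℕ} (hn : 2 ≤ n) (Z c : V) :
    cp p n Z * mu p n Z c = ∑ x, p x * cp p (n - 1) (Z - x) * mu p (n - 1) (Z - x) c := by
  rw [a2d_mul hp (by omega)]
  have h1 : ∀ x, p x * cp p (n - 1) (Z - x) * mu p (n - 1) (Z - x) c =
      p c * (p x * cp p (n - 1 - 1) (Z - c - x)) := by
    intro x
    rw [mul_assoc, a2d_mul hp (by omega : 1 ≤ n - 1), sub_right_comm Z x c]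
    ring
  simp only [h1]
  rw [← Finset.mul_sum, ← cp_succ]
  have h2 : n - 1 - 1 + 1 = n - 1 := by omega
  rw [h2]

end Pool.Agent.XO
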