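import Mathlib
import Pool.Agent.Lib_helper94.XO.Defs
import Pool.Agent.Lib_helper94.XO.Defs2
import Pool.Agent.Lib_helper94.XO.Pr
import Pool.Agent.Lib_helper94.XO.F.P2_A1
import Pool.Agent.Lib_helper94.XO.F.P2_A2a
set_option autoImplicit false

namespace Pool.Agent.XO

open Finset

variable {V : Type} [AddCommGroup V] [Fintype V] [DecidableEq V]

theorem a3a_sum (p : V → ℝ) {n m : ℕ} (hm : m ≤ n) (Z : V) (hZ : cp p n Z ≠ 0) :
    ∑ c : Fin m → V, mum p n Z c = 1 := by
  unfold mum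
  rw [← Finset.sum_div, div_eq_one_iff_eq hZ]
  have h1 : cp p n Z = ∑ y, cp p m y * cp p (n - m) (Z - y) := by
    rw [← cp_add, Nat.add_sub_cancel' hm]
  rw [h1]
  have h2 : ∀ y : V, cp p m y * cp p (n - m) (Z - y) =
      ∑ c : Fin m → V, if ∑ i, c i = y then pw p c * cp p (n - m) (Z - y) else 0 := by
    intro y
    unfold cp
    rw [Finset.sum_mul]
    refine Finset.sum_congr rfl fun c _ => ?_
    rw [ite_mul, zero_mul]
  rw [Finset.sum_congr rfl fun y _ => h2 y, Finset.sum_comm]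
  refine Finset.sum_congr rfl fun c _ => ?_
  rw [Finset.sum_ite_eq, if_pos (Finset.mem_univ _)]

theorem lb_fst {p : V → ℝ} (hp : IsLaw p) {n m : ℕ} (hm : m ≤ n) (f : (Fin n → V) → ℝ) :
    ∑ x, LB p n m x * f x.1 = ∑ z : Fin n → V, pw p z * f z := by
  unfold LB
  rw [Fintype.sum_prod_type]
  refine Finset.sum_congr rfl fun z _ => ?_
  by_cases hz : cp p n (∑ i, z i) = 0
  · have h0 : pw p z = 0 := by
      have h1 := pw_le_cp hp z
      rw [hz] at h1
      exact le_antisymm h1 (pw_nonneg hp z)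
    simp only [h0, zero_mul, Finset.sum_const_zero]
  · have h1 : ∀ y : Fin m → V, pw p z * mum p n (∑ i, z i) y * f z =
        (pw p z * f z) * mum p n (∑ i, z i) y := fun y => by ring
    show ∑ y : Fin m → V, pw p z * mum p n (∑ i, z i) y * f z = _
    rw [Finset.sum_congr rfl fun y _ => h1 y, ← Finset.mul_sum, a3a_sum p hm _ hz, mul_one]

theorem lb_law {p : V → ℝ} (hp : IsLaw p) {n m : ℕ} (hm : m ≤ n) : IsLaw (LB p n m) := by
  refine ⟨fun x => mul_nonneg (pw_nonneg hp _) (mum_nonneg hp _ _ _), ?_⟩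
  have h1 := lb_fst hp hm (fun _ => (1 : ℝ))
  simp only [mul_one] at h1
  rw [h1]
  exact (pw_law hp n).sum_one

theorem lb_fst_pr {p : V → ℝ} (hp : IsLaw p) {n m : ℕ} (hm : m ≤ n)
    (A : (Fin n → V) → Prop) :
    pr (LB p n m) (fun x => A x.1) = pr (fun z : Fin n → V => pw p z) A := by
  classical
  have h1 := lb_fst hp hm (fun z => if A z then (1 : ℝ) else 0)
  simp only [mul_ite, mul_one, mul_zero] at h1
  unfold pr
  convert h1

theorem lb_one {p : V → ℝ} {n : ℕ} (f : (Fin n → V) → V → ℝ) :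
    ∑ x, LB p n 1 x * f x.1 (x.2 0) =
      ∑ z : Fin n → V, pw p z * ∑ c, mu p n (∑ i, z i) c * f z c := by
  unfold LB
  rw [Fintype.sum_prod_type]
  refine Finset.sum_congr rfl fun z _ => ?_
  rw [Finset.mul_sum]
  refine Fintype.sum_equiv (Equiv.funUnique (Fin 1) V) _ _ fun y => ?_
  show pw p z * mum p n (∑ i, z i) y * f z (y 0) = pw p z * (mu p n (∑ i, z i) (y 0) * f z (y 0))
  rw [mum_one, mul_assoc]

end Pool.Agent.XO
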