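import Mathlib
import Pool.Agent.Lib_helper94.XO.Defs
import Pool.Agent.Lib_helper94.XO.Defs2
import Pool.Agent.Lib_helper94.XO.Pr
import Pool.Agent.Lib_helper94.XO.F.P2_A2c
set_option autoImplicit false

namespace Pool.Agent.XO

open Finset

variable {V : Type} [AddCommGroup V] [Fintype V] [DecidableEq V]

theorem lb_marg {p : V → ℝ} (hp : IsLaw p) {n m m' : ℕ} (hm : m' ≤ n) (ι : Fin m → Fin m')
    (hι : Function.Injective ι) (A : (Fin n → V) → (Fin m → V) → Prop) :
    pr (LB p n m') (fun x => A x.1 (fun i => x.2 (ι i))) = pr (LB p n m) (fun x => A x.1 x.2) := by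
  classical
  unfold pr LB
  rw [Fintype.sum_prod_type, Fintype.sum_prod_type]
  refine Finset.sum_congr rfl fun z _ => ?_
  have h1 : ∀ c : Fin m → V, (if A z c then pw p z * mum p n (∑ i, z i) c else 0) =
      ∑ c' : Fin m' → V, if (fun i => c' (ι i)) = c then
        (if A z (fun i => c' (ι i)) then pw p z * mum p n (∑ i, z i) c' else 0) else 0 := by
    intro c
    by_cases hA : A z c
    · rw [if_pos hA, ← mum_marg hp hm ι hι (∑ i, z i) c, Finset.mul_sum]
      refine Finset.sum_congr rfl fun c' _ => ?_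
      by_cases hc : (fun i => c' (ι i)) = c
      · rw [if_pos hc, if_pos hc, if_pos (by rw [hc]; exact hA)]
      · rw [if_neg hc, if_neg hc, mul_zero]
    · rw [if_neg hA]
      symm
      refine Finset.sum_eq_zero fun c' _ => ?_
      by_cases hc : (fun i => c' (ι i)) = c
      · rw [if_pos hc, if_neg (by rw [hc]; exact hA)]
      · rw [if_neg hc]
  simp only [h1]
  rw [Finset.sum_comm]
  refine Finset.sum_congr rfl fun c' _ => ?_
  rw [Finset.sum_ite_eq, if_pos (Finset.mem_univ _)]

end Pool.Agent.XO
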