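import Mathlib
import Pool.Agent.Lib_helper94.XO.Defs
import Pool.Agent.Lib_helper94.XO.Defs2
import Pool.Agent.Lib_helper94.XO.Pr
import Pool.Agent.Lib_helper94.XO.F.P2_A1
import Pool.Agent.Lib_helper94.XO.F.P2_A3b
set_option autoImplicit false

namespace Pool.Agent.XO

open Finset

variable {V : Type} [AddCommGroup V] [Fintype V] [DecidableEq V]

/-- the case `m = n`: the law is symmetric -/
theorem a3c_full {p : V → ℝ} (hp : IsLaw p) {n : ℕ} (B : V → (Fin n → V) → Prop) :
    pr (LB p n n) (fun x => B (∑ i, x.1 i) x.2) =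
      pr (fun z : Fin n → V => pw p z) (fun z => B (∑ i, z i) z) := by
  classical
  unfold pr
  rw [Fintype.sum_prod_type_right]
  refine Finset.sum_congr rfl fun y _ => ?_
  have h1 : ∀ z : Fin n → V, (if B (∑ i, z i) y then LB p n n (z, y) else 0) =
      (if B (∑ i, y i) y then pw p y / cp p n (∑ i, y i) else 0) *
        (if ∑ i, z i = ∑ i, y i then pw p z else 0) := by
    intro z
    unfold LB mum
    simp only [Nat.sub_self, cp_zero]
    by_cases h : ∑ i, z i = ∑ i, y i
    · rw [h]
      by_cases hB : B (∑ i, y i) y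
      · simp [hB]; ring
      · simp [hB]
    · have h' : ∑ i, z i - ∑ i, y i ≠ 0 := fun h0 => h (sub_eq_zero.1 h0)
      simp [h, h']
  simp only [h1]
  rw [← Finset.mul_sum]
  have h2 : ∑ z : Fin n → V, (if ∑ i, z i = ∑ i, y i then pw p z else 0) =
      cp p n (∑ i, y i) := rfl
  rw [h2]
  by_cases hB : B (∑ i, y i) y
  · simp only [hB, if_true]
    by_cases h0 : cp p n (∑ i, y i) = 0
    · have h3 := pw_le_cp hp y
      have h4 := pw_nonneg hp y
      rw [h0] at h3
      rw [h0, mul_zero]
      linarith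
    · field_simp
  · simp [hB]

/-- `(Z, y)` has the law of `(Z, z)` -/
theorem lb_swap {p : V → ℝ} (hp : IsLaw p) {n m : ℕ} (hm : m ≤ n) (A : V → (Fin m → V) → Prop) :
    pr (LB p n m) (fun x => A (∑ i, x.1 i) x.2) =
      pr (fun z : Fin n → V => pw p z) (fun z => A (∑ i, z i) (fun i => z (Fin.castLE hm i))) := by
  have h1 := lb_marg hp (le_refl n) (Fin.castLE hm) (Fin.castLE_injective hm)
    (fun z y => A (∑ i, z i) y)
  rw [← h1]
  exact a3c_full hp (fun Z y => A Z (fun i => y (Fin.castLE hm i)))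

theorem a3c_marg {p : V → ℝ} (hp : IsLaw p) (m k : ℕ) (A : (Fin m → V) → Prop) :
    pr (fun z : Fin (m + k) → V => pw p z) (fun z => A (fun i => z (Fin.castAdd k i))) =
      pr (fun c : Fin m → V => pw p c) A := by
  classical
  unfold pr
  have h1 : ∑ z : Fin (m + k) → V, (if A (fun i => z (Fin.castAdd k i)) then pw p z else 0) =
      ∑ x : (Fin m → V) × (Fin k → V), (if A x.1 then pw p x.1 * pw p x.2 else 0) := by
    refine (Fintype.sum_equiv (Fin.appendEquiv m k) _ _ fun x => ?_).symm
    have h2 : (fun i => (Fin.appendEquiv m k x) (Fin.castAdd k i)) = x.1 := by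
      funext i
      exact Fin.append_left x.1 x.2 i
    have h3 : pw p (Fin.appendEquiv m k x) = pw p x.1 * pw p x.2 := by
      unfold pw
      rw [Fin.prod_univ_add]
      congr 1
      · refine Finset.prod_congr rfl fun i _ => ?_
        rw [show (Fin.appendEquiv m k x) (Fin.castAdd k i) = x.1 i from
          Fin.append_left x.1 x.2 i]
      · refine Finset.prod_congr rfl fun i _ => ?_
        rw [show (Fin.appendEquiv m k x) (Fin.natAdd m i) = x.2 i from
          Fin.append_right x.1 x.2 i]
    rw [h2, h3]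
  rw [h1, Fintype.sum_prod_type]
  refine Finset.sum_congr rfl fun c _ => ?_
  by_cases hA : A c
  · simp only [hA, if_true]
    rw [← Finset.mul_sum, (pw_law hp k).sum_one, mul_one]
  · simp [hA]

/-- the tuple `y` of length `m` alone is an independent sample of `p` -/
theorem lb_snd {p : V → ℝ} (hp : IsLaw p) {n m : ℕ} (hm : m ≤ n) (A : (Fin m → V) → Prop) :
    pr (LB p n m) (fun x => A x.2) = pr (fun c : Fin m → V => pw p c) A := by
  rw [lb_swap hp hm (fun _ y => A y)]
  obtain ⟨k, rfl⟩ := Nat.exists_eq_add_of_le hm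
  exact a3c_marg hp m k A

end Pool.Agent.XO
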