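import Mathlib
import Pool.Agent.Lib_helper94.XO.Defs
import Pool.Agent.Lib_helper94.XO.Defs2
import Pool.Agent.Lib_helper94.XO.Pr
import Pool.Agent.Lib_helper94.XO.F.P2_A2b
set_option autoImplicit false

namespace Pool.Agent.XO

open Finset

variable {V : Type} [AddCommGroup V] [Fintype V] [DecidableEq V]

theorem a3d_sum {W : Type} [Fintype W] (g : W → W → ℝ) :
    ∑ y : Fin 2 → W, g (y 0) (y 1) = ∑ d, ∑ c, g d c := by
  rw [← Fintype.sum_prod_type' g, ← (finTwoArrowEquiv W).sum_comp]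
  rfl

/-- two elements -/
theorem lb_two {p : V → ℝ} (hp : IsLaw p) {n : ℕ} (hn : 2 ≤ n) (f : (Fin n → V) → V → V → ℝ) :
    ∑ x, LB p n 2 x * f x.1 (x.2 0) (x.2 1) =
      ∑ z : Fin n → V, pw p z * ∑ d, ∑ c,
        mu p n (∑ i, z i) d * mu p (n - 1) (∑ i, z i - d) c * f z d c := by
  rw [Fintype.sum_prod_type]
  apply Finset.sum_congr rfl
  intro z _
  rw [← a3d_sum (fun d c => mu p n (∑ i, z i) d * mu p (n - 1) (∑ i, z i - d) c * f z d c),
    Finset.mul_sum]
  apply Finset.sum_congr rfl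
  intro y _
  unfold LB
  simp only
  rw [mum_two hp hn]
  ring

end Pool.Agent.XO
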