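import Mathlib
import Pool.Agent.Lib_helper94.XO.Defs
import Pool.Agent.Lib_helper94.XO.Defs2
import Pool.Agent.Lib_helper94.XO.Pr
set_option autoImplicit false

/-! PART II, block P2.A3e. -/

namespace Pool.Agent.XO

open Finset

variable {V : Type} [AddCommGroup V] [Fintype V] [DecidableEq V]

/-- summation over the fibres of the sum -/
theorem a3e_fib (p : V → ℝ) (k : ℕ) (h : V → ℝ) :
    ∑ ζ, cp p k ζ * h ζ = ∑ c : Fin k → V, pw p c * h (∑ i, c i) := by
  unfold cp
  simp_rw [Finset.sum_mul]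
  rw [Finset.sum_comm]
  refine Finset.sum_congr rfl fun c _ => ?_
  simp [ite_mul]

/-- `z_j` and `ζ_j = Z - z_j` are independent -/
theorem zeta_indep {p : V → ℝ} {n : ℕ} (j : Fin n) (f : V → V → ℝ) :
    ∑ z : Fin n → V, pw p z * f (∑ i, z i - z j) (z j) =
      ∑ ζ, ∑ x, cp p (n - 1) ζ * p x * f ζ x := by
  obtain ⟨k, rfl⟩ : ∃ k, n = k + 1 := ⟨n - 1, by have := j.2; omega⟩
  rw [← Equiv.sum_comp (Fin.insertNthEquiv (fun _ => V) j), Fintype.sum_prod_type]
  have h1 : ∀ (x : V) (c : Fin k → V),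
      pw p ((Fin.insertNthEquiv (fun _ => V) j) (x, c)) *
        f (∑ i, ((Fin.insertNthEquiv (fun _ => V) j) (x, c)) i -
          ((Fin.insertNthEquiv (fun _ => V) j) (x, c)) j)
          (((Fin.insertNthEquiv (fun _ => V) j) (x, c)) j) =
      pw p c * (p x * f (∑ i, c i) x) := by
    intro x c
    unfold pw
    rw [Fin.prod_univ_succAbove _ j, Fin.sum_univ_succAbove _ j]
    simp only [Fin.insertNthEquiv_apply, Fin.insertNth_apply_same,
      Fin.insertNth_apply_succAbove, add_sub_cancel_left]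
    ring
  simp_rw [h1]
  rw [Finset.sum_comm (f := fun ζ x => cp p (k + 1 - 1) ζ * p x * f ζ x)]
  refine Finset.sum_congr rfl fun x _ => ?_
  rw [← a3e_fib p k (fun ζ => p x * f ζ x)]
  refine Finset.sum_congr rfl fun ζ _ => ?_
  simp only [Nat.add_sub_cancel]
  ring

end Pool.Agent.XO
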