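import Mathlib
import Pool.Agent.Lib_helper94.XO.Defs
import Pool.Agent.Lib_helper94.XO.Defs2
import Pool.Agent.Lib_helper94.XO.Pr
import Pool.Agent.Lib_helper94.XO.F.P2_A1
set_option autoImplicit false

/-! PART II, block P2.A4b: effective tuples. -/

namespace Pool.Agent.XO

open Finset

variable {V : Type} [AddCommGroup V] [Fintype V] [DecidableEq V]

theorem a4b_cp_eq (p : V → ℝ) (M : ℕ) (Y : V) :
    cp p M Y = ∑ c ∈ (univ : Finset (Fin M → V)).filter (fun c => ∑ i, c i = Y), pw p c := by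
  unfold cp
  rw [Finset.sum_filter]

open Classical in
theorem a4b_fiber {p : V → ℝ} (hp : IsLaw p) {M : ℕ} {v : ℝ} (hv : 0 < v)
    (Bad : (Fin M → V) → Prop) (K : V → ℝ) (hK : ∀ Y, 0 ≤ K Y) :
    ∑ y : Fin M → V, (if ∃ c, Eff p v (∑ i, y i) c ∧ Bad c then pw p y * K (∑ i, y i) else 0) ≤
      (1 / v) * ∑ c : Fin M → V, (if Bad c then pw p c * K (∑ i, c i) else 0) := by
  rw [← Finset.sum_fiberwise (s := (univ : Finset (Fin M → V))) (g := fun y => ∑ i, y i)
      (f := fun y => if ∃ c, Eff p v (∑ i, y i) c ∧ Bad c then pw p y * K (∑ i, y i) else 0),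
    ← Finset.sum_fiberwise (s := (univ : Finset (Fin M → V))) (g := fun y => ∑ i, y i)
      (f := fun c => if Bad c then pw p c * K (∑ i, c i) else 0), Finset.mul_sum]
  refine Finset.sum_le_sum fun Y _ => ?_
  have hr0 : ∀ c ∈ (univ : Finset (Fin M → V)).filter (fun c => ∑ i, c i = Y),
      0 ≤ (if Bad c then pw p c * K (∑ i, c i) else 0) := by
    intro c _
    split_ifs
    · exact mul_nonneg (pw_nonneg hp c) (hK _)
    · exact le_rfl
  by_cases hY : ∃ c, Eff p v Y c ∧ Bad c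
  · obtain ⟨c, hc, hb⟩ := hY
    have h1 : ∑ y ∈ (univ : Finset (Fin M → V)).filter (fun y => ∑ i, y i = Y),
        (if ∃ c, Eff p v (∑ i, y i) c ∧ Bad c then pw p y * K (∑ i, y i) else 0) =
        cp p M Y * K Y := by
      rw [a4b_cp_eq, Finset.sum_mul]
      refine Finset.sum_congr rfl fun y hy => ?_
      rw [Finset.mem_filter] at hy
      rw [hy.2, if_pos ⟨c, hc, hb⟩]
    rw [h1]
    have h2 : pw p c * K Y ≤ ∑ c ∈ (univ : Finset (Fin M → V)).filter (fun y => ∑ i, y i = Y),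
        (if Bad c then pw p c * K (∑ i, c i) else 0) := by
      have h3 := Finset.single_le_sum hr0 (a := c)
        (Finset.mem_filter.2 ⟨Finset.mem_univ _, hc.1⟩)
      rw [if_pos hb, hc.1] at h3
      exact h3
    have h4 : cp p M Y ≤ (1 / v) * pw p c := by
      rw [one_div, inv_mul_eq_div, le_div_iff₀ hv, mul_comm]
      exact hc.2.1
    calc cp p M Y * K Y ≤ ((1 / v) * pw p c) * K Y := mul_le_mul_of_nonneg_right h4 (hK _)
      _ = (1 / v) * (pw p c * K Y) := by ring
      _ ≤ _ := mul_le_mul_of_nonneg_left h2 (by positivity)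
  · have h1 : ∑ y ∈ (univ : Finset (Fin M → V)).filter (fun y => ∑ i, y i = Y),
        (if ∃ c, Eff p v (∑ i, y i) c ∧ Bad c then pw p y * K (∑ i, y i) else 0) = 0 := by
      refine Finset.sum_eq_zero fun y hy => ?_
      rw [Finset.mem_filter] at hy
      rw [hy.2, if_neg hY]
    rw [h1]
    exact mul_nonneg (by positivity) (Finset.sum_nonneg hr0)

/-- II.5 -/
theorem eff_markov {p : V → ℝ} (hp : IsLaw p) {n M : ℕ} (hM : M ≤ n) {v : ℝ} (hv : 0 < v)
    (Bad : (Fin n → V) → (Fin M → V) → Prop) :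
    pr (LB p n M) (fun x => ∃ c, Eff p v (∑ i, x.2 i) c ∧ Bad x.1 c) ≤
      (1 / v) * pr (LB p n M) (fun x => Bad x.1 x.2) := by
  classical
  unfold pr
  rw [Fintype.sum_prod_type, Fintype.sum_prod_type, Finset.mul_sum]
  refine Finset.sum_le_sum fun z _ => ?_
  have h := a4b_fiber hp hv (Bad z)
    (fun Y => pw p z * (cp p (n - M) (∑ i, z i - Y) / cp p n (∑ i, z i)))
    (fun Y => mul_nonneg (pw_nonneg hp z) (div_nonneg ((cp_law hp _).nonneg _)
      ((cp_law hp _).nonneg _)))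
  have e : ∀ y : Fin M → V, LB p n M (z, y) =
      pw p y * (pw p z * (cp p (n - M) (∑ i, z i - ∑ i, y i) / cp p n (∑ i, z i))) := by
    intro y
    unfold LB mum
    simp only
    ring
  simp only [e]
  convert h using 1

end Pool.Agent.XO
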