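import Mathlib
import Pool.Agent.Lib_helper94.XO.Defs
import Pool.Agent.Lib_helper94.XO.Defs2
import Pool.Agent.Lib_helper94.XO.Pr
set_option autoImplicit false

namespace Pool.Agent.XO

open Finset

variable {V : Type} [AddCommGroup V] [Fintype V] [DecidableEq V]

theorem psi_concave (T : ℝ) : ConcaveOn ℝ (Set.Ici 0) (psi T) := by
  have h1 : ConcaveOn ℝ (Set.Ici (0 : ℝ)) Real.negMulLog := Real.concaveOn_negMulLog
  have h2 : ConcaveOn ℝ (Set.Ici (0 : ℝ)) (fun x : ℝ => T * x) := by
    refine ⟨convex_Ici 0, fun x _ y _ a b _ _ _ => ?_⟩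
    simp only [smul_eq_mul]
    apply le_of_eq
    ring
  exact h1.inf h2

theorem psi_tangent {T a x : ℝ} (ha : Real.exp (-T) ≤ a) (hx : 0 ≤ x) :
    psi T x ≤ psi T a + (-Real.log a - 1) * (x - a) - (√x - √a) ^ 2 := by
  have ha0 : 0 < a := lt_of_lt_of_le (Real.exp_pos _) ha
  have hla : -T ≤ Real.log a := (Real.le_log_iff_exp_le ha0).mpr ha
  have h1 : psi T a = -(a * Real.log a) := by
    unfold psi
    rw [Real.negMulLog, min_eq_left]
    · ring
    · nlinarith
  have h2 : psi T x ≤ -(x * Real.log x) := by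
    unfold psi
    refine le_trans (min_le_left _ _) ?_
    rw [Real.negMulLog]
    apply le_of_eq
    ring
  refine le_trans h2 ?_
  rw [h1]
  rcases eq_or_lt_of_le hx with h0 | h0
  · rw [← h0, Real.sqrt_zero]
    have h3 : (0 - √a) ^ 2 = a := by
      rw [zero_sub, neg_sq, Real.sq_sqrt ha0.le]
    rw [h3]
    apply le_of_eq
    ring
  · have hp : 0 < √x := Real.sqrt_pos.mpr h0
    have hq : 0 < √a := Real.sqrt_pos.mpr ha0
    have hxp : x = √x ^ 2 := (Real.sq_sqrt hx).symm
    have haq : a = √a ^ 2 := (Real.sq_sqrt ha0.le).symm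
    have hlx : Real.log x = 2 * Real.log (√x) := by
      rw [Real.log_sqrt hx]; ring
    have hlq : Real.log a = 2 * Real.log (√a) := by
      rw [Real.log_sqrt ha0.le]; ring
    have h4 : Real.log (√a / √x) ≤ √a / √x - 1 := Real.log_le_sub_one_of_pos (by positivity)
    rw [Real.log_div hq.ne' hp.ne'] at h4
    have h5 : √x ^ 2 * (Real.log (√a) - Real.log (√x)) ≤ √x * √a - √x ^ 2 := by
      have h6 := mul_le_mul_of_nonneg_left h4 (sq_nonneg (√x))
      have h7 : √x ^ 2 * (√a / √x - 1) = √x * √a - √x ^ 2 := by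
        field_simp
      linarith
    rw [hlx, hlq]
    generalize √x = p at *
    generalize √a = q at *
    rw [hxp, haq]
    nlinarith

end Pool.Agent.XO
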