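import Mathlib
import Pool.Agent.Lib_helper94.XO.Defs
import Pool.Agent.Lib_helper94.XO.Defs2
import Pool.Agent.Lib_helper94.XO.Pr
import Pool.Agent.Lib_helper94.XO.F.P2_A1
import Pool.Agent.Lib_helper94.XO.F.P2_A2a
set_option autoImplicit false

namespace Pool.Agent.XO

open Finset

variable {V : Type} [AddCommGroup V] [Fintype V] [DecidableEq V]

theorem b1b_psi_nonneg {T x : ℝ} (hT : 0 ≤ T) (h0 : 0 ≤ x) (h1 : x ≤ 1) : 0 ≤ psi T x := by
  unfold psi
  exact le_min (Real.negMulLog_nonneg h0 h1) (mul_nonneg hT h0)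

theorem at_bounds {p : V → ℝ} (hp : IsLaw p) {T : ℝ} (hT : 0 ≤ T) {n : ℕ} (hn : 1 ≤ n) :
    0 ≤ AT p T n ∧ AT p T n ≤ T := by
  unfold AT
  have hcp := cp_law hp n
  constructor
  · refine Finset.sum_nonneg fun Z _ => mul_nonneg (hcp.nonneg Z) ?_
    exact Finset.sum_nonneg fun c _ =>
      b1b_psi_nonneg hT (mu_nonneg hp n Z c) (mu_le_one hp hn Z c)
  · calc ∑ Z, cp p n Z * ∑ c, psi T (mu p n Z c) ≤ ∑ Z, cp p n Z * T := by
          refine Finset.sum_le_sum fun Z _ => mul_le_mul_of_nonneg_left ?_ (hcp.nonneg Z)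
          calc ∑ c, psi T (mu p n Z c) ≤ ∑ c, T * mu p n Z c :=
                Finset.sum_le_sum fun c _ => min_le_right _ _
            _ = T * ∑ c, mu p n Z c := by rw [Finset.mul_sum]
            _ ≤ T * 1 := mul_le_mul_of_nonneg_left (mu_sum_le hp hn Z) hT
            _ = T := mul_one T
      _ = T := by rw [← Finset.sum_mul, hcp.sum_one, one_mul]

theorem del_nonneg {p : V → ℝ} (hp : IsLaw p) (T : ℝ) (n : ℕ) : 0 ≤ Del p T n := by
  unfold Del
  refine Finset.sum_nonneg fun ζ _ => Finset.sum_nonneg fun x _ => ?_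
  refine mul_nonneg (mul_nonneg ((cp_law hp (n - 1)).nonneg ζ) (hp.nonneg x)) ?_
  refine Finset.sum_nonneg fun c _ => ?_
  split_ifs
  · positivity
  · exact le_rfl

end Pool.Agent.XO
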