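import Mathlib
import Pool.Agent.Lib_helper94.XO.Defs
import Pool.Agent.Lib_helper94.XO.Defs2
import Pool.Agent.Lib_helper94.XO.Pr
import Pool.Agent.Lib_helper94.XO.F.P2_A1
import Pool.Agent.Lib_helper94.XO.F.P2_A2a
import Pool.Agent.Lib_helper94.XO.F.P2_A2d
import Pool.Agent.Lib_helper94.XO.F.P2_B1a
set_option autoImplicit false

/-! PART II, block P2.B1c. -/

namespace Pool.Agent.XO

open Finset

variable {V : Type} [AddCommGroup V] [Fintype V] [DecidableEq V]

theorem b1c_key {p : V → ℝ} (hp : IsLaw p) {T : ℝ} {n : ℕ} (hn : 2 ≤ n) (Z c : V) :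
    ∑ x, cp p (n - 1) (Z - x) * p x * (psi T (mu p (n - 1) (Z - x) c) +
      if Real.exp (-T) ≤ mu p n Z c then
        (√(mu p (n - 1) (Z - x) c) - √(mu p n Z c)) ^ 2 else 0) ≤
      cp p n Z * psi T (mu p n Z c) := by
  have hw0 : ∀ x, 0 ≤ cp p (n - 1) (Z - x) * p x := fun x =>
    mul_nonneg ((cp_law hp (n - 1)).nonneg _) (hp.nonneg x)
  have hws : ∑ x, cp p (n - 1) (Z - x) * p x = cp p n Z := by
    have h1 := cp_succ p (n - 1) Z
    rw [show n - 1 + 1 = n by omega] at h1
    rw [h1]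
    exact Finset.sum_congr rfl fun x _ => mul_comm _ _
  have hwm : ∑ x, cp p (n - 1) (Z - x) * p x * mu p (n - 1) (Z - x) c =
      cp p n Z * mu p n Z c := by
    rw [mu_mart hp hn Z c]
    exact Finset.sum_congr rfl fun x _ => by ring
  set a : ℝ := mu p n Z c with ha
  by_cases hT : Real.exp (-T) ≤ a
  · simp only [if_pos hT]
    have h1 : ∀ x ∈ (univ : Finset V), cp p (n - 1) (Z - x) * p x *
        (psi T (mu p (n - 1) (Z - x) c) + (√(mu p (n - 1) (Z - x) c) - √a) ^ 2) ≤
        cp p (n - 1) (Z - x) * p x * (psi T a - (-Real.log a - 1) * a) +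
          (-Real.log a - 1) * (cp p (n - 1) (Z - x) * p x * mu p (n - 1) (Z - x) c) := by
      intro x _
      have h2 := psi_tangent hT (mu_nonneg hp (n - 1) (Z - x) c)
      have h3 : psi T (mu p (n - 1) (Z - x) c) + (√(mu p (n - 1) (Z - x) c) - √a) ^ 2 ≤
          psi T a + (-Real.log a - 1) * (mu p (n - 1) (Z - x) c - a) := by linarith
      refine (mul_le_mul_of_nonneg_left h3 (hw0 x)).trans (le_of_eq ?_)
      ring
    refine (Finset.sum_le_sum h1).trans (le_of_eq ?_)
    rw [Finset.sum_add_distrib, ← Finset.sum_mul, ← Finset.mul_sum, hws, hwm]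
    ring
  · simp only [if_neg hT, add_zero]
    by_cases hZ : cp p n Z = 0
    · have h1 : ∀ x ∈ (univ : Finset V), cp p (n - 1) (Z - x) * p x = 0 :=
        (Finset.sum_eq_zero_iff_of_nonneg fun x _ => hw0 x).1 (by rw [hws, hZ])
      rw [Finset.sum_eq_zero fun x hx => by rw [h1 x hx, zero_mul], hZ, zero_mul]
    · have hZ0 : 0 < cp p n Z := lt_of_le_of_ne ((cp_law hp n).nonneg Z) (Ne.symm hZ)
      have h1 := (psi_concave T).le_map_sum (t := (univ : Finset V))
        (w := fun x => cp p (n - 1) (Z - x) * p x / cp p n Z)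
        (p := fun x => mu p (n - 1) (Z - x) c)
        (fun x _ => div_nonneg (hw0 x) hZ0.le)
        (by rw [← Finset.sum_div, hws, div_self hZ])
        (fun x _ => mu_nonneg hp (n - 1) (Z - x) c)
      have h2 : ∑ x, (cp p (n - 1) (Z - x) * p x / cp p n Z) • mu p (n - 1) (Z - x) c = a := by
        have h3 : ∀ x ∈ (univ : Finset V), (cp p (n - 1) (Z - x) * p x / cp p n Z) •
            mu p (n - 1) (Z - x) c =
            (cp p (n - 1) (Z - x) * p x * mu p (n - 1) (Z - x) c) / cp p n Z := by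
          intro x _
          rw [smul_eq_mul]
          ring
        rw [Finset.sum_congr rfl h3, ← Finset.sum_div, hwm, mul_div_cancel_left₀ _ hZ]
      rw [h2] at h1
      have h4 : ∑ x, (cp p (n - 1) (Z - x) * p x / cp p n Z) • psi T (mu p (n - 1) (Z - x) c) =
          (∑ x, cp p (n - 1) (Z - x) * p x * psi T (mu p (n - 1) (Z - x) c)) / cp p n Z := by
        rw [Finset.sum_div]
        refine Finset.sum_congr rfl fun x _ => ?_
        rw [smul_eq_mul]
        ring
      rw [h4, div_le_iff₀ hZ0] at h1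
      rw [mul_comm (cp p n Z)]
      exact h1

theorem del_le {p : V → ℝ} (hp : IsLaw p) {T : ℝ} (hT : 0 ≤ T) {n : ℕ} (hn : 2 ≤ n) :
    Del p T n ≤ AT p T n - AT p T (n - 1) := by
  have h1 : ∑ Z, ∑ c, ∑ x, cp p (n - 1) (Z - x) * p x * (psi T (mu p (n - 1) (Z - x) c) +
      if Real.exp (-T) ≤ mu p n Z c then
        (√(mu p (n - 1) (Z - x) c) - √(mu p n Z c)) ^ 2 else 0) ≤ AT p T n := by
    unfold AT
    refine Finset.sum_le_sum fun Z _ => ?_
    rw [Finset.mul_sum]
    exact Finset.sum_le_sum fun c _ => b1c_key hp hn Z c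
  have h2 : ∑ Z, ∑ c, ∑ x, cp p (n - 1) (Z - x) * p x * (psi T (mu p (n - 1) (Z - x) c) +
      if Real.exp (-T) ≤ mu p n Z c then
        (√(mu p (n - 1) (Z - x) c) - √(mu p n Z c)) ^ 2 else 0) =
      AT p T (n - 1) + Del p T n := by
    have e1 : ∑ Z, ∑ c, ∑ x, cp p (n - 1) (Z - x) * p x * (psi T (mu p (n - 1) (Z - x) c) +
        if Real.exp (-T) ≤ mu p n Z c then
          (√(mu p (n - 1) (Z - x) c) - √(mu p n Z c)) ^ 2 else 0) =
        ∑ ζ, ∑ x, ∑ c, cp p (n - 1) ζ * p x * (psi T (mu p (n - 1) ζ c) +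
        if Real.exp (-T) ≤ mu p n (ζ + x) c then
          (√(mu p (n - 1) ζ c) - √(mu p n (ζ + x) c)) ^ 2 else 0) := by
      rw [Finset.sum_congr rfl fun Z _ => Finset.sum_comm, Finset.sum_comm]
      conv_rhs => rw [Finset.sum_comm]
      refine Finset.sum_congr rfl fun x _ => ?_
      rw [← Equiv.sum_comp (Equiv.addRight x)]
      refine Finset.sum_congr rfl fun ζ _ => Finset.sum_congr rfl fun c _ => ?_
      simp only [Equiv.coe_addRight, add_sub_cancel_right]
    rw [e1]
    unfold AT Del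
    rw [← Finset.sum_add_distrib]
    refine Finset.sum_congr rfl fun ζ _ => ?_
    have e2 : cp p (n - 1) ζ * ∑ c, psi T (mu p (n - 1) ζ c) =
        ∑ x, cp p (n - 1) ζ * p x * ∑ c, psi T (mu p (n - 1) ζ c) := by
      rw [← Finset.sum_mul, ← Finset.mul_sum, hp.sum_one, mul_one]
    rw [e2, ← Finset.sum_add_distrib]
    refine Finset.sum_congr rfl fun x _ => ?_
    rw [← mul_add, ← Finset.sum_add_distrib, Finset.mul_sum]
  linarith

end Pool.Agent.XO
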