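import Mathlib
import Pool.Agent.Lib_helper94.XO.Defs
import Pool.Agent.Lib_helper94.XO.Defs2
import Pool.Agent.Lib_helper94.XO.Pr
import Pool.Agent.Lib_helper94.XO.F.P2_B1b
import Pool.Agent.Lib_helper94.XO.F.P2_B1c
set_option autoImplicit false

namespace Pool.Agent.XO

open Finset

variable {V : Type} [AddCommGroup V] [Fintype V] [DecidableEq V]

theorem good_scale {p : V → ℝ} (hp : IsLaw p) {Ca Cb : ℝ} (hCa : 0 < Ca) (hCb : 0 < Cb) {N : ℕ}
    (hN : 8 ≤ N) : ∃ n, N ≤ n ∧ n ≤ N ^ 2 ∧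
      Del p (Ca * (1 + Real.log ((N : ℝ) ^ 2))) n ≤ 16 * Ca / n ∧
      Del p (Cb * (1 + Real.log ((N : ℝ) ^ 2))) n ≤ 16 * Cb / n := by
  by_contra hcon
  push Not at hcon
  have hNR : (8 : ℝ) ≤ N := by exact_mod_cast hN
  have hlN : 1 ≤ Real.log N := by
    rw [Real.le_log_iff_exp_le (by linarith)]
    have := Real.exp_one_lt_d9
    linarith
  have hl2 : Real.log ((N : ℝ) ^ 2) = 2 * Real.log N := by
    rw [Real.log_pow]; norm_num
  have hTa : 0 ≤ Ca * (1 + Real.log ((N : ℝ) ^ 2)) := by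
    rw [hl2]; positivity
  have hTb : 0 ≤ Cb * (1 + Real.log ((N : ℝ) ^ 2)) := by
    rw [hl2]; positivity
  generalize hTA : Ca * (1 + Real.log ((N : ℝ) ^ 2)) = Ta at *
  generalize hTB : Cb * (1 + Real.log ((N : ℝ) ^ 2)) = Tb at *
  have key : ∀ n, N ≤ n → n ≤ N ^ 2 → Real.log ((n : ℝ) + 1) - Real.log n ≤
      (AT p Ta n - AT p Ta (n - 1)) / (16 * Ca) + (AT p Tb n - AT p Tb (n - 1)) / (16 * Cb) := by
    intro n h1 h2
    have hn : 2 ≤ n := by omega
    have hn0 : (0 : ℝ) < n := by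
      have : 0 < n := by omega
      exact_mod_cast this
    have hlog : Real.log ((n : ℝ) + 1) - Real.log n ≤ 1 / n := by
      rw [← Real.log_div (by positivity) (by positivity)]
      have := Real.log_le_sub_one_of_pos (x := ((n : ℝ) + 1) / n) (by positivity)
      have h3 : ((n : ℝ) + 1) / n - 1 = 1 / n := by field_simp; ring
      linarith
    have hda := del_le hp hTa hn
    have hdb := del_le hp hTb hn
    have hna := del_nonneg hp Ta n
    have hnb := del_nonneg hp Tb n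
    have ha : Del p Ta n / (16 * Ca) ≤ (AT p Ta n - AT p Ta (n - 1)) / (16 * Ca) :=
      div_le_div_of_nonneg_right hda (by positivity)
    have hb : Del p Tb n / (16 * Cb) ≤ (AT p Tb n - AT p Tb (n - 1)) / (16 * Cb) :=
      div_le_div_of_nonneg_right hdb (by positivity)
    have ha0 : 0 ≤ Del p Ta n / (16 * Ca) := by positivity
    have hb0 : 0 ≤ Del p Tb n / (16 * Cb) := by positivity
    rcases le_or_gt (Del p Ta n) (16 * Ca / n) with h3 | h3
    · have h4 := hcon n h1 h2 h3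
      have h5 : 1 / (n : ℝ) ≤ Del p Tb n / (16 * Cb) := by
        rw [le_div_iff₀ (by positivity)]
        calc 1 / (n : ℝ) * (16 * Cb) = 16 * Cb / n := by ring
          _ ≤ _ := h4.le
      linarith
    · have h5 : 1 / (n : ℝ) ≤ Del p Ta n / (16 * Ca) := by
        rw [le_div_iff₀ (by positivity)]
        calc 1 / (n : ℝ) * (16 * Ca) = 16 * Ca / n := by ring
          _ ≤ _ := h3.le
      linarith
  have tele : ∀ m, N ≤ m → m ≤ N ^ 2 → Real.log ((m : ℝ) + 1) - Real.log N ≤
      (AT p Ta m - AT p Ta (N - 1)) / (16 * Ca) + (AT p Tb m - AT p Tb (N - 1)) / (16 * Cb) := by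
    intro m hm
    induction m, hm using Nat.le_induction with
    | base => intro h; exact key N le_rfl h
    | succ m hm ih =>
      intro h
      have h1 := ih (by omega)
      have h2 := key (m + 1) (by omega) h
      rw [Nat.add_sub_cancel] at h2
      push_cast at h2 ⊢
      have e1 : (AT p Ta (m + 1) - AT p Ta (N - 1)) / (16 * Ca) =
        (AT p Ta (m + 1) - AT p Ta m) / (16 * Ca) + (AT p Ta m - AT p Ta (N - 1)) / (16 * Ca) := by
        ring
      have e2 : (AT p Tb (m + 1) - AT p Tb (N - 1)) / (16 * Cb) =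
        (AT p Tb (m + 1) - AT p Tb m) / (16 * Cb) + (AT p Tb m - AT p Tb (N - 1)) / (16 * Cb) := by
        ring
      rw [e1, e2]
      linarith
  have hNN : N ≤ N ^ 2 := by nlinarith
  have h1 := tele (N ^ 2) hNN le_rfl
  have hN21 : 1 ≤ N ^ 2 := by omega
  obtain ⟨_, ha⟩ := at_bounds hp hTa hN21
  obtain ⟨_, hb⟩ := at_bounds hp hTb hN21
  obtain ⟨ha', _⟩ := at_bounds hp hTa (n := N - 1) (by omega)
  obtain ⟨hb', _⟩ := at_bounds hp hTb (n := N - 1) (by omega)
  have h2 : (AT p Ta (N ^ 2) - AT p Ta (N - 1)) / (16 * Ca) ≤ (1 + 2 * Real.log N) / 16 := by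
    rw [div_le_div_iff₀ (by positivity) (by norm_num)]
    have : AT p Ta (N ^ 2) - AT p Ta (N - 1) ≤ Ca * (1 + 2 * Real.log N) := by
      rw [← hl2, hTA]; linarith
    nlinarith
  have h3 : (AT p Tb (N ^ 2) - AT p Tb (N - 1)) / (16 * Cb) ≤ (1 + 2 * Real.log N) / 16 := by
    rw [div_le_div_iff₀ (by positivity) (by norm_num)]
    have : AT p Tb (N ^ 2) - AT p Tb (N - 1) ≤ Cb * (1 + 2 * Real.log N) := by
      rw [← hl2, hTB]; linarith
    nlinarith
  have h4 : 2 * Real.log N ≤ Real.log (((N ^ 2 : ℕ) : ℝ) + 1) := by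
    rw [← hl2]
    apply Real.log_le_log (by positivity)
    push_cast
    linarith
  linarith

end Pool.Agent.XO
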