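import Mathlib
import Pool.Agent.Lib_helper94.XO.Defs
import Pool.Agent.Lib_helper94.XO.Defs2
import Pool.Agent.Lib_helper94.XO.Pr
import Pool.Agent.Lib_helper94.XO.F.P2_A1
import Pool.Agent.Lib_helper94.XO.F.P2_A2a
set_option autoImplicit false

namespace Pool.Agent.XO

open Finset

variable {V : Type} [AddCommGroup V] [Fintype V] [DecidableEq V]

/-- the weighted Cauchy-Schwarz inequality -/
theorem b3a_cs {ι : Type} [Fintype ι] (w a b : ι → ℝ) (hw : ∀ t, 0 ≤ w t) (ha : ∀ t, 0 ≤ a t)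
    (hb : ∀ t, 0 ≤ b t) (h4 : ∑ t, w t * (√(a t) + √(b t)) ^ 2 ≤ 4) :
    ∑ t, w t * |a t - b t| ≤ 2 * √(∑ t, w t * (√(a t) - √(b t)) ^ 2) := by
  have e1 : ∀ t, w t * |a t - b t| =
      (√(w t) * |√(a t) - √(b t)|) * (√(w t) * (√(a t) + √(b t))) := by
    intro t
    have h1 : |a t - b t| = |√(a t) - √(b t)| * (√(a t) + √(b t)) := by
      have h2 : a t - b t = (√(a t) - √(b t)) * (√(a t) + √(b t)) := by
        have e1 := Real.sq_sqrt (ha t)
        have e2 := Real.sq_sqrt (hb t)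
        nlinarith
      rw [h2, abs_mul, abs_of_nonneg (a := √(a t) + √(b t)) (by positivity)]
    rw [h1]
    have e3 := Real.mul_self_sqrt (hw t)
    calc w t * (|√(a t) - √(b t)| * (√(a t) + √(b t)))
        = (√(w t) * √(w t)) * (|√(a t) - √(b t)| * (√(a t) + √(b t))) := by rw [e3]
      _ = _ := by ring
  rw [Finset.sum_congr rfl fun t _ => e1 t]
  refine (Real.sum_mul_le_sqrt_mul_sqrt _ _ _).trans ?_
  have e2 : ∑ t, (√(w t) * |√(a t) - √(b t)|) ^ 2 = ∑ t, w t * (√(a t) - √(b t)) ^ 2 := by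
    refine Finset.sum_congr rfl fun t _ => ?_
    rw [mul_pow, Real.sq_sqrt (hw t), sq_abs]
  have e3 : ∑ t, (√(w t) * (√(a t) + √(b t))) ^ 2 = ∑ t, w t * (√(a t) + √(b t)) ^ 2 := by
    refine Finset.sum_congr rfl fun t _ => ?_
    rw [mul_pow, Real.sq_sqrt (hw t)]
  rw [e2, e3, mul_comm]
  refine mul_le_mul_of_nonneg_right ?_ (Real.sqrt_nonneg _)
  rw [show (2 : ℝ) = √4 by rw [show (4 : ℝ) = 2 ^ 2 by norm_num, Real.sqrt_sq (by norm_num)]]
  exact Real.sqrt_le_sqrt h4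

theorem near_abs {p : V → ℝ} (hp : IsLaw p) {T : ℝ} {n : ℕ} (hn : 2 ≤ n) :
    ∑ ζ, ∑ x, cp p (n - 1) ζ * p x * ∑ c, (if Real.exp (-T) ≤ mu p n (ζ + x) c then
      |mu p (n - 1) ζ c - mu p n (ζ + x) c| else 0) ≤ 2 * √(Del p T n) := by
  classical
  have hcp := cp_law hp (n - 1)
  have key := b3a_cs (ι := V × V × V)
    (fun t => if Real.exp (-T) ≤ mu p n (t.1 + t.2.1) t.2.2 then cp p (n - 1) t.1 * p t.2.1 else 0)
    (fun t => mu p (n - 1) t.1 t.2.2) (fun t => mu p n (t.1 + t.2.1) t.2.2)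
    (fun t => by
      split_ifs
      · exact mul_nonneg (hcp.nonneg _) (hp.nonneg _)
      · exact le_rfl)
    (fun t => mu_nonneg hp _ _ _) (fun t => mu_nonneg hp _ _ _) ?_
  · have e1 : ∑ ζ, ∑ x, cp p (n - 1) ζ * p x * ∑ c, (if Real.exp (-T) ≤ mu p n (ζ + x) c then
        |mu p (n - 1) ζ c - mu p n (ζ + x) c| else 0) = ∑ t : V × V × V,
        (if Real.exp (-T) ≤ mu p n (t.1 + t.2.1) t.2.2 then
          cp p (n - 1) t.1 * p t.2.1 else 0) *
          |mu p (n - 1) t.1 t.2.2 - mu p n (t.1 + t.2.1) t.2.2| := by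
      rw [Fintype.sum_prod_type]
      refine Finset.sum_congr rfl fun ζ _ => ?_
      rw [Fintype.sum_prod_type]
      refine Finset.sum_congr rfl fun x _ => ?_
      rw [Finset.mul_sum]
      refine Finset.sum_congr rfl fun c _ => ?_
      split_ifs
      · rfl
      · simp
    have e2 : Del p T n = ∑ t : V × V × V,
        (if Real.exp (-T) ≤ mu p n (t.1 + t.2.1) t.2.2 then
          cp p (n - 1) t.1 * p t.2.1 else 0) *
          (√(mu p (n - 1) t.1 t.2.2) - √(mu p n (t.1 + t.2.1) t.2.2)) ^ 2 := by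
      unfold Del
      rw [Fintype.sum_prod_type]
      refine Finset.sum_congr rfl fun ζ _ => ?_
      rw [Fintype.sum_prod_type]
      refine Finset.sum_congr rfl fun x _ => ?_
      rw [Finset.mul_sum]
      refine Finset.sum_congr rfl fun c _ => ?_
      split_ifs
      · rfl
      · simp
    rw [e1, e2]
    exact key
  · have h1 : ∀ t : V × V × V, (if Real.exp (-T) ≤ mu p n (t.1 + t.2.1) t.2.2 then
        cp p (n - 1) t.1 * p t.2.1 else 0) *
        (√(mu p (n - 1) t.1 t.2.2) + √(mu p n (t.1 + t.2.1) t.2.2)) ^ 2 ≤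
        cp p (n - 1) t.1 * p t.2.1 * (2 * (mu p (n - 1) t.1 t.2.2 +
          mu p n (t.1 + t.2.1) t.2.2)) := by
      intro t
      have n1 := mu_nonneg hp (n - 1) t.1 t.2.2
      have n2 := mu_nonneg hp n (t.1 + t.2.1) t.2.2
      have n3 : 0 ≤ cp p (n - 1) t.1 * p t.2.1 := mul_nonneg (hcp.nonneg _) (hp.nonneg _)
      have n4 : (√(mu p (n - 1) t.1 t.2.2) + √(mu p n (t.1 + t.2.1) t.2.2)) ^ 2 ≤
          2 * (mu p (n - 1) t.1 t.2.2 + mu p n (t.1 + t.2.1) t.2.2) := by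
        have e1 := Real.sq_sqrt n1
        have e2 := Real.sq_sqrt n2
        nlinarith [sq_nonneg (√(mu p (n - 1) t.1 t.2.2) - √(mu p n (t.1 + t.2.1) t.2.2))]
      split_ifs
      · exact mul_le_mul_of_nonneg_left n4 n3
      · rw [zero_mul]
        exact mul_nonneg n3 (by positivity)
    refine (Finset.sum_le_sum fun t _ => h1 t).trans ?_
    rw [Fintype.sum_prod_type]
    have h2 : ∀ ζ x : V, ∑ c, cp p (n - 1) ζ * p x * (2 * (mu p (n - 1) ζ c +
        mu p n (ζ + x) c)) ≤ 4 * (cp p (n - 1) ζ * p x) := by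
      intro ζ x
      rw [← Finset.mul_sum, ← Finset.mul_sum, Finset.sum_add_distrib]
      have n3 : 0 ≤ cp p (n - 1) ζ * p x := mul_nonneg (hcp.nonneg _) (hp.nonneg _)
      have a1 := mu_sum_le hp (k := n - 1) (by omega) ζ
      have a2 := mu_sum_le hp (k := n) (by omega) (ζ + x)
      nlinarith
    calc ∑ ζ : V, ∑ y : V × V, cp p (n - 1) (ζ, y).1 * p (ζ, y).2.1 *
          (2 * (mu p (n - 1) (ζ, y).1 (ζ, y).2.2 + mu p n ((ζ, y).1 + (ζ, y).2.1) (ζ, y).2.2))
        ≤ ∑ ζ : V, ∑ x : V, 4 * (cp p (n - 1) ζ * p x) := by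
          refine Finset.sum_le_sum fun ζ _ => ?_
          rw [Fintype.sum_prod_type]
          exact Finset.sum_le_sum fun x _ => h2 ζ x
      _ = 4 * ((∑ ζ, cp p (n - 1) ζ) * ∑ x, p x) := by
          rw [Finset.sum_mul_sum, Finset.mul_sum]
          refine Finset.sum_congr rfl fun ζ _ => ?_
          rw [Finset.mul_sum]
      _ ≤ 4 := by rw [hcp.sum_one, hp.sum_one]; norm_num

end Pool.Agent.XO
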