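import Mathlib
import Pool.Agent.Lib_helper94.XO.Defs
import Pool.Agent.Lib_helper94.XO.Defs2
import Pool.Agent.Lib_helper94.XO.Pr
import Pool.Agent.Lib_helper94.XO.F.P2_A1
import Pool.Agent.Lib_helper94.XO.F.P2_A2a
set_option autoImplicit false

/-! PART II, block P2.B3b. -/

namespace Pool.Agent.XO

open Finset

variable {V : Type} [AddCommGroup V] [Fintype V] [DecidableEq V]

theorem b3b_num {a b : ℝ} (ha : 0 ≤ a) (hb : 0 ≤ b) (h : a < b / 2) :
    b ≤ 12 * (√a - √b) ^ 2 := by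
  have h1 : √a ^ 2 = a := Real.sq_sqrt ha
  have h2 : √b ^ 2 = b := Real.sq_sqrt hb
  have h3 : 0 ≤ √a := Real.sqrt_nonneg a
  have h4 : 0 ≤ √b := Real.sqrt_nonneg b
  set s := √a
  set t := √b
  have h5 : s ≤ 0.7072 * t := by
    by_contra hcon
    rw [not_le] at hcon
    nlinarith
  have h6 : 0.2928 * t ≤ t - s := by linarith
  have h7 : (0.2928 * t) ^ 2 ≤ (t - s) ^ 2 := pow_le_pow_left₀ (by positivity) h6 2
  nlinarith

theorem near_half {p : V → ℝ} (hp : IsLaw p) {T : ℝ} {n : ℕ} (hn : 2 ≤ n) :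
    ∑ ζ, ∑ x, cp p (n - 1) ζ * p x * ∑ c, (if Real.exp (-T) ≤ mu p n (ζ + x) c ∧
      mu p (n - 1) ζ c < mu p n (ζ + x) c / 2 then mu p n (ζ + x) c else 0) ≤
      12 * Del p T n := by
  unfold Del
  rw [Finset.mul_sum]
  refine Finset.sum_le_sum fun ζ _ => ?_
  rw [Finset.mul_sum]
  refine Finset.sum_le_sum fun x _ => ?_
  rw [mul_left_comm]
  refine mul_le_mul_of_nonneg_left ?_ (mul_nonneg ((cp_law hp (n - 1)).nonneg ζ) (hp.nonneg x))
  rw [Finset.mul_sum]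
  refine Finset.sum_le_sum fun c _ => ?_
  by_cases h1 : Real.exp (-T) ≤ mu p n (ζ + x) c
  · rw [if_pos h1]
    by_cases h2 : mu p (n - 1) ζ c < mu p n (ζ + x) c / 2
    · rw [if_pos ⟨h1, h2⟩]
      exact b3b_num (mu_nonneg hp _ _ _) (mu_nonneg hp _ _ _) h2
    · rw [if_neg fun h => h2 h.2]
      positivity
  · rw [if_neg h1, if_neg fun h => h1 h.1, mul_zero]

end Pool.Agent.XO
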