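import Mathlib
import Pool.Agent.Lib_helper94.XO.Defs
import Pool.Agent.Lib_helper94.XO.Defs2
import Pool.Agent.Lib_helper94.XO.Pr
import Pool.Agent.Lib_helper94.XO.F.P2_A2a
set_option autoImplicit false

namespace Pool.Agent.XO

open Finset

variable {V : Type} [AddCommGroup V] [Fintype V] [DecidableEq V]

theorem acl_card {p : V → ℝ} (hp : IsLaw p) {n : ℕ} (hn : 1 ≤ n) {w θ : ℝ} (hw : 0 < w)
    (hθ : 0 < θ) (ζ : V) : ((Acl p n w θ ζ).card : ℝ) ≤ 1 / (w * θ) := by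
  classical
  have h1 : ((Acl p n w θ ζ).card : ℝ) * θ ≤
      ∑ c ∈ Acl p n w θ ζ, pr p (fun x => w ≤ mu p n (ζ + x) c) := by
    rw [← nsmul_eq_mul]
    refine Finset.card_nsmul_le_sum _ _ _ fun c hc => ?_
    unfold Acl at hc
    rw [Finset.mem_filter] at hc
    exact hc.2.2
  have h2 : ∑ c ∈ Acl p n w θ ζ, pr p (fun x => w ≤ mu p n (ζ + x) c) ≤
      ∑ c, pr p (fun x => w ≤ mu p n (ζ + x) c) :=
    Finset.sum_le_sum_of_subset_of_nonneg (Finset.subset_univ _)
      fun c _ _ => pr_nonneg hp.nonneg _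
  have h3 : (∑ c, pr p (fun x => w ≤ mu p n (ζ + x) c)) * w ≤ 1 := by
    unfold pr
    rw [Finset.sum_comm, Finset.sum_mul]
    have h4 : ∀ x ∈ (Finset.univ : Finset V),
        (∑ c, if w ≤ mu p n (ζ + x) c then p x else 0) * w ≤ p x := by
      intro x _
      rw [Finset.sum_mul]
      calc ∑ c, (if w ≤ mu p n (ζ + x) c then p x else 0) * w
          ≤ ∑ c, p x * mu p n (ζ + x) c := by
            refine Finset.sum_le_sum fun c _ => ?_
            split_ifs with h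
            · exact mul_le_mul_of_nonneg_left h (hp.nonneg x)
            · rw [zero_mul]
              exact mul_nonneg (hp.nonneg x) (mu_nonneg hp _ _ _)
        _ = p x * ∑ c, mu p n (ζ + x) c := by rw [Finset.mul_sum]
        _ ≤ p x * 1 := mul_le_mul_of_nonneg_left (mu_sum_le hp hn _) (hp.nonneg x)
        _ = p x := mul_one _
    calc _ ≤ ∑ x, p x := Finset.sum_le_sum h4
      _ = 1 := hp.sum_one
  rw [le_div_iff₀ (mul_pos hw hθ)]
  calc ((Acl p n w θ ζ).card : ℝ) * (w * θ) = ((Acl p n w θ ζ).card : ℝ) * θ * w := by ring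
    _ ≤ (∑ c, pr p (fun x => w ≤ mu p n (ζ + x) c)) * w :=
        mul_le_mul_of_nonneg_right (h1.trans h2) hw.le
    _ ≤ 1 := h3

theorem kk_anti {p : V → ℝ} {n : ℕ} {w θ θ' : ℝ} (h : θ' ≤ θ) (z : Fin n → V) (c : V) :
    KK p w θ' z c ⊆ KK p w θ z c := by
  classical
  intro j hj
  unfold KK at hj ⊢
  rw [Finset.mem_filter] at hj ⊢
  refine ⟨hj.1, fun hc => hj.2 ?_⟩
  unfold Acl at hc ⊢
  rw [Finset.mem_filter] at hc ⊢
  exact ⟨hc.1, hc.2.1, h.trans hc.2.2⟩

end Pool.Agent.XO
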