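import Mathlib
import Pool.Agent.Lib_helper94.XO.Defs
import Pool.Agent.Lib_helper94.XO.Defs2
import Pool.Agent.Lib_helper94.XO.Pr
import Pool.Agent.Lib_helper94.XO.F.P2_A1
import Pool.Agent.Lib_helper94.XO.F.P2_A2a
import Pool.Agent.Lib_helper94.XO.F.P2_A3a
import Pool.Agent.Lib_helper94.XO.F.P2_A3e
import Pool.Agent.Lib_helper94.XO.F.P2_B3b
set_option autoImplicit false

/-! PART II, block B4b. -/

namespace Pool.Agent.XO

open Finset

variable {V : Type} [AddCommGroup V] [Fintype V] [DecidableEq V]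

theorem b4b_mem {p : V → ℝ} {n : ℕ} {w θ : ℝ} (z : Fin n → V) (c : V) (j : Fin n) :
    j ∈ KK p w θ z c ↔ c ∉ Acl p n w θ (∑ i, z i - z j) := by
  classical
  unfold KK
  simp

theorem b4b_count {p : V → ℝ} (hp : IsLaw p) {m : ℕ} (hm : 1 ≤ m) {T : ℝ} (ζ : V) :
    (((univ.filter fun c => Real.exp (-T) / 2 ≤ mu p m ζ c).card : ℕ) : ℝ) ≤ 2 * Real.exp T := by
  classical
  have h1 : ∑ c ∈ (univ.filter fun c => Real.exp (-T) / 2 ≤ mu p m ζ c), Real.exp (-T) / 2 ≤ 1 := by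
    calc ∑ c ∈ (univ.filter fun c => Real.exp (-T) / 2 ≤ mu p m ζ c), Real.exp (-T) / 2
        ≤ ∑ c ∈ (univ.filter fun c => Real.exp (-T) / 2 ≤ mu p m ζ c), mu p m ζ c :=
          Finset.sum_le_sum fun c hc => (Finset.mem_filter.mp hc).2
      _ ≤ ∑ c, mu p m ζ c :=
          Finset.sum_le_sum_of_subset_of_nonneg (Finset.filter_subset _ _)
            fun c _ _ => mu_nonneg hp m ζ c
      _ ≤ 1 := mu_sum_le hp hm ζ
  rw [Finset.sum_const, nsmul_eq_mul] at h1
  have h2 : Real.exp (-T) * Real.exp T = 1 := by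
    rw [← Real.exp_add]; simp
  have h3 := mul_le_mul_of_nonneg_right h1 (by positivity : 0 ≤ 2 * Real.exp T)
  calc (((univ.filter fun c => Real.exp (-T) / 2 ≤ mu p m ζ c).card : ℕ) : ℝ)
      = ((univ.filter fun c => Real.exp (-T) / 2 ≤ mu p m ζ c).card : ℝ) *
          (Real.exp (-T) * Real.exp T) := by rw [h2, mul_one]
    _ = ((univ.filter fun c => Real.exp (-T) / 2 ≤ mu p m ζ c).card : ℝ) *
          (Real.exp (-T) / 2) * (2 * Real.exp T) := by ring
    _ ≤ 1 * (2 * Real.exp T) := h3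
    _ = 2 * Real.exp T := one_mul _

open Classical in
/-- heavy for `ζ`, not accessible -/
noncomputable def b4b_S (p : V → ℝ) (n : ℕ) (T w θ : ℝ) (ζ : V) : Finset V :=
  (univ.filter fun c => Real.exp (-T) / 2 ≤ mu p (n - 1) ζ c).filter
    (fun c => c ∉ Acl p n w θ ζ)

/-- the sum over `x` for a fixed `c` that is heavy for `ζ` and not accessible -/
theorem b4b_light {p : V → ℝ} (hp : IsLaw p) {n : ℕ} (hn : 2 ≤ n) {T w θ : ℝ}
    (hw : w ≤ Real.exp (-T)) (ζ c : V) (hc : Real.exp (-T) / 2 ≤ mu p (n - 1) ζ c)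
    (hA : c ∉ Acl p n w θ ζ) :
    ∑ x, p x * (if Real.exp (-T) ≤ mu p n (ζ + x) c then mu p n (ζ + x) c else 0) ≤ θ := by
  classical
  have hpc : p c ≠ 0 := by
    intro h0
    have : mu p (n - 1) ζ c = 0 := by unfold mu; rw [h0]; simp
    rw [this] at hc
    have := Real.exp_pos (-T)
    linarith
  have h1 : ¬ θ ≤ pr p (fun x => w ≤ mu p n (ζ + x) c) := by
    intro h
    apply hA
    unfold Acl
    rw [Finset.mem_filter]
    exact ⟨Finset.mem_univ _, hpc, h⟩
  push Not at h1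
  refine le_trans ?_ h1.le
  unfold pr
  refine Finset.sum_le_sum fun x _ => ?_
  have hx := hp.nonneg x
  by_cases h2 : Real.exp (-T) ≤ mu p n (ζ + x) c
  · rw [if_pos h2, if_pos (hw.trans h2)]
    have := mu_le_one hp (by omega : 1 ≤ n) (ζ + x) c
    nlinarith
  · rw [if_neg h2, mul_zero]
    split_ifs <;> [exact hx; exact le_rfl]

/-- II.4 -/
theorem kk_prob {p : V → ℝ} (hp : IsLaw p) {n : ℕ} (hn : 2 ≤ n) {T w θ : ℝ} (hθ : 0 < θ)
    (hw0 : 0 < w) (hw : w ≤ Real.exp (-T)) (j : Fin n) :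
    pr (LB p n 1) (fun x => Real.exp (-T) ≤ mu p n (∑ i, x.1 i) (x.2 0) ∧
      j ∈ KK p w θ x.1 (x.2 0)) ≤ 12 * Del p T n + 2 * Real.exp T * θ := by
  classical
  -- rewrite the probability
  set g : V → V → ℝ := fun ζ x => ∑ c, if Real.exp (-T) ≤ mu p n (ζ + x) c ∧
    c ∉ Acl p n w θ ζ then mu p n (ζ + x) c else 0 with hg
  obtain ⟨F, hF⟩ : ∃ F : (Fin n → V) → V → ℝ, F = fun z c =>
    if Real.exp (-T) ≤ mu p n (∑ i, z i) c ∧ c ∉ Acl p n w θ (∑ i, z i - z j)
      then (1 : ℝ) else 0 := ⟨_, rfl⟩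
  have e1 : pr (LB p n 1) (fun x => Real.exp (-T) ≤ mu p n (∑ i, x.1 i) (x.2 0) ∧
      j ∈ KK p w θ x.1 (x.2 0)) = ∑ x, LB p n 1 x * F x.1 (x.2 0) := by
    rw [hF]
    unfold pr
    refine Finset.sum_congr rfl fun x _ => ?_
    simp only [b4b_mem, mul_ite, mul_one, mul_zero]
  have e2 : ∑ z : Fin n → V, pw p z * ∑ c, mu p n (∑ i, z i) c * F z c =
      ∑ z : Fin n → V, pw p z * g (∑ i, z i - z j) (z j) := by
    refine Finset.sum_congr rfl fun z _ => ?_
    congr 1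
    simp only [hg, hF]
    refine Finset.sum_congr rfl fun c _ => ?_
    rw [sub_add_cancel]
    simp only [mul_ite, mul_one, mul_zero]
  rw [e1, lb_one F, e2, zeta_indep j g]
  -- pointwise bound
  have hpt : ∀ ζ x, g ζ x ≤
      (∑ c, (if Real.exp (-T) ≤ mu p n (ζ + x) c ∧
        mu p (n - 1) ζ c < mu p n (ζ + x) c / 2 then mu p n (ζ + x) c else 0)) +
      ∑ c ∈ b4b_S p n T w θ ζ,
        (if Real.exp (-T) ≤ mu p n (ζ + x) c then mu p n (ζ + x) c else 0) := by
    intro ζ x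
    simp only [hg, b4b_S]
    rw [Finset.filter_filter, Finset.sum_filter, ← Finset.sum_add_distrib]
    refine Finset.sum_le_sum fun c _ => ?_
    have hm := mu_nonneg hp n (ζ + x) c
    by_cases h1 : Real.exp (-T) ≤ mu p n (ζ + x) c
    · by_cases h2 : c ∉ Acl p n w θ ζ
      · rw [if_pos ⟨h1, h2⟩]
        by_cases h3 : mu p (n - 1) ζ c < mu p n (ζ + x) c / 2
        · rw [if_pos ⟨h1, h3⟩]
          have : (0 : ℝ) ≤ if Real.exp (-T) / 2 ≤ mu p (n - 1) ζ c ∧ c ∉ Acl p n w θ ζ then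
            (if Real.exp (-T) ≤ mu p n (ζ + x) c then mu p n (ζ + x) c else 0) else 0 := by
            split_ifs <;> first | exact hm | exact le_rfl
          linarith
        · rw [if_neg (fun h => h3 h.2)]
          rw [if_pos ⟨by linarith, h2⟩, if_pos h1]
          linarith
      · rw [if_neg (fun h => h2 h.2)]
        have a1 : (0 : ℝ) ≤ if Real.exp (-T) ≤ mu p n (ζ + x) c ∧
            mu p (n - 1) ζ c < mu p n (ζ + x) c / 2 then mu p n (ζ + x) c else 0 := by
          split_ifs <;> first | exact hm | exact le_rfl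
        have a2 : (0 : ℝ) ≤ if Real.exp (-T) / 2 ≤ mu p (n - 1) ζ c ∧ c ∉ Acl p n w θ ζ then
            (if Real.exp (-T) ≤ mu p n (ζ + x) c then mu p n (ζ + x) c else 0) else 0 := by
            split_ifs <;> first | exact hm | exact le_rfl
        linarith
    · rw [if_neg (fun h => h1 h.1)]
      have a1 : (0 : ℝ) ≤ if Real.exp (-T) ≤ mu p n (ζ + x) c ∧
          mu p (n - 1) ζ c < mu p n (ζ + x) c / 2 then mu p n (ζ + x) c else 0 := by
        split_ifs <;> first | exact hm | exact le_rfl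
      have a2 : (0 : ℝ) ≤ if Real.exp (-T) / 2 ≤ mu p (n - 1) ζ c ∧ c ∉ Acl p n w θ ζ then
          (if Real.exp (-T) ≤ mu p n (ζ + x) c then mu p n (ζ + x) c else 0) else 0 := by
          split_ifs <;> first | exact hm | exact le_rfl
      linarith
  have hcp := (cp_law hp (n - 1)).nonneg
  have hcs := (cp_law hp (n - 1)).sum_one
  have hsec : ∀ ζ, ∑ x, cp p (n - 1) ζ * p x *
      ∑ c ∈ b4b_S p n T w θ ζ,
        (if Real.exp (-T) ≤ mu p n (ζ + x) c then mu p n (ζ + x) c else 0) ≤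
      cp p (n - 1) ζ * (2 * Real.exp T * θ) := by
    intro ζ
    have r1 : ∑ x, cp p (n - 1) ζ * p x *
      ∑ c ∈ b4b_S p n T w θ ζ,
        (if Real.exp (-T) ≤ mu p n (ζ + x) c then mu p n (ζ + x) c else 0) =
        cp p (n - 1) ζ * ∑ c ∈ b4b_S p n T w θ ζ, ∑ x, p x *
        (if Real.exp (-T) ≤ mu p n (ζ + x) c then mu p n (ζ + x) c else 0) := by
      rw [Finset.sum_comm, Finset.mul_sum]
      refine Finset.sum_congr rfl fun x _ => ?_
      rw [mul_assoc, Finset.mul_sum]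
    rw [r1]
    refine mul_le_mul_of_nonneg_left ?_ (hcp ζ)
    calc ∑ c ∈ b4b_S p n T w θ ζ, ∑ x, p x *
        (if Real.exp (-T) ≤ mu p n (ζ + x) c then mu p n (ζ + x) c else 0)
        ≤ ∑ c ∈ b4b_S p n T w θ ζ, θ := by
          refine Finset.sum_le_sum fun c hc => ?_
          unfold b4b_S at hc
          rw [Finset.mem_filter, Finset.mem_filter] at hc
          exact b4b_light hp hn hw ζ c hc.1.2 hc.2
      _ = ((b4b_S p n T w θ ζ).card : ℝ) * θ := by
          rw [Finset.sum_const, nsmul_eq_mul]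
      _ ≤ (((univ.filter fun c => Real.exp (-T) / 2 ≤ mu p (n - 1) ζ c).card : ℕ) : ℝ) * θ := by
          refine mul_le_mul_of_nonneg_right ?_ hθ.le
          unfold b4b_S
          exact_mod_cast Finset.card_le_card (Finset.filter_subset _ _)
      _ ≤ 2 * Real.exp T * θ :=
          mul_le_mul_of_nonneg_right (b4b_count hp (by omega) ζ) hθ.le
  calc ∑ ζ, ∑ x, cp p (n - 1) ζ * p x * g ζ x
      ≤ ∑ ζ, ∑ x, (cp p (n - 1) ζ * p x *
        (∑ c, (if Real.exp (-T) ≤ mu p n (ζ + x) c ∧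
        mu p (n - 1) ζ c < mu p n (ζ + x) c / 2 then mu p n (ζ + x) c else 0)) +
        cp p (n - 1) ζ * p x *
      ∑ c ∈ b4b_S p n T w θ ζ,
        (if Real.exp (-T) ≤ mu p n (ζ + x) c then mu p n (ζ + x) c else 0)) := by
        refine Finset.sum_le_sum fun ζ _ => Finset.sum_le_sum fun x _ => ?_
        rw [← mul_add]
        exact mul_le_mul_of_nonneg_left (hpt ζ x) (mul_nonneg (hcp ζ) (hp.nonneg x))
    _ = (∑ ζ, ∑ x, cp p (n - 1) ζ * p x *
        (∑ c, (if Real.exp (-T) ≤ mu p n (ζ + x) c ∧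
        mu p (n - 1) ζ c < mu p n (ζ + x) c / 2 then mu p n (ζ + x) c else 0))) +
        ∑ ζ, ∑ x, cp p (n - 1) ζ * p x *
      ∑ c ∈ b4b_S p n T w θ ζ,
        (if Real.exp (-T) ≤ mu p n (ζ + x) c then mu p n (ζ + x) c else 0) := by
        simp only [Finset.sum_add_distrib]
    _ ≤ 12 * Del p T n + ∑ ζ, cp p (n - 1) ζ * (2 * Real.exp T * θ) :=
        add_le_add (near_half hp hn) (Finset.sum_le_sum fun ζ _ => hsec ζ)
    _ = 12 * Del p T n + 2 * Real.exp T * θ := by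
        rw [← Finset.sum_mul, hcs, one_mul]

end Pool.Agent.XO
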