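import Mathlib
import Pool.Agent.Lib_helper94.XO.Defs
import Pool.Agent.Lib_helper94.XO.Defs2
import Pool.Agent.Lib_helper94.XO.Pr
import Pool.Agent.Lib_helper94.XO.F.P2_B4b
set_option autoImplicit false

/-! PART II, block P2.B4c. -/

namespace Pool.Agent.XO

open Finset

variable {V : Type} [AddCommGroup V] [Fintype V] [DecidableEq V]

open Classical in
theorem kk_card {p : V → ℝ} (hp : IsLaw p) {n : ℕ} (hn : 2 ≤ n) {T w θ : ℝ} (hθ : 0 < θ)
    (hw0 : 0 < w) (hw : w ≤ Real.exp (-T)) :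
    ∑ x, LB p n 1 x * (if Real.exp (-T) ≤ mu p n (∑ i, x.1 i) (x.2 0) then
      ((KK p w θ x.1 (x.2 0)).card : ℝ) else 0) ≤ n * (12 * Del p T n + 2 * Real.exp T * θ) := by
  have h1 : ∑ x, LB p n 1 x * (if Real.exp (-T) ≤ mu p n (∑ i, x.1 i) (x.2 0) then
      ((KK p w θ x.1 (x.2 0)).card : ℝ) else 0) =
      ∑ j : Fin n, pr (LB p n 1) (fun x => Real.exp (-T) ≤ mu p n (∑ i, x.1 i) (x.2 0) ∧
        j ∈ KK p w θ x.1 (x.2 0)) := by
    unfold pr
    rw [Finset.sum_comm]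
    refine Finset.sum_congr rfl fun x _ => ?_
    by_cases h : Real.exp (-T) ≤ mu p n (∑ i, x.1 i) (x.2 0)
    · rw [if_pos h]
      have h2 : ((KK p w θ x.1 (x.2 0)).card : ℝ) =
          ∑ j : Fin n, if j ∈ KK p w θ x.1 (x.2 0) then (1 : ℝ) else 0 := by
        rw [Finset.sum_ite_mem, Finset.univ_inter, Finset.sum_const, nsmul_eq_mul, mul_one]
      rw [h2, Finset.mul_sum]
      refine Finset.sum_congr rfl fun j _ => ?_
      by_cases hj : j ∈ KK p w θ x.1 (x.2 0)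
      · rw [if_pos hj, if_pos ⟨h, hj⟩, mul_one]
      · rw [if_neg hj, if_neg fun h' => hj h'.2, mul_zero]
    · rw [if_neg h, mul_zero]
      symm
      apply Finset.sum_eq_zero
      intro j _
      rw [if_neg fun h' => h h'.1]
  rw [h1]
  have h2 : ∀ j ∈ (univ : Finset (Fin n)), pr (LB p n 1) (fun x =>
      Real.exp (-T) ≤ mu p n (∑ i, x.1 i) (x.2 0) ∧ j ∈ KK p w θ x.1 (x.2 0)) ≤
      12 * Del p T n + 2 * Real.exp T * θ := fun j _ => kk_prob hp hn hθ hw0 hw j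
  refine (Finset.sum_le_card_nsmul _ _ _ h2).trans (le_of_eq ?_)
  rw [nsmul_eq_mul, Finset.card_univ, Fintype.card_fin]

end Pool.Agent.XO
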