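import Mathlib
import Pool.Agent.Lib_helper94.XO.Defs
import Pool.Agent.Lib_helper94.XO.Defs2
import Pool.Agent.Lib_helper94.XO.Pr
import Pool.Agent.Lib_helper94.XO.F.P2_A3a
import Pool.Agent.Lib_helper94.XO.F.P2_B4a
import Pool.Agent.Lib_helper94.XO.F.P2_B4c
set_option autoImplicit false

namespace Pool.Agent.XO

open Finset

variable {V : Type} [AddCommGroup V] [Fintype V] [DecidableEq V]

/-- a stable rung -/
theorem stable {p : V → ℝ} (hp : IsLaw p) {n : ℕ} (hn : 2 ≤ n) {T w Q : ℝ} (hw0 : 0 < w)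
    (hw : w ≤ Real.exp (-T)) (θ : ℕ → ℝ) (hθ : ∀ i, 0 < θ i) (hanti : Antitone θ)
    (hQ : n * (12 * Del p T n + 2 * Real.exp T * θ 0) ≤ Q) {I : ℕ} (hI : 1 ≤ I) :
    ∃ i < I, pr (LB p n 1) (fun x => Real.exp (-T) ≤ mu p n (∑ i, x.1 i) (x.2 0) ∧
      KK p w (θ i) x.1 (x.2 0) ≠ KK p w (θ (i + 1)) x.1 (x.2 0)) ≤ Q / I := by
  classical
  by_contra hcon
  push Not at hcon
  have hlb := lb_law hp (n := n) (m := 1) (by omega)
  -- expected number of influences
  set E : ℕ → ℝ := fun i => ∑ x, LB p n 1 x * (if Real.exp (-T) ≤ mu p n (∑ i, x.1 i) (x.2 0) then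
      ((KK p w (θ i) x.1 (x.2 0)).card : ℝ) else 0) with hE
  have hE0 : E 0 ≤ Q := by
    refine le_trans ?_ hQ
    have := kk_card hp hn (hθ 0) hw0 hw
    simpa [hE] using this
  have hEnn : ∀ i, 0 ≤ E i := by
    intro i
    refine Finset.sum_nonneg fun x _ => mul_nonneg (hlb.nonneg x) ?_
    split_ifs
    · positivity
    · exact le_rfl
  have step : ∀ i, pr (LB p n 1) (fun x => Real.exp (-T) ≤ mu p n (∑ i, x.1 i) (x.2 0) ∧
      KK p w (θ i) x.1 (x.2 0) ≠ KK p w (θ (i + 1)) x.1 (x.2 0)) ≤ E i - E (i + 1) := by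
    intro i
    rw [hE]
    simp only
    rw [← Finset.sum_sub_distrib]
    unfold pr
    refine Finset.sum_le_sum fun x _ => ?_
    have h0 := hlb.nonneg x
    rw [← mul_sub]
    have hsub := kk_anti (p := p) (w := w) (hanti (Nat.le_succ i)) x.1 (x.2 0)
    have hc : (KK p w (θ (i + 1)) x.1 (x.2 0)).card ≤ (KK p w (θ i) x.1 (x.2 0)).card :=
      Finset.card_le_card hsub
    by_cases h1 : Real.exp (-T) ≤ mu p n (∑ i, x.1 i) (x.2 0)
    · rw [if_pos h1, if_pos h1]
      by_cases h2 : KK p w (θ i) x.1 (x.2 0) = KK p w (θ (i + 1)) x.1 (x.2 0)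
      · rw [if_neg (by tauto)]
        rw [h2, sub_self, mul_zero]
      · rw [if_pos ⟨h1, h2⟩]
        have h3 : (KK p w (θ (i + 1)) x.1 (x.2 0)).card < (KK p w (θ i) x.1 (x.2 0)).card := by
          refine Finset.card_lt_card (Finset.ssubset_iff_subset_ne.2 ⟨hsub, fun h => h2 h.symm⟩)
        have h4 : ((KK p w (θ (i + 1)) x.1 (x.2 0)).card : ℝ) + 1 ≤
            (KK p w (θ i) x.1 (x.2 0)).card := by exact_mod_cast h3
        nlinarith
    · rw [if_neg (by tauto), if_neg h1, if_neg h1]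
      simp
  have h1 : ∑ i ∈ Finset.range I, (E i - E (i + 1)) = E 0 - E I := Finset.sum_range_sub' E I
  have hI0 : (0 : ℝ) < I := by exact_mod_cast hI
  have h2 : ∑ _i ∈ Finset.range I, Q / (I : ℝ) < ∑ i ∈ Finset.range I, (E i - E (i + 1)) := by
    refine Finset.sum_lt_sum_of_nonempty ⟨0, Finset.mem_range.2 (by omega)⟩ fun i hi => ?_
    exact lt_of_lt_of_le (hcon i (Finset.mem_range.1 hi)) (step i)
  rw [Finset.sum_const, Finset.card_range, nsmul_eq_mul, mul_div_cancel₀ _ hI0.ne'] at h2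
  have := hEnn I
  linarith

end Pool.Agent.XO
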