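import Mathlib
import Pool.Agent.Lib_helper94.XO.Defs
import Pool.Agent.Lib_helper94.XO.Defs2
import Pool.Agent.Lib_helper94.XO.Pr
set_option autoImplicit false

/-! Block P2.C1 -/

namespace Pool.Agent.XO

open Finset Filter

variable {V : Type} [AddCommGroup V] [Fintype V] [DecidableEq V]

theorem c1_sq {e : V → ℝ} (he : ∀ c, e c = 1 ∨ e c = -1) (a b c d : V) :
    e a * e b = e c * e d ∨ e a * e b = -(e c * e d) := by
  rcases he a with h1 | h1 <;> rcases he b with h2 | h2 <;> rcases he c with h3 | h3 <;>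
    rcases he d with h4 | h4 <;> rw [h1, h2, h3, h4] <;> norm_num

/-- a pair of the opposite sign exists -/
theorem c1_pair [Module (ZMod 2) V] {p e : V → ℝ} {s κ κ' κ2 : ℝ}
    (h : World p e s κ κ' κ2) {a b : V} (ha : p a ≠ 0) (hb : p b ≠ 0) (hab : a ≠ b) :
    ∃ x, 0 < p x * p (a + b - x) ∧ e x * e (a + b - x) = -(e a * e b) := by
  have hnn := h.law.nonneg
  have hg : a + b ≠ 0 := by
    intro h0
    apply hab
    have h1 : b + b = 0 := ZModModule.add_self b
    have h2 : a + b = b + b := by rw [h0, h1]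
    exact add_right_cancel h2
  have hbal := h.bal (a + b) hg
  by_contra hcon
  push Not at hcon
  have hab' : (a + b) - a = b := by abel
  have hpa : 0 < p a := lt_of_le_of_ne (hnn a) (Ne.symm ha)
  have hpb : 0 < p b := lt_of_le_of_ne (hnn b) (Ne.symm hb)
  have hterm : ∀ c, 0 ≤ p c * p (a + b - c) * (e c * e (a + b - c)) * (e a * e b) := by
    intro c
    rcases (mul_nonneg (hnn c) (hnn (a + b - c))).lt_or_eq with h0 | h0
    · have h1 := hcon c h0
      rcases c1_sq h.sgn c (a + b - c) a b with h2 | h2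
      · rw [h2, mul_assoc]
        exact mul_nonneg h0.le (mul_self_nonneg _)
      · exact absurd h2 h1
    · rw [← h0]; simp
  have hpos : 0 < p a * p (a + b - a) * (e a * e (a + b - a)) * (e a * e b) := by
    rw [hab', mul_assoc]
    have h1 : (e a * e b) * (e a * e b) = 1 := by
      rcases h.sgn a with h1 | h1 <;> rcases h.sgn b with h2 | h2 <;> rw [h1, h2] <;> norm_num
    rw [h1, mul_one]
    exact mul_pos hpa hpb
  have hsum : 0 < ∑ c, p c * p (a + b - c) * (e c * e (a + b - c)) * (e a * e b) :=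
    Finset.sum_pos' (fun c _ => hterm c) ⟨a, mem_univ a, hpos⟩
  rw [← Finset.sum_mul, hbal, zero_mul] at hsum
  exact lt_irrefl _ hsum

theorem gate_exists [Module (ZMod 2) V] {p e : V → ℝ} {s κ κ' κ2 : ℝ}
    (h : World p e s κ κ' κ2) : ∃ σ, IsGate p e σ := by
  classical
  have key : ∀ a b : V, ∃ t : V × V, p a ≠ 0 → p b ≠ 0 → a ≠ b →
      t.1 + t.2 = a + b ∧ 0 < p t.1 * p t.2 ∧ e t.1 * e t.2 = -(e a * e b) ∧
      ∀ x y, x + y = a + b → e x * e y = -(e a * e b) → p x * p y ≤ p t.1 * p t.2 := by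
    intro a b
    by_cases hab : p a ≠ 0 ∧ p b ≠ 0 ∧ a ≠ b
    · obtain ⟨ha, hb, hne⟩ := hab
      obtain ⟨x0, h0, h1⟩ := c1_pair h ha hb hne
      have hS : (univ.filter (fun x => e x * e (a + b - x) = -(e a * e b))).Nonempty :=
        ⟨x0, mem_filter.2 ⟨mem_univ _, h1⟩⟩
      obtain ⟨m, hm, hmax⟩ := Finset.exists_max_image _ (fun x => p x * p (a + b - x)) hS
      refine ⟨(m, a + b - m), fun _ _ _ => ⟨?_, ?_, ?_, ?_⟩⟩
      · show m + (a + b - m) = a + b
        abel
      · exact lt_of_lt_of_le h0 (hmax x0 (mem_filter.2 ⟨mem_univ _, h1⟩))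
      · exact (mem_filter.1 hm).2
      · intro x y hxy he
        have hy : y = a + b - x := by rw [← hxy]; abel
        subst hy
        exact hmax x (mem_filter.2 ⟨mem_univ _, he⟩)
    · refine ⟨(a, b), fun ha hb hne => ?_⟩
      exact absurd ⟨ha, hb, hne⟩ hab
  choose σ hσ using key
  exact ⟨σ, fun a b ha hb hab => hσ a b ha hb hab⟩

end Pool.Agent.XO
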