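import Mathlib
import Pool.Agent.Lib_helper94.XO.Defs
import Pool.Agent.Lib_helper94.XO.Defs2
import Pool.Agent.Lib_helper94.XO.Pr
import Pool.Agent.Lib_helper94.XO.F.P2_A1
import Pool.Agent.Lib_helper94.XO.F.P2_A3e
import Pool.Agent.Lib_helper94.XO.F.P2_B4a
set_option autoImplicit false

namespace Pool.Agent.XO

open Finset Filter

variable {V : Type} [AddCommGroup V] [Fintype V] [DecidableEq V]

open Classical in
theorem d1_eff_card {p : V → ℝ} (hp : IsLaw p) {M : ℕ} {v : ℝ} (hv : 0 < v) (Y : V)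
    (hY : 0 < cp p M Y) :
    ((univ.filter fun c : Fin M → V => Eff p v Y c).card : ℝ) ≤ 1 / v := by
  have h1 : (univ.filter fun c : Fin M → V => Eff p v Y c).card * (v * cp p M Y) ≤ cp p M Y := by
    calc ((univ.filter fun c : Fin M → V => Eff p v Y c).card : ℝ) * (v * cp p M Y) =
        ∑ c ∈ univ.filter fun c : Fin M → V => Eff p v Y c, v * cp p M Y := by
          rw [Finset.sum_const, nsmul_eq_mul]
      _ ≤ ∑ c ∈ univ.filter fun c : Fin M → V => Eff p v Y c, pw p c :=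
          Finset.sum_le_sum fun c hc => (Finset.mem_filter.1 hc).2.2.1
      _ = ∑ c ∈ univ.filter fun c : Fin M → V => Eff p v Y c,
            (if ∑ i, c i = Y then pw p c else 0) := by
          refine Finset.sum_congr rfl fun c hc => ?_
          rw [if_pos (Finset.mem_filter.1 hc).2.1]
      _ ≤ ∑ c : Fin M → V, (if ∑ i, c i = Y then pw p c else 0) := by
          refine Finset.sum_le_sum_of_subset_of_nonneg (Finset.subset_univ _) fun c _ _ => ?_
          split_ifs
          · exact pw_nonneg hp c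
          · exact le_rfl
      _ = cp p M Y := rfl
  rw [le_div_iff₀ hv]
  have h2 : ((univ.filter fun c : Fin M → V => Eff p v Y c).card : ℝ) * v * cp p M Y ≤
      1 * cp p M Y := by linarith
  exact le_of_mul_le_mul_right h2 hY

open Classical in
theorem d1_fix {p : V → ℝ} (hp : IsLaw p) {n M : ℕ} (hn : 1 ≤ n) {w v θ θ' : ℝ} (hw : 0 < w)
    (hv : 0 < v) (hθ : 0 < θ) (hθ' : 0 < θ') (ζ : V) :
    pr p (fun x => ∃ c : Fin M → V, (∀ a, c a ∈ Acl p n w θ ζ) ∧
      ∃ c' : Fin M → V, Eff p v (∑ a, c a) c' ∧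
        ∃ a, c' a ∉ Acl p n w θ' ζ ∧ w ≤ mu p n (ζ + x) (c' a)) ≤
      (1 / (w * θ)) ^ M * (M / v) * θ' := by
  have h1 : pr p (fun x => ∃ c : Fin M → V, (∀ a, c a ∈ Acl p n w θ ζ) ∧
      ∃ c' : Fin M → V, Eff p v (∑ a, c a) c' ∧
        ∃ a, c' a ∉ Acl p n w θ' ζ ∧ w ≤ mu p n (ζ + x) (c' a)) ≤
      pr p (fun x => ∃ i : (Fin M → V) × (Fin M → V) × Fin M, (∀ a, i.1 a ∈ Acl p n w θ ζ) ∧
        Eff p v (∑ a, i.1 a) i.2.1 ∧ i.2.1 i.2.2 ∉ Acl p n w θ' ζ ∧
          w ≤ mu p n (ζ + x) (i.2.1 i.2.2)) := by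
    refine pr_mono hp.nonneg ?_
    rintro x _ ⟨c, hc, c', hc', a, ha, ha'⟩
    exact ⟨(c, c', a), hc, hc', ha, ha'⟩
  refine h1.trans ((pr_exists_le hp.nonneg _).trans ?_)
  have h2 : ∀ i : (Fin M → V) × (Fin M → V) × Fin M,
      pr p (fun x => (∀ a, i.1 a ∈ Acl p n w θ ζ) ∧
        Eff p v (∑ a, i.1 a) i.2.1 ∧ i.2.1 i.2.2 ∉ Acl p n w θ' ζ ∧
          w ≤ mu p n (ζ + x) (i.2.1 i.2.2)) ≤
      if (∀ a, i.1 a ∈ Acl p n w θ ζ) ∧ Eff p v (∑ a, i.1 a) i.2.1 then θ' else 0 := by
    rintro ⟨c, c', a⟩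
    split_ifs with h
    · by_cases ha : c' a ∈ Acl p n w θ' ζ
      · have : pr p (fun x => (∀ a, c a ∈ Acl p n w θ ζ) ∧
            Eff p v (∑ a, c a) c' ∧ c' a ∉ Acl p n w θ' ζ ∧ w ≤ mu p n (ζ + x) (c' a)) = 0 := by
          unfold pr
          refine Finset.sum_eq_zero fun x _ => ?_
          rw [if_neg]
          rintro ⟨_, _, h3, _⟩
          exact h3 ha
        rw [this]
        exact hθ'.le
      · have hpc : p (c' a) ≠ 0 := by
          have h3 := h.2.2.2
          unfold pw at h3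
          exact (Finset.prod_ne_zero_iff.1 h3.ne') a (Finset.mem_univ a)
        have h4 : ¬ (θ' ≤ pr p (fun x => w ≤ mu p n (ζ + x) (c' a))) := by
          intro h5
          exact ha (by
            unfold Acl
            exact Finset.mem_filter.2 ⟨Finset.mem_univ _, hpc, h5⟩)
        push Not at h4
        refine le_trans (pr_mono hp.nonneg ?_) h4.le
        rintro x _ ⟨_, _, _, h5⟩
        exact h5
    · refine le_of_eq ?_
      unfold pr
      refine Finset.sum_eq_zero fun x _ => ?_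
      rw [if_neg]
      rintro ⟨h3, h4, _⟩
      exact h ⟨h3, h4⟩
  refine (Finset.sum_le_sum fun i _ => h2 i).trans ?_
  rw [Fintype.sum_prod_type]
  have h3 : ∀ c : Fin M → V, ∑ i : (Fin M → V) × Fin M,
      (if (∀ a, (c, i).1 a ∈ Acl p n w θ ζ) ∧ Eff p v (∑ a, (c, i).1 a) (c, i).2.1
        then θ' else 0) ≤
      if ∀ a, c a ∈ Acl p n w θ ζ then M / v * θ' else 0 := by
    intro c
    split_ifs with h
    · have hpc : 0 < pw p c := by
        unfold pw
        refine Finset.prod_pos fun a _ => ?_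
        have h4 := h a
        unfold Acl at h4
        have h5 := (Finset.mem_filter.1 h4).2.1
        exact lt_of_le_of_ne (hp.nonneg _) (Ne.symm h5)
      have hY : 0 < cp p M (∑ a, c a) := lt_of_lt_of_le hpc (pw_le_cp hp c)
      have h6 := d1_eff_card hp hv (∑ a, c a) hY
      rw [Fintype.sum_prod_type]
      have h7 : ∀ c' : Fin M → V, ∑ _a : Fin M,
          (if (∀ a, c a ∈ Acl p n w θ ζ) ∧ Eff p v (∑ a, c a) c' then θ' else 0) =
          if Eff p v (∑ a, c a) c' then (M : ℝ) * θ' else 0 := by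
        intro c'
        rw [Finset.sum_const, Finset.card_univ, Fintype.card_fin, nsmul_eq_mul]
        by_cases h8 : Eff p v (∑ a, c a) c'
        · rw [if_pos ⟨h, h8⟩, if_pos h8]
        · rw [if_neg (fun h9 => h8 h9.2), if_neg h8, mul_zero]
      have h8 : ∑ c' : Fin M → V, ∑ _a : Fin M,
          (if (∀ a, c a ∈ Acl p n w θ ζ) ∧ Eff p v (∑ a, c a) c' then θ' else 0) =
          (univ.filter fun c' : Fin M → V => Eff p v (∑ a, c a) c').card * (M * θ') := by
        rw [Finset.sum_congr rfl fun c' _ => h7 c', ← Finset.sum_filter, Finset.sum_const,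
          nsmul_eq_mul]
      refine (le_of_eq h8).trans ?_
      calc ((univ.filter fun c' : Fin M → V => Eff p v (∑ a, c a) c').card : ℝ) * (M * θ') ≤
          1 / v * (M * θ') := mul_le_mul_of_nonneg_right h6 (by positivity)
        _ = M / v * θ' := by ring
    · refine le_of_eq (Finset.sum_eq_zero fun i _ => ?_)
      rw [if_neg]
      rintro ⟨h4, _⟩
      exact h h4
  refine (Finset.sum_le_sum fun c _ => h3 c).trans ?_
  have h4 : (univ.filter fun c : Fin M → V => ∀ a, c a ∈ Acl p n w θ ζ).card =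
      (Acl p n w θ ζ).card ^ M := by
    have h5 : (univ.filter fun c : Fin M → V => ∀ a, c a ∈ Acl p n w θ ζ) =
        Fintype.piFinset fun _ : Fin M => Acl p n w θ ζ := by
      ext c
      rw [Finset.mem_filter, Fintype.mem_piFinset]
      simp
    rw [h5, Fintype.card_piFinset, Finset.prod_const, Finset.card_univ, Fintype.card_fin]
  rw [← Finset.sum_filter, Finset.sum_const, nsmul_eq_mul, h4]
  push_cast
  have h5 := acl_card hp hn hw hθ ζ
  calc ((Acl p n w θ ζ).card : ℝ) ^ M * (M / v * θ') ≤ (1 / (w * θ)) ^ M * (M / v * θ') :=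
        mul_le_mul_of_nonneg_right (pow_le_pow_left₀ (Nat.cast_nonneg _) h5 M) (by positivity)
    _ = (1 / (w * θ)) ^ M * (M / v) * θ' := by ring

theorem badj_pr {p : V → ℝ} (hp : IsLaw p) {n M : ℕ} (hn : 1 ≤ n) {w v θ θ' : ℝ} (hw : 0 < w)
    (hv : 0 < v) (hθ : 0 < θ) (hθ' : 0 < θ') (j : Fin n) :
    pr (fun z : Fin n → V => pw p z) (fun z => BadJ p M w v θ θ' z j) ≤
      (1 / (w * θ)) ^ M * (M / v) * θ' := by
  classical
  set B : V → V → Prop := fun ζ x => ∃ c : Fin M → V, (∀ a, c a ∈ Acl p n w θ ζ) ∧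
      ∃ c' : Fin M → V, Eff p v (∑ a, c a) c' ∧
        ∃ a, c' a ∉ Acl p n w θ' ζ ∧ w ≤ mu p n (ζ + x) (c' a) with hB
  have h1 : ∀ z : Fin n → V, BadJ p M w v θ θ' z j ↔ B (∑ i, z i - z j) (z j) := by
    intro z
    rw [hB]
    unfold BadJ
    simp only [sub_add_cancel]
  have h2 : pr (fun z : Fin n → V => pw p z) (fun z => BadJ p M w v θ θ' z j) =
      ∑ z : Fin n → V, pw p z * (fun ζ x => if B ζ x then (1 : ℝ) else 0) (∑ i, z i - z j) (z j) := by
    unfold pr
    refine Finset.sum_congr rfl fun z _ => ?_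
    by_cases h : BadJ p M w v θ θ' z j
    · rw [if_pos h]
      simp only
      rw [if_pos ((h1 z).1 h), mul_one]
    · rw [if_neg h]
      simp only
      rw [if_neg (fun h' => h ((h1 z).2 h')), mul_zero]
  rw [h2]
  refine (le_of_eq (zeta_indep (p := p) j (fun ζ x => if B ζ x then (1 : ℝ) else 0))).trans ?_
  have h3 : ∀ ζ : V, ∑ x, cp p (n - 1) ζ * p x * (if B ζ x then (1 : ℝ) else 0) ≤
      cp p (n - 1) ζ * ((1 / (w * θ)) ^ M * (M / v) * θ') := by
    intro ζ
    have h4 : ∑ x, cp p (n - 1) ζ * p x * (if B ζ x then (1 : ℝ) else 0) =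
        cp p (n - 1) ζ * pr p (B ζ) := by
      unfold pr
      rw [Finset.mul_sum]
      refine Finset.sum_congr rfl fun x _ => ?_
      by_cases h : B ζ x
      · rw [if_pos h, if_pos h, mul_one]
      · rw [if_neg h, if_neg h, mul_zero, mul_zero]
    rw [h4]
    exact mul_le_mul_of_nonneg_left (d1_fix hp hn hw hv hθ hθ' ζ) ((cp_law hp (n - 1)).nonneg ζ)
  refine (Finset.sum_le_sum fun ζ _ => h3 ζ).trans ?_
  rw [← Finset.sum_mul, (cp_law hp (n - 1)).sum_one, one_mul]

end Pool.Agent.XO
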