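import Mathlib
import Pool.Agent.Lib_helper94.XO.Defs
import Pool.Agent.Lib_helper94.XO.Defs2
import Pool.Agent.Lib_helper94.XO.Pr
import Pool.Agent.Lib_helper94.XO.F.P2_A1
import Pool.Agent.Lib_helper94.XO.F.P2_A2a
import Pool.Agent.Lib_helper94.XO.F.P2_A2c
set_option autoImplicit false

/-! PART II, block D2: the lower bound for the conditional law at an entry of an effective tuple. -/

namespace Pool.Agent.XO

open Finset Filter

variable {V : Type} [AddCommGroup V] [Fintype V] [DecidableEq V]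

/-- an effective tuple is nearly as likely as the tuple `y` -/
theorem d2_mum_lower {p : V → ℝ} (hp : IsLaw p) {n M : ℕ} {v t : ℝ} (hv : 0 < v)
    {Z : V} {y c : Fin M → V} (hy : t ≤ mum p n Z y) (hc : Eff p v (∑ i, y i) c) :
    v * t ≤ mum p n Z c := by
  obtain ⟨h1, h2, _⟩ := hc
  have h4 : v * pw p y ≤ pw p c :=
    (mul_le_mul_of_nonneg_left (pw_le_cp hp y) hv.le).trans h2
  have h5 : 0 ≤ cp p (n - M) (Z - ∑ i, y i) / cp p n Z :=
    div_nonneg ((cp_law hp _).nonneg _) ((cp_law hp _).nonneg _)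
  calc v * t ≤ v * mum p n Z y := mul_le_mul_of_nonneg_left hy hv.le
    _ = (v * pw p y) * (cp p (n - M) (Z - ∑ i, y i) / cp p n Z) := by
        unfold mum; ring
    _ ≤ pw p c * (cp p (n - M) (Z - ∑ i, y i) / cp p n Z) :=
        mul_le_mul_of_nonneg_right h4 h5
    _ = mum p n Z c := by
        unfold mum; rw [h1]; ring

theorem mu_lower {p : V → ℝ} (hp : IsLaw p) {n M : ℕ} (hMn : M ≤ n) {v t : ℝ} (hv : 0 < v)
    (ht : 0 < t) {Z : V} {y c : Fin M → V} (hy : t ≤ mum p n Z y) (hc : Eff p v (∑ i, y i) c)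
    (a : Fin M) : v * t ≤ mu p n Z (c a) := by
  have _ := ht
  have h1 := d2_mum_lower hp hv hy hc
  have h2 := mum_marg hp hMn (fun _ : Fin 1 => a) (fun _ _ _ => Subsingleton.elim _ _) Z
    (fun _ => c a)
  rw [mum_one] at h2
  rw [← h2]
  refine h1.trans ?_
  have h3 := Finset.single_le_sum
    (f := fun c' : Fin M → V => if (fun _ : Fin 1 => c' a) = (fun _ : Fin 1 => c a) then
      mum p n Z c' else 0)
    (fun c' _ => by
      show (0 : ℝ) ≤ if (fun _ : Fin 1 => c' a) = (fun _ : Fin 1 => c a) then mum p n Z c' else 0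
      split_ifs
      · exact mum_nonneg hp n Z c'
      · exact le_rfl) (Finset.mem_univ c)
  simpa using h3

end Pool.Agent.XO
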