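import Mathlib
import Pool.Agent.Lib_helper94.XO.Defs
import Pool.Agent.Lib_helper94.XO.Defs2
import Pool.Agent.Lib_helper94.XO.Pr
set_option autoImplicit false

namespace Pool.Agent.XO

open Finset

variable {V : Type} [AddCommGroup V] [Fintype V] [DecidableEq V]

theorem d3_sub {p : V → ℝ} {n M : ℕ} {w v θ θ' : ℝ} {z : Fin n → V} {Y : V}
    (h1 : ∀ j, ¬ BadJ p M w v θ θ' z j)
    (h2 : ∀ c : Fin M → V, Eff p v Y c → ∀ a, w ≤ mu p n (∑ i, z i) (c a))
    (h3 : ∀ c : Fin M → V, Eff p v Y c → ∀ a, KK p w θ z (c a) = KK p w θ' z (c a))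
    (c c' : Fin M → V) (hc : Eff p v Y c) (hc' : Eff p v Y c') (j : Fin n)
    (hj : ∀ a, j ∉ KK p w θ z (c a)) (a : Fin M) : j ∉ KK p w θ z (c' a) := by
  classical
  intro hmem
  rw [h3 c' hc' a] at hmem
  unfold KK at hmem
  rw [Finset.mem_filter] at hmem
  refine h1 j ⟨c, ?_, c', ?_, a, hmem.2, h2 c' hc' a⟩
  · intro b
    by_contra hb
    refine hj b ?_
    unfold KK
    rw [Finset.mem_filter]
    exact ⟨Finset.mem_univ _, hb⟩
  · rw [hc.1]
    exact hc'

theorem conserve {p : V → ℝ} {n M : ℕ} {w v θ θ' : ℝ} {z : Fin n → V} {Y : V}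
    (h1 : ∀ j, ¬ BadJ p M w v θ θ' z j)
    (h2 : ∀ c : Fin M → V, Eff p v Y c → ∀ a, w ≤ mu p n (∑ i, z i) (c a))
    (h3 : ∀ c : Fin M → V, Eff p v Y c → ∀ a, KK p w θ z (c a) = KK p w θ' z (c a))
    (c c' : Fin M → V) (hc : Eff p v Y c) (hc' : Eff p v Y c') :
    (univ.biUnion fun a => KK p w θ z (c a)) = univ.biUnion fun a => KK p w θ z (c' a) := by
  ext j
  simp only [Finset.mem_biUnion, Finset.mem_univ, true_and]
  constructor
  · intro h
    by_contra hcon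
    push Not at hcon
    obtain ⟨a, ha⟩ := h
    exact d3_sub h1 h2 h3 c' c hc' hc j hcon a ha
  · intro h
    by_contra hcon
    push Not at hcon
    obtain ⟨a, ha⟩ := h
    exact d3_sub h1 h2 h3 c c' hc hc' j hcon a ha

end Pool.Agent.XO
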