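import Mathlib
import Pool.Agent.Lib_helper94.XO.Defs
import Pool.Agent.Lib_helper94.XO.Defs2
import Pool.Agent.Lib_helper94.XO.Pr
import Pool.Agent.Lib_helper94.XO.F.P2_A1
import Pool.Agent.Lib_helper94.XO.F.P2_A2a
import Pool.Agent.Lib_helper94.XO.F.P2_A3a
import Pool.Agent.Lib_helper94.XO.F.P2_B4c
set_option autoImplicit false

namespace Pool.Agent.XO

open Finset

variable {V : Type} [AddCommGroup V] [Fintype V] [DecidableEq V]

theorem rho_sum {p : V → ℝ} (hp : IsLaw p) {n : ℕ} (hn : 2 ≤ n) {T w θ : ℝ} (hθ : 0 < θ)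
    (hw0 : 0 < w) (hw : w ≤ Real.exp (-T)) :
    ∑ z : Fin n → V, pw p z * ∑ j, rho p T w θ z j ≤
      n * (12 * Del p T n + 2 * Real.exp T * θ) := by
  classical
  refine le_trans (le_of_eq ?_) (kk_card hp hn hθ hw0 hw)
  have h := lb_one (p := p) (n := n) (fun z c =>
    if Real.exp (-T) ≤ mu p n (∑ i, z i) c then ((KK p w θ z c).card : ℝ) else 0)
  refine Eq.trans ?_ h.symm
  refine Finset.sum_congr rfl fun z _ => ?_
  congr 1
  unfold rho
  rw [Finset.sum_comm]
  refine Finset.sum_congr rfl fun c _ => ?_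
  by_cases h1 : Real.exp (-T) ≤ mu p n (∑ i, z i) c
  · rw [if_pos h1]
    have h2 : ∀ j : Fin n, (if Real.exp (-T) ≤ mu p n (∑ i, z i) c ∧ j ∈ KK p w θ z c then
        mu p n (∑ i, z i) c else 0) = if j ∈ KK p w θ z c then mu p n (∑ i, z i) c else 0 := by
      intro j
      by_cases h3 : j ∈ KK p w θ z c
      · rw [if_pos ⟨h1, h3⟩, if_pos h3]
      · rw [if_neg (fun h => h3 h.2), if_neg h3]
    simp only [h2]
    rw [Finset.sum_ite_mem, Finset.univ_inter, Finset.sum_const, nsmul_eq_mul, mul_comm]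
  · rw [if_neg h1, mul_zero]
    exact Finset.sum_eq_zero fun j _ => if_neg fun h => h1 h.1

theorem hub_pr {p : V → ℝ} (hp : IsLaw p) {n : ℕ} (hn : 2 ≤ n) {T w θ δ Q : ℝ} (hθ : 0 < θ)
    (hw0 : 0 < w) (hw : w ≤ Real.exp (-T)) (hδ : 0 < δ)
    (hQ : n * (12 * Del p T n + 2 * Real.exp T * θ) ≤ Q) {r : ℕ} (hr : 1 ≤ r) :
    pr (fun z : Fin n → V => pw p z) (fun z => r ≤ (Hub p T w θ δ z).card) ≤ Q / (δ * r) := by
  classical
  have hpw : ∀ z : Fin n → V, 0 ≤ pw p z := fun z => pw_nonneg hp z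
  have hrho : ∀ (z : Fin n → V) (j : Fin n), 0 ≤ rho p T w θ z j := by
    intro z j
    unfold rho
    refine Finset.sum_nonneg fun c _ => ?_
    split_ifs
    · exact mu_nonneg hp n _ c
    · exact le_rfl
  have hrpos : (0 : ℝ) < r := by exact_mod_cast hr
  have ht : 0 < δ * r := mul_pos hδ hrpos
  refine le_trans (pr_mono (B := fun z => δ * r ≤ ∑ j, rho p T w θ z j) hpw ?_) ?_
  · intro z _ hz
    have h1 : δ * (r : ℝ) ≤ δ * ((Hub p T w θ δ z).card : ℝ) :=
      mul_le_mul_of_nonneg_left (by exact_mod_cast hz) hδ.le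
    refine h1.trans ?_
    have h2 : δ * ((Hub p T w θ δ z).card : ℝ) = ∑ j ∈ Hub p T w θ δ z, δ := by
      rw [Finset.sum_const, nsmul_eq_mul, mul_comm]
    rw [h2]
    refine (Finset.sum_le_sum fun j hj => ?_).trans
      (Finset.sum_le_univ_sum_of_nonneg (hrho z))
    unfold Hub at hj
    exact (Finset.mem_filter.mp hj).2
  · refine (pr_markov hpw (fun z => ∑ j, rho p T w θ z j)
      (fun z => Finset.sum_nonneg fun j _ => hrho z j) ht).trans ?_
    exact div_le_div_of_nonneg_right ((rho_sum hp hn hθ hw0 hw).trans hQ) ht.le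

end Pool.Agent.XO
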