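import Mathlib
import Pool.Agent.Lib_helper94.XO.Defs
import Pool.Agent.Lib_helper94.XO.Defs2
import Pool.Agent.Lib_helper94.XO.Pr
import Pool.Agent.Lib_helper94.XO.F.P2_A1
import Pool.Agent.Lib_helper94.XO.F.P2_A2a
import Pool.Agent.Lib_helper94.XO.F.P2_A3d
import Pool.Agent.Lib_helper94.XO.F.P2_B3a
import Pool.Agent.Lib_helper94.XO.F.P2_E1
set_option autoImplicit false

namespace Pool.Agent.XO

open Finset

variable {V : Type} [AddCommGroup V] [Fintype V] [DecidableEq V]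

/-- sums over `z` of a function of `Z` -/
theorem e2_sum_cp (p : V → ℝ) (n : ℕ) (g : V → ℝ) :
    ∑ z : Fin n → V, pw p z * g (∑ i, z i) = ∑ Z, cp p n Z * g Z := by
  unfold cp
  simp_rw [Finset.sum_mul]
  rw [Finset.sum_comm]
  refine Finset.sum_congr rfl fun z _ => ?_
  rw [Finset.sum_eq_single (∑ i, z i)]
  · simp
  · intro b _ hb
    rw [if_neg (fun h => hb h.symm), zero_mul]
  · intro h; exact absurd (Finset.mem_univ _) h

theorem e2_cp_mu {p : V → ℝ} (hp : IsLaw p) {n : ℕ} (hn : 2 ≤ n) (Z d : V) :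
    cp p n Z * mu p n Z d = p d * cp p (n - 1) (Z - d) := by
  unfold mu
  by_cases h : cp p n Z = 0
  · rw [h]
    have h1 : p d * cp p (n - 1) (Z - d) ≤ cp p n Z := by
      have h2 := cp_succ p (n - 1) Z
      rw [Nat.sub_add_cancel (by omega)] at h2
      rw [h2]
      exact Finset.single_le_sum (f := fun x => p x * cp p (n - 1) (Z - x))
        (fun x _ => mul_nonneg (hp.nonneg x) ((cp_law hp (n - 1)).nonneg _)) (Finset.mem_univ d)
    have h3 : 0 ≤ p d * cp p (n - 1) (Z - d) :=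
      mul_nonneg (hp.nonneg d) ((cp_law hp (n - 1)).nonneg _)
    rw [h] at h1
    have h4 : p d * cp p (n - 1) (Z - d) = 0 := le_antisymm h1 h3
    rw [h4]; simp
  · field_simp

theorem e2_shift {p : V → ℝ} (hp : IsLaw p) {n : ℕ} (hn : 2 ≤ n) (h : V → V → ℝ) :
    ∑ z : Fin n → V, pw p z * ∑ d, mu p n (∑ i, z i) d * h (∑ i, z i - d) (∑ i, z i) =
      ∑ ζ, ∑ x, cp p (n - 1) ζ * p x * h ζ (ζ + x) := by
  rw [e2_sum_cp p n (fun Z => ∑ d, mu p n Z d * h (Z - d) Z)]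
  have h1 : ∀ Z, cp p n Z * ∑ d, mu p n Z d * h (Z - d) Z =
      ∑ d, p d * cp p (n - 1) (Z - d) * h (Z - d) Z := by
    intro Z
    rw [Finset.mul_sum]
    refine Finset.sum_congr rfl fun d _ => ?_
    rw [← mul_assoc, e2_cp_mu hp hn]
  simp_rw [h1]
  rw [Finset.sum_comm]
  conv_rhs => rw [Finset.sum_comm]
  refine Finset.sum_congr rfl fun d _ => ?_
  refine Fintype.sum_equiv (Equiv.subRight d) _ _ fun Z => ?_
  simp only [Equiv.subRight_apply, sub_add_cancel]
  ring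

/-- the pointwise bound -/
theorem e2_point {p : V → ℝ} (hp : IsLaw p) {n : ℕ} {T w θ δ : ℝ} (hδ : 0 < δ)
    (z : Fin n → V) (f : V → V → ℝ)
    (hf : ∀ d c, f d c = 0 ∨ (f d c = 1 ∧ Real.exp (-T) ≤ mu p n (∑ i, z i) d ∧
      Real.exp (-T) ≤ mu p n (∑ i, z i) c ∧
      ∃ j, j ∉ Hub p T w θ δ z ∧ j ∈ KK p w θ z d ∧ j ∈ KK p w θ z c)) :
    ∑ d, ∑ c, mu p n (∑ i, z i) d * mu p n (∑ i, z i) c * f d c ≤ δ * ∑ j, rho p T w θ z j := by
  classical
  set Z := ∑ i, z i with hZ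
  have hmu : ∀ c, 0 ≤ mu p n Z c := fun c => mu_nonneg hp n Z c
  set g : Fin n → V → ℝ := fun j c =>
    if Real.exp (-T) ≤ mu p n Z c ∧ j ∈ KK p w θ z c then mu p n Z c else 0 with hg
  have hg0 : ∀ j c, 0 ≤ g j c := by
    intro j c
    simp only [hg]
    split_ifs <;> [exact hmu c; exact le_rfl]
  have hrho : ∀ j, rho p T w θ z j = ∑ c, g j c := by
    intro j
    simp only [rho, hg, ← hZ]
  have hrho0 : ∀ j, 0 ≤ rho p T w θ z j := fun j => by
    rw [hrho]; exact Finset.sum_nonneg fun c _ => hg0 j c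
  set NH : Finset (Fin n) := univ.filter fun j => j ∉ Hub p T w θ δ z with hNH
  have h1 : ∀ d c, mu p n Z d * mu p n Z c * f d c ≤ ∑ j ∈ NH, g j d * g j c := by
    intro d c
    rcases hf d c with h | ⟨h, hd, hc, j, hj, hjd, hjc⟩
    · rw [h, mul_zero]
      exact Finset.sum_nonneg fun j _ => mul_nonneg (hg0 j d) (hg0 j c)
    · rw [h, mul_one]
      have h2 : mu p n Z d * mu p n Z c = g j d * g j c := by
        simp only [hg]
        rw [if_pos ⟨hd, hjd⟩, if_pos ⟨hc, hjc⟩]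
      rw [h2]
      exact Finset.single_le_sum (f := fun j => g j d * g j c)
        (fun j _ => mul_nonneg (hg0 j d) (hg0 j c)) (by simp [hNH, hj])
  calc ∑ d, ∑ c, mu p n Z d * mu p n Z c * f d c
      ≤ ∑ d, ∑ c, ∑ j ∈ NH, g j d * g j c :=
        Finset.sum_le_sum fun d _ => Finset.sum_le_sum fun c _ => h1 d c
    _ = ∑ j ∈ NH, rho p T w θ z j * rho p T w θ z j := by
        have h3 : ∀ d, ∑ c, ∑ j ∈ NH, g j d * g j c = ∑ j ∈ NH, ∑ c, g j d * g j c :=
          fun d => Finset.sum_comm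
        simp_rw [h3]
        rw [Finset.sum_comm]
        refine Finset.sum_congr rfl fun j _ => ?_
        rw [hrho, Finset.sum_mul_sum]
    _ ≤ ∑ j ∈ NH, δ * rho p T w θ z j := by
        refine Finset.sum_le_sum fun j hj => ?_
        have hj' : j ∉ Hub p T w θ δ z := by simpa [hNH] using hj
        have hlt : rho p T w θ z j < δ := by
          by_contra hcon
          push Not at hcon
          exact hj' (by simp [Hub, hcon])
        exact mul_le_mul_of_nonneg_right hlt.le (hrho0 j)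
    _ ≤ ∑ j, δ * rho p T w θ z j :=
        Finset.sum_le_sum_of_subset_of_nonneg (Finset.subset_univ _)
          fun j _ _ => mul_nonneg hδ.le (hrho0 j)
    _ = δ * ∑ j, rho p T w θ z j := by rw [Finset.mul_sum]

theorem disj_pr {p : V → ℝ} (hp : IsLaw p) {n : ℕ} (hn : 2 ≤ n) {T w θ δ Q : ℝ} (hθ : 0 < θ)
    (hw0 : 0 < w) (hw : w ≤ Real.exp (-T)) (hδ : 0 < δ)
    (hQ : n * (12 * Del p T n + 2 * Real.exp T * θ) ≤ Q) :
    pr (LB p n 2) (fun x => Real.exp (-T) ≤ mu p n (∑ i, x.1 i) (x.2 0) ∧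
      Real.exp (-T) ≤ mu p n (∑ i, x.1 i) (x.2 1) ∧
      ∃ j, j ∉ Hub p T w θ δ x.1 ∧ j ∈ KK p w θ x.1 (x.2 0) ∧ j ∈ KK p w θ x.1 (x.2 1)) ≤
      δ * Q + 2 * √(Del p T n) := by
  classical
  set f : (Fin n → V) → V → V → ℝ := fun z d c =>
    if Real.exp (-T) ≤ mu p n (∑ i, z i) d ∧ Real.exp (-T) ≤ mu p n (∑ i, z i) c ∧
      ∃ j, j ∉ Hub p T w θ δ z ∧ j ∈ KK p w θ z d ∧ j ∈ KK p w θ z c then 1 else 0 with hf
  have h0 : pr (LB p n 2) (fun x => Real.exp (-T) ≤ mu p n (∑ i, x.1 i) (x.2 0) ∧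
      Real.exp (-T) ≤ mu p n (∑ i, x.1 i) (x.2 1) ∧
      ∃ j, j ∉ Hub p T w θ δ x.1 ∧ j ∈ KK p w θ x.1 (x.2 0) ∧ j ∈ KK p w θ x.1 (x.2 1)) =
      ∑ x, LB p n 2 x * f x.1 (x.2 0) (x.2 1) := by
    unfold pr
    refine Finset.sum_congr rfl fun x _ => ?_
    simp only [hf]
    split_ifs <;> simp
  rw [h0, lb_two hp hn]
  have hmu : ∀ Z c, 0 ≤ mu p n Z c := fun Z c => mu_nonneg hp n Z c
  -- the error
  set E : V → V → ℝ := fun ζ Z => ∑ c, (if Real.exp (-T) ≤ mu p n Z c then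
      |mu p (n - 1) ζ c - mu p n Z c| else 0) with hE
  have hpt : ∀ z : Fin n → V, ∑ d, ∑ c, mu p n (∑ i, z i) d * mu p (n - 1) (∑ i, z i - d) c *
        f z d c ≤
      ∑ d, ∑ c, mu p n (∑ i, z i) d * mu p n (∑ i, z i) c * f z d c +
        ∑ d, mu p n (∑ i, z i) d * E (∑ i, z i - d) (∑ i, z i) := by
    intro z
    rw [← Finset.sum_add_distrib]
    refine Finset.sum_le_sum fun d _ => ?_
    simp only [hE]
    rw [Finset.mul_sum, ← Finset.sum_add_distrib]
    refine Finset.sum_le_sum fun c _ => ?_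
    have hd := hmu (∑ i, z i) d
    by_cases h : Real.exp (-T) ≤ mu p n (∑ i, z i) d ∧ Real.exp (-T) ≤ mu p n (∑ i, z i) c ∧
      ∃ j, j ∉ Hub p T w θ δ z ∧ j ∈ KK p w θ z d ∧ j ∈ KK p w θ z c
    · have hf1 : f z d c = 1 := by simp only [hf]; rw [if_pos h]
      rw [hf1, if_pos h.2.1, mul_one, mul_one, ← mul_add]
      refine mul_le_mul_of_nonneg_left ?_ hd
      have := le_abs_self (mu p (n - 1) (∑ i, z i - d) c - mu p n (∑ i, z i) c)
      linarith
    · have hf0 : f z d c = 0 := by simp only [hf]; rw [if_neg h]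
      rw [hf0, mul_zero, mul_zero, zero_add]
      refine mul_nonneg hd ?_
      split_ifs <;> [exact abs_nonneg _; exact le_rfl]
  calc ∑ z : Fin n → V, pw p z * ∑ d, ∑ c,
        mu p n (∑ i, z i) d * mu p (n - 1) (∑ i, z i - d) c * f z d c
      ≤ ∑ z : Fin n → V, pw p z * (δ * ∑ j, rho p T w θ z j +
          ∑ d, mu p n (∑ i, z i) d * E (∑ i, z i - d) (∑ i, z i)) := by
        refine Finset.sum_le_sum fun z _ => mul_le_mul_of_nonneg_left ?_ (pw_nonneg hp z)
        refine (hpt z).trans (add_le_add ?_ le_rfl)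
        refine e2_point hp hδ z (f z) fun d c => ?_
        simp only [hf]
        split_ifs with h
        · exact Or.inr ⟨rfl, h⟩
        · exact Or.inl rfl
    _ = δ * (∑ z : Fin n → V, pw p z * ∑ j, rho p T w θ z j) +
        ∑ z : Fin n → V, pw p z *
          ∑ d, mu p n (∑ i, z i) d * E (∑ i, z i - d) (∑ i, z i) := by
        rw [Finset.mul_sum, ← Finset.sum_add_distrib]
        refine Finset.sum_congr rfl fun z _ => ?_
        ring
    _ ≤ δ * Q + 2 * √(Del p T n) := by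
        refine add_le_add (mul_le_mul_of_nonneg_left ((rho_sum hp hn hθ hw0 hw).trans hQ) hδ.le) ?_
        rw [e2_shift hp hn E]
        simp only [hE]
        exact near_abs hp hn

end Pool.Agent.XO
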