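import Mathlib
import Pool.Agent.Lib_helper94.XO.Defs
import Pool.Agent.Lib_helper94.XO.Defs2
import Pool.Agent.Lib_helper94.XO.Pr
set_option autoImplicit false

/-! Block P2.A3f -/

namespace Pool.Agent.XO

open Finset

variable {V : Type} [AddCommGroup V] [Fintype V] [DecidableEq V]

/-- exchange of the coordinate `j` and a new element -/
def a3f_equiv {n : ℕ} (j : Fin n) : ((Fin n → V) × V) ≃ ((Fin n → V) × V) where
  toFun t := (Function.update t.1 j t.2, t.1 j)
  invFun t := (Function.update t.1 j t.2, t.1 j)
  left_inv t := by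
    simp
  right_inv t := by
    simp

theorem a3f_pw (p : V → ℝ) {n : ℕ} (j : Fin n) (z : Fin n → V) (x : V) :
    pw p (Function.update z j x) * p (z j) = pw p z * p x := by
  unfold pw
  rw [← Finset.mul_prod_erase univ (fun i => p (Function.update z j x i)) (mem_univ j),
    ← Finset.mul_prod_erase univ (fun i => p (z i)) (mem_univ j)]
  have h : ∏ i ∈ univ.erase j, p (Function.update z j x i) = ∏ i ∈ univ.erase j, p (z i) := by
    refine Finset.prod_congr rfl fun i hi => ?_
    rw [Function.update_of_ne (Finset.ne_of_mem_erase hi)]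
  rw [h]
  simp only [Function.update_self]
  ring

/-- a function of the other coordinates and of `z_j` -/
theorem coord_indep {p : V → ℝ} (hp : IsLaw p) {n : ℕ} (j : Fin n) (f : (Fin n → V) → ℝ) :
    ∑ z : Fin n → V, pw p z * f z =
      ∑ z : Fin n → V, pw p z * ∑ x, p x * f (Function.update z j x) := by
  have h1 : ∑ z : Fin n → V, pw p z * ∑ x, p x * f (Function.update z j x) =
      ∑ t : (Fin n → V) × V, pw p t.1 * p t.2 * f (Function.update t.1 j t.2) := by
    rw [Fintype.sum_prod_type]
    refine Finset.sum_congr rfl fun z _ => ?_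
    rw [Finset.mul_sum]
    refine Finset.sum_congr rfl fun x _ => ?_
    ring
  have h2 : ∑ z : Fin n → V, pw p z * f z =
      ∑ t : (Fin n → V) × V, pw p t.1 * p t.2 * f t.1 := by
    rw [Fintype.sum_prod_type]
    refine Finset.sum_congr rfl fun z _ => ?_
    have h3 : ∑ x, pw p z * p x * f z = pw p z * f z * ∑ x, p x := by
      rw [Finset.mul_sum]
      refine Finset.sum_congr rfl fun x _ => ?_
      ring
    simp only [h3, hp.sum_one, mul_one]
  rw [h1, h2]
  refine (Fintype.sum_equiv (a3f_equiv j) _ _ fun t => ?_).symm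
  show pw p t.1 * p t.2 * f (Function.update t.1 j t.2) =
    pw p (Function.update t.1 j t.2) * p (t.1 j) * f (Function.update t.1 j t.2)
  rw [a3f_pw]

end Pool.Agent.XO
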