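import Mathlib
import Pool.Agent.Lib_helper94.XO.Defs
import Pool.Agent.Lib_helper94.XO.Defs2
import Pool.Agent.Lib_helper94.XO.Pr
import Pool.Agent.Lib_helper94.XO.F.P2_A1
import Pool.Agent.Lib_helper94.XO.F.P2_A3f
set_option autoImplicit false

namespace Pool.Agent.XO

open Finset Filter

variable {V : Type} [AddCommGroup V] [Fintype V] [DecidableEq V]

theorem f1_pr_sum {p : V → ℝ} {n : ℕ} (A : (Fin n → V) → Prop) [DecidablePred A] :
    pr (fun z : Fin n → V => pw p z) A = ∑ z : Fin n → V, pw p z * (if A z then 1 else 0) := by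
  classical
  unfold pr
  refine Finset.sum_congr rfl fun z _ => ?_
  by_cases h : A z <;> simp [h]

open Classical in
/-- the new family -/
noncomputable def f1_step (p : V → ℝ) {n : ℕ} (Γ : ℝ) (GF : (Fin n → V) → Finset V) (j : Fin n)
    (z : Fin n → V) : Finset V :=
  univ.filter fun g => (Γ ^ 2)⁻¹ ≤ ∑ x, p x * (if g ∈ GF (Function.update z j x) then 1 else 0)

theorem f1_step_card {p : V → ℝ} (hp : IsLaw p) {n : ℕ} {Γ : ℝ} (hΓ : 1 ≤ Γ)
    (GF : (Fin n → V) → Finset V) (j : Fin n) (z : Fin n → V) {B : ℝ}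
    (hB : ∀ z, ((GF z).card : ℝ) ≤ B) : ((f1_step p Γ GF j z).card : ℝ) ≤ B * Γ ^ 2 := by
  classical
  have hG : 0 < Γ ^ 2 := by positivity
  have h1 : ((f1_step p Γ GF j z).card : ℝ) * (Γ ^ 2)⁻¹ ≤
      ∑ g ∈ f1_step p Γ GF j z, ∑ x, p x * (if g ∈ GF (Function.update z j x) then 1 else 0) := by
    rw [← nsmul_eq_mul]
    refine Finset.card_nsmul_le_sum _ _ _ fun g hg => ?_
    exact (Finset.mem_filter.1 hg).2
  have h2 : ∑ g ∈ f1_step p Γ GF j z, ∑ x, p x *
      (if g ∈ GF (Function.update z j x) then (1:ℝ) else 0) ≤ B := by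
    rw [Finset.sum_comm]
    calc ∑ x, ∑ g ∈ f1_step p Γ GF j z, p x * (if g ∈ GF (Function.update z j x) then (1:ℝ) else 0)
        ≤ ∑ x, p x * B := by
          refine Finset.sum_le_sum fun x _ => ?_
          rw [← Finset.mul_sum]
          refine mul_le_mul_of_nonneg_left ?_ (hp.nonneg x)
          refine le_trans ?_ (hB (Function.update z j x))
          rw [← Finset.sum_filter, Finset.sum_const, nsmul_eq_mul, mul_one]
          exact_mod_cast Finset.card_le_card fun g hg => (Finset.mem_filter.1 hg).2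
      _ = B := by rw [← Finset.sum_mul, hp.sum_one, one_mul]
  have h3 := h1.trans h2
  rwa [← div_eq_mul_inv, div_le_iff₀ hG] at h3

theorem f1_step_pr {p : V → ℝ} (hp : IsLaw p) {n : ℕ} {Γ : ℝ} (hΓ : 1 ≤ Γ)
    (GF : (Fin n → V) → Finset V) (j : Fin n) (G1 : (Fin n → V) → Finset V)
    (hdep : ∀ z z', (∀ i, i ≠ j → z i = z' i) → G1 z = G1 z')
    (hcard : ∀ z, ((G1 z).card : ℝ) ≤ Γ) :
    pr (fun z : Fin n → V => pw p z)
      (fun z => ∃ g, g ∈ GF z ∧ g ∈ G1 z ∧ g ∉ f1_step p Γ GF j z) ≤ 1 / Γ := by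
  classical
  have hΓ0 : 0 < Γ := by linarith
  have hupd : ∀ z x, G1 (Function.update z j x) = G1 z := fun z x =>
    hdep _ _ fun i hi => Function.update_of_ne hi _ _
  have hst : ∀ z x, f1_step p Γ GF j (Function.update z j x) = f1_step p Γ GF j z := by
    intro z x
    unfold f1_step
    simp only [Function.update_idem]
  rw [f1_pr_sum]
  calc ∑ z : Fin n → V, pw p z *
        (if ∃ g, g ∈ GF z ∧ g ∈ G1 z ∧ g ∉ f1_step p Γ GF j z then 1 else 0)
      ≤ ∑ z : Fin n → V, pw p z *
        ∑ g ∈ (G1 z) \ f1_step p Γ GF j z, (if g ∈ GF z then (1:ℝ) else 0) := by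
        refine Finset.sum_le_sum fun z _ => mul_le_mul_of_nonneg_left ?_ (pw_nonneg hp z)
        split_ifs with h
        · obtain ⟨g, h1, h2, h3⟩ := h
          have := Finset.single_le_sum (f := fun g => if g ∈ GF z then (1:ℝ) else 0)
            (fun g _ => by show (0:ℝ) ≤ if g ∈ GF z then 1 else 0
                           split_ifs <;> norm_num) (Finset.mem_sdiff.2 ⟨h2, h3⟩)
          simpa [h1] using this
        · exact Finset.sum_nonneg fun g _ => by split_ifs <;> norm_num
    _ = ∑ z : Fin n → V, pw p z * ∑ x, p x *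
        ∑ g ∈ (G1 z) \ f1_step p Γ GF j z,
          (if g ∈ GF (Function.update z j x) then (1:ℝ) else 0) := by
        rw [coord_indep hp j (fun z => ∑ g ∈ (G1 z) \ f1_step p Γ GF j z,
          (if g ∈ GF z then (1:ℝ) else 0))]
        simp only [hupd, hst]
    _ ≤ ∑ z : Fin n → V, pw p z * (1 / Γ) := by
        refine Finset.sum_le_sum fun z _ => mul_le_mul_of_nonneg_left ?_ (pw_nonneg hp z)
        simp only [Finset.mul_sum]
        rw [Finset.sum_comm]
        calc ∑ g ∈ (G1 z) \ f1_step p Γ GF j z, ∑ x, p x *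
              (if g ∈ GF (Function.update z j x) then (1:ℝ) else 0)
            ≤ ∑ g ∈ (G1 z) \ f1_step p Γ GF j z, (Γ ^ 2)⁻¹ := by
              refine Finset.sum_le_sum fun g hg => ?_
              have h3 := (Finset.mem_sdiff.1 hg).2
              have : ¬ ((Γ ^ 2)⁻¹ ≤ ∑ x, p x *
                  (if g ∈ GF (Function.update z j x) then (1:ℝ) else 0)) := by
                intro h
                exact h3 (Finset.mem_filter.2 ⟨Finset.mem_univ _, h⟩)
              exact (not_le.1 this).le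
          _ = ((G1 z) \ f1_step p Γ GF j z).card * (Γ ^ 2)⁻¹ := by
              rw [Finset.sum_const, nsmul_eq_mul]
          _ ≤ Γ * (Γ ^ 2)⁻¹ := by
              refine mul_le_mul_of_nonneg_right (le_trans ?_ (hcard z)) (by positivity)
              exact_mod_cast Finset.card_le_card Finset.sdiff_subset
          _ = 1 / Γ := by field_simp
    _ = 1 / Γ := by rw [← Finset.sum_mul, (pw_law hp n).sum_one, one_mul]

theorem popular {p : V → ℝ} (hp : IsLaw p) {n : ℕ} {Γ : ℝ} (hΓ : 1 ≤ Γ)
    (Gj : Fin n → (Fin n → V) → Finset V)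
    (hdep : ∀ j z z', (∀ i, i ≠ j → z i = z' i) → Gj j z = Gj j z')
    (hcard : ∀ j z, ((Gj j z).card : ℝ) ≤ Γ) (F : Finset (Fin n)) (hF : F.Nonempty) :
    ∃ GF : (Fin n → V) → Finset V, (∀ z z', (∀ i, i ∉ F → z i = z' i) → GF z = GF z') ∧
      (∀ z, ((GF z).card : ℝ) ≤ Γ ^ (2 * F.card + 1)) ∧
      pr (fun z : Fin n → V => pw p z) (fun z => ∃ g, (∀ j ∈ F, g ∈ Gj j z) ∧ g ∉ GF z) ≤
        F.card / Γ := by
  classical
  have hΓ0 : 0 < Γ := by linarith
  induction hF using Finset.Nonempty.cons_induction with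
  | singleton j =>
    refine ⟨Gj j, fun z z' h => hdep j z z' fun i hi => h i (by simpa using hi), fun z => ?_, ?_⟩
    · refine (hcard j z).trans ?_
      rw [Finset.card_singleton]
      exact le_self_pow₀ hΓ (by norm_num)
    · have : pr (fun z : Fin n → V => pw p z)
          (fun z => ∃ g, (∀ j_1 ∈ ({j} : Finset (Fin n)), g ∈ Gj j_1 z) ∧ g ∉ Gj j z) ≤
          pr (fun z : Fin n → V => pw p z) (fun _ => False) := by
        refine pr_mono (fun z => pw_nonneg hp z) fun z _ h => ?_
        obtain ⟨g, h1, h2⟩ := h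
        exact h2 (h1 j (by simp))
      refine this.trans ?_
      have h0 : pr (fun z : Fin n → V => pw p z) (fun _ => False) = 0 := by
        unfold pr; simp
      rw [h0]; positivity
  | cons j F hj hF ih =>
    obtain ⟨GF, h1, h2, h3⟩ := ih
    refine ⟨f1_step p Γ GF j, ?_, ?_, ?_⟩
    · intro z z' h
      have : ∀ x, GF (Function.update z j x) = GF (Function.update z' j x) := by
        intro x
        refine h1 _ _ fun i hi => ?_
        by_cases hij : i = j
        · subst hij; simp
        · rw [Function.update_of_ne hij, Function.update_of_ne hij]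
          exact h i (by simp [hij, hi])
      unfold f1_step
      simp only [this]
    · intro z
      refine (f1_step_card hp hΓ GF j z h2).trans ?_
      rw [Finset.card_cons, ← pow_add]
      exact pow_le_pow_right₀ hΓ (by omega)
    · have hle : pr (fun z : Fin n → V => pw p z)
          (fun z => ∃ g, (∀ i ∈ Finset.cons j F hj, g ∈ Gj i z) ∧ g ∉ f1_step p Γ GF j z) ≤
          pr (fun z : Fin n → V => pw p z) (fun z => (∃ g, (∀ i ∈ F, g ∈ Gj i z) ∧ g ∉ GF z) ∨
            (∃ g, g ∈ GF z ∧ g ∈ Gj j z ∧ g ∉ f1_step p Γ GF j z)) := by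
        refine pr_mono (fun z => pw_nonneg hp z) fun z _ h => ?_
        obtain ⟨g, g1, g2⟩ := h
        by_cases hg : g ∈ GF z
        · exact Or.inr ⟨g, hg, g1 j (by simp), g2⟩
        · exact Or.inl ⟨g, fun i hi => g1 i (by simp [hi]), hg⟩
      refine hle.trans ((pr_or_le (fun z => pw_nonneg hp z) _ _).trans ?_)
      have h4 := f1_step_pr hp hΓ GF j (Gj j) (fun z z' h => hdep j z z' h) (hcard j)
      rw [Finset.card_cons, Nat.cast_add, Nat.cast_one, add_div]
      exact add_le_add h3 h4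

end Pool.Agent.XO
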