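import Mathlib
import Pool.Agent.Lib_helper94.XO.Defs
import Pool.Agent.Lib_helper94.XO.Defs2
import Pool.Agent.Lib_helper94.XO.Pr
import Pool.Agent.Lib_helper94.XO.F.P2_A1
import Pool.Agent.Lib_helper94.XO.F.P2_A3a
import Pool.Agent.Lib_helper94.XO.F.P2_A3b
import Pool.Agent.Lib_helper94.XO.F.P2_A3c
set_option autoImplicit false

namespace Pool.Agent.XO

open Finset

variable {V : Type} [AddCommGroup V] [Fintype V] [DecidableEq V]

theorem g1_pr_eq {Ω : Type} [Fintype Ω] (P : Ω → ℝ) (A : Ω → Prop) [DecidablePred A] :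
    pr P A = ∑ ω, if A ω then P ω else 0 := by
  unfold pr
  refine Finset.sum_congr rfl fun ω _ => ?_
  by_cases h : A ω
  · rw [if_pos h, if_pos h]
  · rw [if_neg h, if_neg h]

/-- product events -/
theorem g1_prod {p : V → ℝ} (hp : IsLaw p) {n : ℕ} (T : Finset (Fin n)) (A : Finset V) :
    pr (fun y : Fin n → V => pw p y) (fun y => ∀ i ∈ T, y i ∈ A) = (∑ c ∈ A, p c) ^ T.card := by
  classical
  have h1 : (∑ c ∈ A, p c) ^ T.card =
      ∏ i : Fin n, ∑ c ∈ (if i ∈ T then A else univ), p c := by
    have h2 : ∀ i : Fin n, ∑ c ∈ (if i ∈ T then A else univ), p c =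
        if i ∈ T then ∑ c ∈ A, p c else 1 := by
      intro i
      split_ifs with h
      · rfl
      · exact hp.sum_one
    simp_rw [h2]
    rw [Finset.prod_ite_mem, Finset.univ_inter, Finset.prod_const]
  rw [h1, Finset.prod_univ_sum, g1_pr_eq, ← Finset.sum_filter]
  refine Finset.sum_congr ?_ fun _ _ => rfl
  ext y
  simp only [Finset.mem_filter, Finset.mem_univ, true_and, Fintype.mem_piFinset]
  constructor
  · intro h i
    split_ifs with hi
    · exact h i hi
    · exact Finset.mem_univ _
  · intro h i hi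
    have := h i
    rwa [if_pos hi] at this

theorem light_pr {p : V → ℝ} (hp : IsLaw p) {s τ δ : ℝ}
    (hs : ((univ.filter fun c => p c ≠ 0).card : ℝ) ≤ s) (hs1 : 1 ≤ s) (hτ : 0 ≤ τ) (hτ1 : τ ≤ 1)
    {n r : ℕ} (hn : 1 ≤ n) (Hf : (Fin n → V) → Finset (Fin n))
    (Lt : Finset (Fin n) → (Fin n → V) → Finset V)
    (hdep : ∀ H z z', (∀ i ∈ H, z i = z' i) → Lt H z = Lt H z')
    (hLt : ∀ H z, ∑ c ∈ Lt H z, p c ≤ τ) (hδ : 0 < δ) :
    pr (LB p n 1) (fun x => (Hf x.1).card ≤ r ∧ x.2 0 ∈ Lt (Hf x.1) x.1) ≤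
      δ + 2 ^ n * s ^ r * 2 ^ n * τ ^ (δ * n) := by
  classical
  have hn0 : (0 : ℝ) < n := by exact_mod_cast hn
  have hlaw := lb_law hp (le_refl n)
  -- step 1: average over the coordinates
  set E : (Fin n → V) × (Fin n → V) → Prop := fun x => (Hf x.1).card ≤ r ∧
    δ * n ≤ ((univ.filter fun i => x.2 i ∈ Lt (Hf x.1) x.1).card : ℝ) with hE
  have h1 : ∀ i : Fin n, pr (LB p n n) (fun x => (Hf x.1).card ≤ r ∧
      x.2 i ∈ Lt (Hf x.1) x.1) =
      pr (LB p n 1) (fun x => (Hf x.1).card ≤ r ∧ x.2 0 ∈ Lt (Hf x.1) x.1) := by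
    intro i
    exact lb_marg hp (le_refl n) (fun _ : Fin 1 => i) (fun a b _ => Subsingleton.elim a b)
      (fun z c => (Hf z).card ≤ r ∧ c 0 ∈ Lt (Hf z) z)
  have h2 : n * pr (LB p n 1) (fun x => (Hf x.1).card ≤ r ∧ x.2 0 ∈ Lt (Hf x.1) x.1) ≤
      n * δ + n * pr (LB p n n) E := by
    calc n * pr (LB p n 1) (fun x => (Hf x.1).card ≤ r ∧ x.2 0 ∈ Lt (Hf x.1) x.1)
        = ∑ i : Fin n, pr (LB p n n) (fun x => (Hf x.1).card ≤ r ∧
            x.2 i ∈ Lt (Hf x.1) x.1) := by
          simp_rw [h1]
          simp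
      _ = ∑ x, ∑ i : Fin n, (if (Hf x.1).card ≤ r ∧ x.2 i ∈ Lt (Hf x.1) x.1
            then LB p n n x else 0) := by
          simp_rw [g1_pr_eq]
          rw [Finset.sum_comm]
      _ ≤ ∑ x, (LB p n n x * (n * δ) + n * (if E x then LB p n n x else 0)) := by
          refine Finset.sum_le_sum fun x _ => ?_
          have hx := hlaw.nonneg x
          by_cases hc : (Hf x.1).card ≤ r
          · have h3 : ∑ i : Fin n, (if (Hf x.1).card ≤ r ∧ x.2 i ∈ Lt (Hf x.1) x.1
                then LB p n n x else 0) =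
                ((univ.filter fun i => x.2 i ∈ Lt (Hf x.1) x.1).card : ℝ) * LB p n n x := by
              simp only [hc, true_and]
              rw [← Finset.sum_filter, Finset.sum_const, nsmul_eq_mul]
            rw [h3]
            by_cases hE' : E x
            · rw [if_pos hE']
              have h4 : ((univ.filter fun i => x.2 i ∈ Lt (Hf x.1) x.1).card : ℝ) ≤ n := by
                have := Finset.card_le_univ (univ.filter fun i => x.2 i ∈ Lt (Hf x.1) x.1)
                rw [Fintype.card_fin] at this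
                exact_mod_cast this
              have h5 := mul_le_mul_of_nonneg_right h4 hx
              have h6 : 0 ≤ LB p n n x * (n * δ) := by positivity
              linarith
            · rw [if_neg hE', mul_zero, add_zero]
              have h4 : ((univ.filter fun i => x.2 i ∈ Lt (Hf x.1) x.1).card : ℝ) ≤ n * δ := by
                by_contra hcon
                push Not at hcon
                exact hE' ⟨hc, by linarith [mul_comm δ (n : ℝ)]⟩
              have h5 := mul_le_mul_of_nonneg_right h4 hx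
              linarith [mul_comm (LB p n n x) (n * δ)]
          · have h3 : ∑ i : Fin n, (if (Hf x.1).card ≤ r ∧ x.2 i ∈ Lt (Hf x.1) x.1
                then LB p n n x else 0) = 0 := by
              simp [hc]
            rw [h3]
            have h6 : 0 ≤ LB p n n x * (n * δ) := by positivity
            have h7 : 0 ≤ n * (if E x then LB p n n x else 0) := by
              refine mul_nonneg hn0.le ?_
              split_ifs <;> [exact hx; exact le_rfl]
            linarith
      _ = n * δ + n * pr (LB p n n) E := by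
          rw [Finset.sum_add_distrib, ← Finset.sum_mul, hlaw.sum_one, one_mul, ← Finset.mul_sum,
            g1_pr_eq]
  have h3 : pr (LB p n 1) (fun x => (Hf x.1).card ≤ r ∧ x.2 0 ∈ Lt (Hf x.1) x.1) ≤
      δ + pr (LB p n n) E := by
    rw [← mul_add] at h2
    exact le_of_mul_le_mul_left h2 hn0
  refine h3.trans (add_le_add le_rfl ?_)
  -- step 2: the union bound
  set supp : Finset V := univ.filter fun c => p c ≠ 0 with hsupp
  set SH : Finset (Fin n) → Finset (Fin n → V) := fun H =>
    Fintype.piFinset fun i => if i ∈ H then supp else {0} with hSH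
  set A : Finset (Fin n) × (Fin n → V) × Finset (Fin n) → (Fin n → V) → Prop := fun t y =>
    (t.1.card ≤ r ∧ t.2.1 ∈ SH t.1) ∧ δ * n ≤ (t.2.2.card : ℝ) ∧ ∀ i ∈ t.2.2, y i ∈ Lt t.1 t.2.1
    with hA
  have h4 : pr (LB p n n) E ≤ pr (LB p n n) (fun x => ∃ t, A t x.2) := by
    refine pr_mono hlaw.nonneg fun x hx hEx => ?_
    have hpw : 0 < pw p x.1 := by
      rcases (pw_nonneg hp x.1).lt_or_eq with h | h
      · exact h
      · exfalso
        unfold LB at hx
        rw [← h, zero_mul] at hx
        exact lt_irrefl _ hx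
    have hne : ∀ i, p (x.1 i) ≠ 0 := by
      intro i hi
      have : pw p x.1 = 0 := Finset.prod_eq_zero (Finset.mem_univ i) hi
      rw [this] at hpw
      exact lt_irrefl _ hpw
    have hv : Lt (Hf x.1) (fun i => if i ∈ Hf x.1 then x.1 i else 0) = Lt (Hf x.1) x.1 := by
      refine hdep _ _ _ fun i hi => ?_
      simp [hi]
    refine ⟨(Hf x.1, fun i => if i ∈ Hf x.1 then x.1 i else 0,
      univ.filter fun i => x.2 i ∈ Lt (Hf x.1) x.1), ⟨hEx.1, ?_⟩, hEx.2, fun i hi => ?_⟩
    · simp only [hSH, Fintype.mem_piFinset]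
      intro i
      by_cases hi : i ∈ Hf x.1
      · simp [hi, hsupp, hne i]
      · simp [hi]
    · simp only [Finset.mem_filter, Finset.mem_univ, true_and] at hi
      show x.2 i ∈ Lt (Hf x.1) (fun i => if i ∈ Hf x.1 then x.1 i else 0)
      rw [hv]
      exact hi
  refine h4.trans ?_
  have h5 := lb_snd hp (le_refl n) (fun y => ∃ t, A t y)
  rw [h5]
  refine (pr_exists_le (fun y => pw_nonneg hp y) A).trans ?_
  have hτn : 0 ≤ τ ^ (δ * n) := Real.rpow_nonneg hτ _
  have h6 : ∀ t : Finset (Fin n) × (Fin n → V) × Finset (Fin n),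
      pr (fun y : Fin n → V => pw p y) (A t) ≤
        if t.1.card ≤ r ∧ t.2.1 ∈ SH t.1 then τ ^ (δ * n) else 0 := by
    intro t
    split_ifs with ht
    · by_cases hT : δ * n ≤ (t.2.2.card : ℝ)
      · calc pr (fun y : Fin n → V => pw p y) (A t)
            ≤ pr (fun y : Fin n → V => pw p y) (fun y => ∀ i ∈ t.2.2, y i ∈ Lt t.1 t.2.1) :=
              pr_mono (fun y => pw_nonneg hp y) fun y _ hy => hy.2.2
          _ = (∑ c ∈ Lt t.1 t.2.1, p c) ^ t.2.2.card := g1_prod hp _ _
          _ ≤ τ ^ t.2.2.card :=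
              pow_le_pow_left₀ (Finset.sum_nonneg fun c _ => hp.nonneg c) (hLt _ _) _
          _ = τ ^ (t.2.2.card : ℝ) := (Real.rpow_natCast _ _).symm
          _ ≤ τ ^ (δ * n) :=
              Real.rpow_le_rpow_of_exponent_ge' hτ hτ1 (by positivity) hT
      · have : pr (fun y : Fin n → V => pw p y) (A t) = 0 := by
          unfold pr
          refine Finset.sum_eq_zero fun y _ => ?_
          rw [if_neg]
          exact fun h => hT h.2.1
        rw [this]
        exact hτn
    · have : pr (fun y : Fin n → V => pw p y) (A t) = 0 := by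
        unfold pr
        refine Finset.sum_eq_zero fun y _ => ?_
        rw [if_neg]
        exact fun h => ht h.1
      rw [this]
  refine (Finset.sum_le_sum fun t _ => h6 t).trans ?_
  rw [Fintype.sum_prod_type]
  have h7 : ∀ H : Finset (Fin n), ∑ q : (Fin n → V) × Finset (Fin n),
      (if (H, q).1.card ≤ r ∧ (H, q).2.1 ∈ SH (H, q).1 then τ ^ (δ * n) else 0) ≤
        s ^ r * 2 ^ n * τ ^ (δ * n) := by
    intro H
    rw [Fintype.sum_prod_type]
    by_cases hH : H.card ≤ r
    · have h8 : ∀ v : Fin n → V, ∑ T : Finset (Fin n),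
          (if (H, (v, T)).1.card ≤ r ∧ (H, (v, T)).2.1 ∈ SH (H, (v, T)).1
            then τ ^ (δ * n) else 0) = if v ∈ SH H then 2 ^ n * τ ^ (δ * n) else 0 := by
        intro v
        simp only [hH, true_and]
        split_ifs with hv
        · simp
        · simp
      simp_rw [h8]
      rw [← Finset.sum_filter, Finset.sum_const, nsmul_eq_mul]
      have h9 : (univ.filter fun v => v ∈ SH H) = SH H := by ext; simp
      rw [h9]
      have h10 : ((SH H).card : ℝ) ≤ s ^ r := by
        simp only [hSH]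
        rw [Fintype.card_piFinset]
        have h11 : ∀ i : Fin n, (if i ∈ H then supp else ({0} : Finset V)).card =
            if i ∈ H then supp.card else 1 := by
          intro i
          split_ifs <;> simp
        simp_rw [h11]
        rw [Finset.prod_ite_mem, Finset.univ_inter, Finset.prod_const]
        push_cast
        calc (supp.card : ℝ) ^ H.card ≤ s ^ H.card :=
              pow_le_pow_left₀ (Nat.cast_nonneg _) hs _
          _ ≤ s ^ r := pow_le_pow_right₀ hs1 hH
      calc ((SH H).card : ℝ) * (2 ^ n * τ ^ (δ * n)) ≤ s ^ r * (2 ^ n * τ ^ (δ * n)) :=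
            mul_le_mul_of_nonneg_right h10 (by positivity)
        _ = s ^ r * 2 ^ n * τ ^ (δ * n) := by ring
    · have h8 : ∀ v : Fin n → V, ∑ T : Finset (Fin n),
          (if (H, (v, T)).1.card ≤ r ∧ (H, (v, T)).2.1 ∈ SH (H, (v, T)).1
            then τ ^ (δ * n) else 0) = 0 := by
        intro v
        simp [hH]
      simp_rw [h8]
      rw [Finset.sum_const_zero]
      positivity
  refine (Finset.sum_le_sum fun H _ => h7 H).trans ?_
  rw [Finset.sum_const, Finset.card_univ, Fintype.card_finset, Fintype.card_fin, nsmul_eq_mul]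
  push_cast
  linarith

end Pool.Agent.XO
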